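import Mathlib
import Pool.Agent.Lib.Helper4.GSD.Defs

/-!
# Density one semisimplicity: definitions

`Ω` is an algebraic closure of `ℚ`, `Γ` the absolute Galois group of a number field contained in
`Ω`. `IsCont`, `IsPolar`, `IsSemisimple` (for representations of `Γ` over `ℚ_p`) and `IsFrobAt` are
those of `GSD/Defs` and `GSem/Defs`.
-/

namespace Pool.Agent.Lib.H81D

open Polynomial Module Filter Topology Pool.Agent.GSem Pool.Agent.GSD

/-- All complex roots `z` of `P` satisfy `|z| ^ 2 = q ^ (-w)`. -/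
def IsPure (w : ℤ) (q : ℕ) (P : ℚ[X]) : Prop :=
  ∀ z : ℂ, aeval z P = 0 → ‖z‖ ^ 2 = (q : ℝ) ^ (-w)

section

variable {Ω : Type} [Field Ω] [CharZero Ω]

/-- `(q, P)` is a Frobenius polynomial of the system `ρ`: `q` is a prime, `P` is pure of weight `w`
and some Frobenius element at `q` in `Γ` has characteristic polynomial `P` in all `ρ p`,
`p ≠ q`. -/
def IsFrobPoly {Γ : Subgroup Gal(Ω/ℚ)} {n : ℕ}
    (ρ : ∀ (p : ℕ) [Fact p.Prime], Representation ℚ_[p] Γ (Fin n → ℚ_[p])) (w : ℤ)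
    (q : ℕ) (P : ℚ[X]) : Prop :=
  q.Prime ∧ IsPure w q P ∧ ∃ φ : Γ, IsFrobAt q (φ : Gal(Ω/ℚ)) ∧
    ∀ (p : ℕ) [Fact p.Prime], p ≠ q →
      LinearMap.charpoly (ρ p φ) = P.map (algebraMap ℚ ℚ_[p])

/-- The `ρ p` form a weakly compatible system, pure of weight `w`: for all primes `q` outside a
finite set and every Frobenius element `φ` at `q` in `Γ` there is a polynomial `P` over `ℚ`, pure of
weight `w`, which is the characteristic polynomial of `φ` in all `ρ p`, `p ≠ q`. -/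
def IsPureSys {Γ : Subgroup Gal(Ω/ℚ)} {n : ℕ}
    (ρ : ∀ (p : ℕ) [Fact p.Prime], Representation ℚ_[p] Γ (Fin n → ℚ_[p])) (w : ℤ) : Prop :=
  ∃ T : Finset ℕ, ∀ q : ℕ, q.Prime → q ∉ T → ∀ φ : Γ, IsFrobAt q (φ : Gal(Ω/ℚ)) →
    ∃ P : ℚ[X], IsPure w q P ∧ ∀ (p : ℕ) [Fact p.Prime], p ≠ q →
      LinearMap.charpoly (ρ p φ) = P.map (algebraMap ℚ ℚ_[p])

/-- `P` is neat: its roots are distinct and remain distinct when they are raised to the power
`k > 0`. -/
def IsNeat (Ω : Type) [Field Ω] [CharZero Ω] (P : ℚ[X]) : Prop :=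
  P.Separable ∧ ∀ z z' : Ω, aeval z P = 0 → aeval z' P = 0 → ∀ k : ℕ, 0 < k → z ^ k = z' ^ k → z = z'

/-- `τ` is odd for `(q, P)`: for every root `z` of `P` some power of `τ` takes `z` to
`q ^ (-w) / z` (for `P` pure this is the complex conjugate of `z`). -/
def IsOdd (w : ℤ) (q : ℕ) (P : ℚ[X]) (τ : Gal(Ω/ℚ)) : Prop :=
  ∀ z : Ω, aeval z P = 0 → ∃ k : ℕ, (τ ^ k) z * z = (q : Ω) ^ (-w)

/-- The elements which fix all roots of `P`. -/
def kerP (Ω : Type) [Field Ω] [CharZero Ω] (P : ℚ[X]) : Subgroup Gal(Ω/ℚ) where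
  carrier := {σ | ∀ z : Ω, aeval z P = 0 → σ z = z}
  mul_mem' := by
    intro a b ha hb z hz
    rw [AlgEquiv.mul_apply, hb z hz, ha z hz]
  one_mem' := fun z _ => rfl
  inv_mem' := by
    intro a ha z hz
    have h := congrArg (a⁻¹ : Gal(Ω/ℚ)) (ha z hz)
    have h1 : (a⁻¹ : Gal(Ω/ℚ)) (a z) = z := a.symm_apply_apply z
    rw [h1] at h
    exact h.symm

instance kerP_normal (P : ℚ[X]) : (kerP Ω P).Normal where
  conj_mem a ha g z hz := by
    have h1 : aeval ((g⁻¹ : Gal(Ω/ℚ)) z) P = 0 := by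
      have h := Polynomial.aeval_algHom_apply ((g⁻¹ : Gal(Ω/ℚ)) : Ω →ₐ[ℚ] Ω) z P
      rw [hz, map_zero] at h
      exact h
    show g (a ((g⁻¹ : Gal(Ω/ℚ)) z)) = z
    rw [ha _ h1]
    exact g.apply_symm_apply z

/-- The intersection of the splitting fields in `Ω` of the polynomials of the family `X`. -/
def commonField (Ω : Type) [Field Ω] [CharZero Ω] (X : Set (ℕ × ℚ[X])) : IntermediateField ℚ Ω :=
  ⨅ x ∈ X, IntermediateField.adjoin ℚ (x.2.rootSet Ω)

/-- The automorphisms of the common field which are restrictions of elements odd for a member of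
the family `X`. -/
def oddClasses (Ω : Type) [Field Ω] [CharZero Ω] (X : Set (ℕ × ℚ[X])) (w : ℤ) :
    Set (commonField Ω X ≃ₐ[ℚ] commonField Ω X) :=
  {σ | ∃ x ∈ X, ∃ τ : Gal(Ω/ℚ), IsOdd w x.1 x.2 τ ∧
    ∀ y : commonField Ω X, ((σ y : commonField Ω X) : Ω) = τ (y : Ω)}

end

/-- The set of the primes in `S` has lower natural density at least `δ` among the primes. -/
def HasNatLower (S : Set ℕ) (δ : ℝ) : Prop :=
  ∀ δ' < δ, ∀ᶠ x : ℕ in atTop,
    δ' * (Nat.primeCounting x : ℝ) ≤ ({p | p ≤ x ∧ p.Prime ∧ p ∈ S}.ncard : ℝ)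

end Pool.Agent.Lib.H81D
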