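import Mathlib
import Pool.Agent.Lib.H81D.Defs
import Pool.Agent.Lib.Helper4.GSD.Frob

/-!
# Density one semisimplicity: auxiliary definitions (complete)
-/

namespace Pool.Agent.Lib.H81D

open Polynomial Module Filter Topology Pool.Agent.GSem Pool.Agent.GSD

section datum

variable {Ω : Type} [Field Ω] [CharZero Ω]

/-- `(q, φ, P)` is a Frobenius datum of the system `ρ`. -/
structure IsDatum {Γ : Subgroup Gal(Ω/ℚ)} {n : ℕ}
    (ρ : ∀ (p : ℕ) [Fact p.Prime], Representation ℚ_[p] Γ (Fin n → ℚ_[p])) (w : ℤ)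
    (q : ℕ) (φ : Γ) (P : ℚ[X]) : Prop where
  prime : q.Prime
  pure : IsPure w q P
  frob : IsFrobAt q (φ : Gal(Ω/ℚ))
  char : ∀ (p : ℕ) [Fact p.Prime], p ≠ q →
      LinearMap.charpoly (ρ p φ) = P.map (algebraMap ℚ ℚ_[p])

theorem isFrobPoly_iff {Γ : Subgroup Gal(Ω/ℚ)} {n : ℕ}
    (ρ : ∀ (p : ℕ) [Fact p.Prime], Representation ℚ_[p] Γ (Fin n → ℚ_[p])) (w : ℤ)
    (q : ℕ) (P : ℚ[X]) : IsFrobPoly ρ w q P ↔ ∃ φ : Γ, IsDatum ρ w q φ P := by
  constructor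
  · rintro ⟨h1, h2, φ, h3, h4⟩
    exact ⟨φ, h1, h2, h3, h4⟩
  · rintro ⟨φ, h⟩
    exact ⟨h.prime, h.pure, φ, h.frob, h.char⟩

/-- The block matrix of `r g` and of the cyclotomic character. -/
noncomputable def kap {l : ℕ} [Fact l.Prime] {Γ : Subgroup Gal(Ω/ℚ)} {n : ℕ}
    (r : Representation ℚ_[l] Γ (Fin n → ℚ_[l])) :
    Γ →* Matrix (Fin n ⊕ Unit) (Fin n ⊕ Unit) ℚ_[l] where
  toFun g := Matrix.fromBlocks (mat r g) 0 0 (Matrix.of fun _ _ => toQ (cyc l Ω (g : Gal(Ω/ℚ))))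
  map_one' := by
    rw [mat_one]
    have h : (Matrix.of fun _ _ => toQ (cyc l Ω ((1 : Γ) : Gal(Ω/ℚ))) : Matrix Unit Unit ℚ_[l]) = 1 := by
      ext i j
      simp
    rw [h, Matrix.fromBlocks_one]
  map_mul' x y := by
    rw [Matrix.fromBlocks_multiply, mat_mul]
    congr 1
    · simp
    · simp
    · simp
    · ext i j
      simp [Matrix.mul_apply]

end datum

/-- All entries of `A - A'` have norm at most `l ^ (-N)`. -/
def Cg {l : ℕ} [Fact l.Prime] {m : Type} (N : ℕ) (A A' : Matrix m m ℚ_[l]) : Prop :=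
  ∀ i j, ‖A i j - A' i j‖ ≤ ((l : ℝ) ^ N)⁻¹

/-- `β` is a Galois equivariant map from the roots of `P0` onto the roots of `P'` which takes
`Q0 / z` to `Q' / β z`. -/
structure Trans {l : ℕ} [Fact l.Prime] (P0 : ℚ_[l][X]) (Q0 : ℚ_[l]) (P' : ℚ_[l][X]) (Q' : ℚ_[l])
    (β : PadicAlgCl l → PadicAlgCl l) : Prop where
  root : ∀ z, aeval z P0 = 0 → aeval (β z) P' = 0
  surj : ∀ y, aeval y P' = 0 → ∃ z, aeval z P0 = 0 ∧ β z = y
  equi : ∀ (σ : Gal(PadicAlgCl l/ℚ_[l])) (z), aeval z P0 = 0 → σ (β z) = β (σ z)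
  star : ∀ z, aeval z P0 = 0 →
    β (algebraMap ℚ_[l] (PadicAlgCl l) Q0 / z) = algebraMap ℚ_[l] (PadicAlgCl l) Q' / β z

/-- The roots of `P` are nonzero and stable under `z ↦ Q / z`. -/
def Star {l : ℕ} [Fact l.Prime] (P : ℚ_[l][X]) (Q : ℚ_[l]) : Prop :=
  ∀ z : PadicAlgCl l, aeval z P = 0 → z ≠ 0 ∧ aeval (algebraMap ℚ_[l] (PadicAlgCl l) Q / z) P = 0

/-- The proportion of the cosets of `N` which meet `A`. -/
noncomputable def frac {G : Type} [Group G] (N : Subgroup G) (A : Set G) : ℝ :=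
  (Nat.card ((fun g : G => (g : G ⧸ N)) '' A) : ℝ) / (Nat.card (G ⧸ N) : ℝ)

/-- `A` is a union of cosets of `N`. -/
def IsUn {G : Type} [Group G] (N : Subgroup G) (A : Set G) : Prop :=
  ∀ a ∈ A, ∀ m ∈ N, a * m ∈ A

end Pool.Agent.Lib.H81D
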