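import Mathlib
import Pool.Agent.Lib.H81D.Bas
import Pool.Agent.Lib.Helper4.GSD.Main

/-!
# Chunk A1 (S/M): first facts about Frobenius data

`conj_root` and `exists_conj` of `GSD/Main` are the tools for the roots.
-/

namespace Pool.Agent.Lib.H81D

open Polynomial Module Filter Topology Pool.Agent.GSem Pool.Agent.GSD Pool.Agent.Ord

variable {Ω : Type} [Field Ω] [CharZero Ω] {Γ : Subgroup Gal(Ω/ℚ)} {n : ℕ}
  {ρ : ∀ (p : ℕ) [Fact p.Prime], Representation ℚ_[p] Γ (Fin n → ℚ_[p])} {w : ℤ}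

theorem a1_prime (q : ℕ) : ∃ p : ℕ, p.Prime ∧ p ≠ q := by
  by_cases h : q = 2
  · exact ⟨3, Nat.prime_three, by rw [h]; norm_num⟩
  · exact ⟨2, Nat.prime_two, fun h' => h h'.symm⟩

theorem a1_root_map {P : ℚ[X]} (σ : Gal(Ω/ℚ)) {z : Ω} (hz : aeval z P = 0) : aeval (σ z) P = 0 := by
  have h := Polynomial.aeval_algHom_apply (σ : Ω →ₐ[ℚ] Ω) z P
  rw [hz, map_zero] at h
  exact h

/-- Take a prime `p ≠ q` (2 or 3): `LinearMap.charpoly_monic` and `Polynomial.map` injective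
(`Polynomial.monic_map_iff` or `Polynomial.leadingCoeff_map`). -/
theorem IsDatum.monic {q : ℕ} {φ : Γ} {P : ℚ[X]} (h : IsDatum ρ w q φ P) : P.Monic := by
  obtain ⟨p, hp, hne⟩ := a1_prime q
  have : Fact p.Prime := ⟨hp⟩
  have h1 := h.char p hne
  have h2 : (P.map (algebraMap ℚ ℚ_[p])).Monic := by
    rw [← h1]
    exact LinearMap.charpoly_monic _
  exact Polynomial.monic_of_injective (algebraMap ℚ ℚ_[p]).injective h2

/-- `LinearMap.charpoly_natDegree`, `Module.finrank_fin_fun`, `natDegree_map`. -/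
theorem IsDatum.natDegree {q : ℕ} {φ : Γ} {P : ℚ[X]} (h : IsDatum ρ w q φ P) :
    P.natDegree = n := by
  obtain ⟨p, hp, hne⟩ := a1_prime q
  have : Fact p.Prime := ⟨hp⟩
  have h1 := congrArg Polynomial.natDegree (h.char p hne)
  rw [LinearMap.charpoly_natDegree, Polynomial.natDegree_map, Module.finrank_fin_fun] at h1
  exact h1.symm

variable [IsAlgClosure ℚ Ω]

theorem a1_conj (Ω : Type) [Field Ω] [CharZero Ω] [IsAlgClosure ℚ Ω] (w : ℤ) :
    ∃ c : Gal(Ω/ℚ), ∀ (q : ℕ) (P : ℚ[X]), 0 < q → IsPure w q P → ∀ z : Ω, aeval z P = 0 →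
      z ≠ 0 ∧ c z = (q : Ω) ^ (-w) / z := by
  obtain ⟨j, c, -, hc⟩ := exists_conj Ω
  refine ⟨c, fun q P hq hP z hz => ?_⟩
  have h1 : aeval (j z) P = 0 := by
    have h := Polynomial.aeval_algHom_apply j.toRatAlgHom z P
    rw [hz, map_zero] at h
    exact h
  have h2 := hP _ h1
  have hq' : (0 : ℝ) < (q : ℝ) ^ (-w) := zpow_pos (by exact_mod_cast hq) _
  have hQ : (0 : ℚ) < (q : ℚ) ^ (-w) := zpow_pos (by exact_mod_cast hq) _
  have h3 : ‖j z‖ ^ 2 = (((q : ℚ) ^ (-w) : ℚ) : ℝ) := by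
    rw [h2]
    push_cast
    rfl
  have h4 := conj_root hc hQ h3
  refine ⟨?_, ?_⟩
  · intro h0
    rw [h0, map_zero, norm_zero] at h2
    have h5 : (0 : ℝ) ^ 2 = 0 := by norm_num
    rw [h5] at h2
    linarith
  · rw [h4]
    push_cast
    rfl

/-- The roots in `Ω` of a pure polynomial are nonzero and stable under `z ↦ q ^ (-w) / z`:
`exists_conj` gives `j : Ω →+* ℂ` and `c`; `aeval (j z) P = 0`, so `‖j z‖ ^ 2 = q ^ (-w) > 0`, whence
`z ≠ 0`, and `conj_root` (with `Q = (q : ℚ) ^ (-w)`) gives `c z = q ^ (-w) / z`; `c z` is a root of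
`P` (`aeval_algHom_apply`). -/
theorem star_root {q : ℕ} (hq : 0 < q) {P : ℚ[X]} (hP : IsPure w q P) {z : Ω}
    (hz : aeval z P = 0) : z ≠ 0 ∧ aeval ((q : Ω) ^ (-w) / z) P = 0 := by
  obtain ⟨c, hc⟩ := a1_conj Ω w
  obtain ⟨h1, h2⟩ := hc q P hq hP z hz
  refine ⟨h1, ?_⟩
  rw [← h2]
  exact a1_root_map c hz

/-- Complex conjugation is odd for all pure polynomials. (Take `c` of `exists_conj`, `k = 1`.) -/
theorem exists_odd (Ω : Type) [Field Ω] [CharZero Ω] [IsAlgClosure ℚ Ω] (w : ℤ) :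
    ∃ c : Gal(Ω/ℚ), ∀ (q : ℕ) (P : ℚ[X]), 0 < q → IsPure w q P → IsOdd w q P c := by
  obtain ⟨c, hc⟩ := a1_conj Ω w
  refine ⟨c, fun q P hq hP z hz => ⟨1, ?_⟩⟩
  obtain ⟨h1, h2⟩ := hc q P hq hP z hz
  rw [pow_one, h2, div_mul_cancel₀ _ h1]

theorem a1_ker {P : ℚ[X]} (hP : P ≠ 0) :
    ∃ (R : Finset Ω) (hR : ∀ (σ : Gal(Ω/ℚ)) (γ : Ω), γ ∈ (R : Set Ω) → σ γ ∈ (R : Set Ω)),
      kerP Ω P = (setPerm (R : Set Ω) hR).ker ∧ R.card ≤ P.natDegree := by
  classical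
  have hmem : ∀ z : Ω, z ∈ (((P.aroots Ω).toFinset : Finset Ω) : Set Ω) ↔ aeval z P = 0 := by
    intro z
    rw [Finset.mem_coe, Multiset.mem_toFinset, Polynomial.mem_aroots]
    exact ⟨fun h => h.2, fun h => ⟨hP, h⟩⟩
  have hR : ∀ (σ : Gal(Ω/ℚ)) (γ : Ω), γ ∈ (((P.aroots Ω).toFinset : Finset Ω) : Set Ω) →
      σ γ ∈ (((P.aroots Ω).toFinset : Finset Ω) : Set Ω) := by
    intro σ γ h
    rw [hmem] at h ⊢
    exact a1_root_map σ h
  refine ⟨(P.aroots Ω).toFinset, hR, ?_, ?_⟩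
  · ext σ
    rw [mem_ker_iff]
    constructor
    · intro h γ hγ
      exact h γ ((hmem γ).1 hγ)
    · intro h z hz
      exact h z ((hmem z).2 hz)
  · refine (Multiset.toFinset_card_le _).trans ?_
    refine (Polynomial.card_roots' _).trans ?_
    exact Polynomial.natDegree_map_le

/-- The kernel of the action on the roots is open (`isOpen_ker` with `mem_ker_iff` of `GSD/Main` and
`R = (P.map (algebraMap ℚ Ω)).roots.toFinset`). -/
theorem isOpen_kerP {P : ℚ[X]} (hP : P ≠ 0) : IsOpen (kerP Ω P : Set Gal(Ω/ℚ)) := by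
  obtain ⟨R, hR, h1, -⟩ := a1_ker (Ω := Ω) hP
  rw [h1]
  exact isOpen_ker hR

/-- `card_quot_le` of `GSD/Main` and `Polynomial.card_roots'`. -/
theorem card_quot_kerP {P : ℚ[X]} (hP : P ≠ 0) :
    Nat.card (Gal(Ω/ℚ) ⧸ kerP Ω P) ≤ P.natDegree.factorial := by
  obtain ⟨R, hR, h1, h2⟩ := a1_ker (Ω := Ω) hP
  rw [h1]
  exact (card_quot_le hR).trans (Nat.factorial_le h2)

/-- Oddness depends only on the action on the roots: if `u` fixes the roots of `P` and `τ` is odd,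
so is `τ * u` (induction: `((τ * u) ^ k) z = (τ ^ k) z` for all roots `z`; the roots are stable
under `τ`). -/
theorem IsOdd.mul_ker {q : ℕ} {P : ℚ[X]} {τ u : Gal(Ω/ℚ)} (h : IsOdd w q P τ)
    (hu : u ∈ kerP Ω P) : IsOdd w q P (τ * u) := by
  have key : ∀ k : ℕ, ∀ z : Ω, aeval z P = 0 → ((τ * u) ^ k) z = (τ ^ k) z := by
    intro k
    induction k with
    | zero =>
      intro z _
      rw [pow_zero, pow_zero]
    | succ k ih =>
      intro z hz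
      rw [pow_succ, pow_succ, AlgEquiv.mul_apply, AlgEquiv.mul_apply, AlgEquiv.mul_apply, hu z hz]
      exact ih _ (a1_root_map τ hz)
  intro z hz
  obtain ⟨k, hk⟩ := h z hz
  exact ⟨k, by rw [key k z hz, hk]⟩

/-- Oddness is stable under conjugation: `((g * τ * g⁻¹) ^ k) z = g ((τ ^ k) (g⁻¹ z))`. -/
theorem IsOdd.conj {q : ℕ} {P : ℚ[X]} {τ : Gal(Ω/ℚ)} (h : IsOdd w q P τ) (g : Gal(Ω/ℚ)) :
    IsOdd w q P (g * τ * g⁻¹) := by
  intro z hz
  have h1 : aeval ((g⁻¹ : Gal(Ω/ℚ)) z) P = 0 := a1_root_map g⁻¹ hz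
  obtain ⟨k, hk⟩ := h _ h1
  refine ⟨k, ?_⟩
  have h2 : g ((g⁻¹ : Gal(Ω/ℚ)) z) = z := g.apply_symm_apply z
  rw [conj_pow, AlgEquiv.mul_apply, AlgEquiv.mul_apply]
  have h3 := congrArg g hk
  rw [map_mul, h2, map_zpow₀, map_natCast] at h3
  exact h3

end Pool.Agent.Lib.H81D
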