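import Mathlib
import Pool.Agent.Lib.H81D.A1

/-!
# Chunk A2 (M): semisimplicity at a prime with an odd Frobenius element
-/

namespace Pool.Agent.Lib.H81D

open Polynomial Module Filter Topology Pool.Agent.GSem Pool.Agent.GSD Pool.Agent.Ord

variable {Ω : Type} [Field Ω] [CharZero Ω] [IsAlgClosure ℚ Ω] {Γ : Subgroup Gal(Ω/ℚ)} {n : ℕ}
  {ρ : ∀ (p : ℕ) [Fact p.Prime], Representation ℚ_[p] Γ (Fin n → ℚ_[p])} {w : ℤ}

/-- Proof: the last part of the proof of `semisimple_density` in `GSD/Main.lean` is the model.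
`R` = finite set of the roots of `P` in `Ω`, `b` = maximum of `q` and of the bound of
`exists_bound_finset R`. Let `p > b`, `φ'` a Frobenius element at `p`, odd. `exists_isFrobFor` gives
`ι` with `IsFrobFor p ι φ'`. By `semisimple_of_isotropic` it is enough that a stable isotropic
subspace `U` is `⊥`; this is `isotropic_eq_bot` for `T = ρ p φ`, `lam = (q : ℚ_[p]) ^ (-w)`
(`cyc_frob` gives `hBT`). Its hypothesis `hself`: a root `a` of the characteristic polynomial is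
`ι z` for a root `z ∈ R` of `P` (`exists_root_eq`). Let `(φ' ^ k) z * z = q ^ (-w)`. By induction on `i`,
`aeval (ι ((φ' ^ i) z)) f = 0` whenever `aeval (ι z) f = 0` (all `(φ' ^ i) z` are in `R`,
`pow_succ'`, and `exists_bound_finset` for `γ = (φ' ^ i) z`). For `i = k`: `(φ' ^ k) z = q ^ (-w) / z`. -/
theorem semisimple_of_odd (hpol : ∀ (p : ℕ) [Fact p.Prime], ∃ B, IsPolar (ρ p) w B)
    {q : ℕ} {φ : Γ} {P : ℚ[X]} (h : IsDatum ρ w q φ P) (hs : P.Separable) :
    ∃ b : ℕ, ∀ (p : ℕ) [Fact p.Prime], b < p → ∀ φ' : Gal(Ω/ℚ), IsFrobAt p φ' →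
      IsOdd w q P φ' → IsSemisimple (ρ p) := by
  classical
  have hP0 : P ≠ 0 := hs.ne_zero
  have hmem : ∀ z : Ω, z ∈ (P.aroots Ω).toFinset ↔ aeval z P = 0 := by
    intro z
    rw [Multiset.mem_toFinset, Polynomial.mem_aroots]
    exact ⟨fun h => h.2, fun h => ⟨hP0, h⟩⟩
  have hcl : IsAlgClosed Ω := IsAlgClosure.isAlgClosed ℚ
  obtain ⟨b, hb⟩ := exists_bound_finset (P.aroots Ω).toFinset
  refine ⟨max b q, ?_⟩
  intro p hfp hbp φ' hφ' hodd
  have hbp' : b < p := lt_of_le_of_lt (le_max_left _ _) hbp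
  have hqp : p ≠ q := (lt_of_le_of_lt (le_max_right _ _) hbp).ne'
  obtain ⟨ι, hι⟩ := exists_isFrobFor hφ'
  have hbR := hb p hbp' ι φ' hι
  obtain ⟨B, hB⟩ := hpol p
  apply semisimple_of_isotropic (ρ p) w B hB
  intro U hU hiso
  have hchar := h.char p hqp
  have hcyc : (toQ (cyc p Ω (φ : Gal(Ω/ℚ))) : ℚ_[p]) = (q : ℚ_[p]) := by
    have h3 := cyc_frob (p := p) h.prime (Ne.symm hqp) h.frob
    have h4 : (toQ (cyc p Ω (φ : Gal(Ω/ℚ))) : ℚ_[p]) =
      (((cyc p Ω (φ : Gal(Ω/ℚ)) : ℤ_[p]ˣ) : ℤ_[p]) : ℚ_[p]) := rfl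
    rw [h4, h3]
    simp
  have hq0 : (q : ℚ_[p]) ≠ 0 := by exact_mod_cast h.prime.ne_zero
  refine isotropic_eq_bot (p := p) (ρ p φ) ((q : ℚ_[p]) ^ (-w)) ?_ B hB.1 ?_ ?_ ?_ U
    (fun x hx => hU φ x hx) hiso
  · exact zpow_ne_zero _ hq0
  · intro x y
    rw [← hcyc]
    exact hB.2 φ x y
  · rw [hchar]
    exact hs.map
  · intro a ha f hf
    rw [hchar, aeval_map_algebraMap] at ha
    obtain ⟨z, hz, rfl⟩ := exists_root_eq ι P hP0 a ha
    obtain ⟨k, hk⟩ := hodd z hz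
    have hroot : ∀ i : ℕ, aeval ((φ' ^ i) z) P = 0 := fun i => a1_root_map (φ' ^ i) hz
    have key : ∀ i : ℕ, aeval (ι ((φ' ^ i) z)) f = 0 := by
      intro i
      induction i with
      | zero =>
        rw [pow_zero]
        exact hf
      | succ i ih =>
        rw [pow_succ', AlgEquiv.mul_apply]
        exact (hbR _ ((hmem _).2 (hroot i))).1 f ih
    have hq1 : (q : Ω) ≠ 0 := by exact_mod_cast h.prime.ne_zero
    have hz0 : z ≠ 0 := by
      intro h0
      rw [h0, mul_zero] at hk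
      exact zpow_ne_zero _ hq1 hk.symm
    have h5 : (φ' ^ k) z = (q : Ω) ^ (-w) / z := by
      rw [← hk, mul_div_cancel_right₀ _ hz0]
    have h6 := key k
    rw [h5, map_div₀, map_zpow₀, map_natCast] at h6
    rw [map_zpow₀, map_natCast]
    exact h6

end Pool.Agent.Lib.H81D
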