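import Mathlib
import Pool.Agent.Lib.H81D.Bas

/-!
# Chunk B1 (S/M): congruences of `l`-adic matrices
-/

namespace Pool.Agent.Lib.H81D

variable {l : ℕ} [hl : Fact l.Prime] {m : Type}

theorem b1_pos (N : ℕ) : 0 < ((l : ℝ) ^ N)⁻¹ := by
  have : 0 < (l : ℝ) := by exact_mod_cast hl.out.pos
  positivity

theorem b1_le_one (N : ℕ) : ((l : ℝ) ^ N)⁻¹ ≤ 1 := by
  have : 1 ≤ (l : ℝ) := by exact_mod_cast hl.out.one_lt.le
  exact inv_le_one_of_one_le₀ (one_le_pow₀ this)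

theorem Cg.refl (N : ℕ) (A : Matrix m m ℚ_[l]) : Cg N A A := by
  intro i j
  rw [sub_self, norm_zero]
  exact (b1_pos N).le

theorem Cg.symm {N : ℕ} {A A' : Matrix m m ℚ_[l]} (h : Cg N A A') : Cg N A' A := by
  intro i j
  rw [norm_sub_rev]
  exact h i j

/-- Ultrametric inequality (`padicNormE.nonarchimedean`). -/
theorem Cg.trans {N : ℕ} {A A' A'' : Matrix m m ℚ_[l]} (h : Cg N A A') (h' : Cg N A' A'') :
    Cg N A A'' := by
  intro i j
  have e : A i j - A'' i j = (A i j - A' i j) + (A' i j - A'' i j) := by ring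
  rw [e]
  exact (Padic.nonarchimedean _ _).trans (max_le (h i j) (h' i j))

theorem Cg.mono {N N' : ℕ} (hN : N ≤ N') {A A' : Matrix m m ℚ_[l]} (h : Cg N' A A') :
    Cg N A A' := by
  intro i j
  refine (h i j).trans ?_
  have h0 : 0 < (l : ℝ) := by exact_mod_cast hl.out.pos
  have h1 : 1 ≤ (l : ℝ) := by exact_mod_cast hl.out.one_lt.le
  exact inv_anti₀ (by positivity) (pow_le_pow_right₀ h1 hN)

variable [Fintype m] [DecidableEq m]

/-- Products of congruent matrices with entries in `ℤ_[l]` are congruent: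
`A B - A' B' = (A - A') B + A' (B - B')`, ultrametric inequality for sums
(`IsUltrametricDist.norm_sum_le_of_forall_le_of_nonneg` or similar). -/
theorem Cg.mul {N : ℕ} {A A' B B' : Matrix m m ℚ_[l]} (hA' : ∀ i j, ‖A' i j‖ ≤ 1)
    (hB : ∀ i j, ‖B i j‖ ≤ 1) (h : Cg N A A') (h' : Cg N B B') : Cg N (A * B) (A' * B') := by
  intro i j
  rw [Matrix.mul_apply, Matrix.mul_apply, ← Finset.sum_sub_distrib]
  refine IsUltrametricDist.norm_sum_le_of_forall_le_of_nonneg (b1_pos N).le fun k _ => ?_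
  have e : A i k * B k j - A' i k * B' k j = (A i k - A' i k) * B k j + A' i k * (B k j - B' k j) := by ring
  rw [e]
  refine (Padic.nonarchimedean _ _).trans (max_le ?_ ?_)
  · rw [norm_mul]
    calc ‖A i k - A' i k‖ * ‖B k j‖ ≤ ((l : ℝ) ^ N)⁻¹ * 1 :=
          mul_le_mul (h i k) (hB k j) (norm_nonneg _) (b1_pos N).le
      _ = ((l : ℝ) ^ N)⁻¹ := mul_one _
  · rw [norm_mul]
    calc ‖A' i k‖ * ‖B k j - B' k j‖ ≤ 1 * ((l : ℝ) ^ N)⁻¹ :=
          mul_le_mul (hA' i k) (h' k j) (norm_nonneg _) zero_le_one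
      _ = ((l : ℝ) ^ N)⁻¹ := one_mul _

theorem b1_one (i j : m) : ‖(1 : Matrix m m ℚ_[l]) i j‖ ≤ 1 := by
  rw [Matrix.one_apply]
  split_ifs
  · rw [norm_one]
  · rw [norm_zero]
    exact zero_le_one

/-- A matrix congruent to 1 (modulo `l ^ N`) has entries in `ℤ_[l]`. -/
theorem Cg.int {N : ℕ} {A : Matrix m m ℚ_[l]} (h : Cg N A 1) : ∀ i j, ‖A i j‖ ≤ 1 := by
  intro i j
  have e : A i j = (A i j - (1 : Matrix m m ℚ_[l]) i j) + (1 : Matrix m m ℚ_[l]) i j := by ring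
  rw [e]
  exact (Padic.nonarchimedean _ _).trans (max_le ((h i j).trans (b1_le_one N)) (b1_one i j))

/-- The matrices congruent to 1 are closed under powers. -/
theorem Cg.pow {N : ℕ} {A : Matrix m m ℚ_[l]} (h : Cg N A 1) (k : ℕ) : Cg N (A ^ k) 1 := by
  induction k with
  | zero =>
    rw [pow_zero]
    exact Cg.refl N 1
  | succ k ih =>
    have h1 := Cg.mul (fun i j => b1_one i j) h.int ih h
    rw [one_mul] at h1
    rw [pow_succ]
    exact h1

theorem b1_pow_norm {c : ℝ} (hc0 : 0 ≤ c) {Y : Matrix m m ℚ_[l]} (h : ∀ i j, ‖Y i j‖ ≤ c) (k : ℕ) :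
    ∀ i j, ‖(Y ^ (k + 1)) i j‖ ≤ c ^ (k + 1) := by
  induction k with
  | zero =>
    intro i j
    rw [zero_add, pow_one, pow_one]
    exact h i j
  | succ k ih =>
    intro i j
    rw [pow_succ Y, Matrix.mul_apply]
    refine IsUltrametricDist.norm_sum_le_of_forall_le_of_nonneg (by positivity) fun a _ => ?_
    rw [norm_mul, pow_succ c]
    exact mul_le_mul (ih i a) (h a j) (norm_nonneg _) (by positivity)

/-- If `A` is congruent to 1 modulo `l ^ N`, `N ≥ 1`, then `A ^ l` is congruent to 1 modulo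
`l ^ (N + 1)`: `(1 + Y) ^ l - 1 = ∑_{i = 1}^{l} (l choose i) Y ^ i` (`Commute.add_pow` with
`one_pow`); for `1 ≤ i < l` the coefficient has norm at most `l⁻¹` and `Y ^ i` has entries of norm
at most `l ^ (-N)`, and for `i = l ≥ 2` the entries of `Y ^ l` have norm at most
`l ^ (-2 N) ≤ l ^ (-(N + 1))`. -/
theorem Cg.pow_prime {N : ℕ} (hN : 0 < N) {A : Matrix m m ℚ_[l]} (h : Cg N A 1) :
    Cg (N + 1) (A ^ l) 1 := by
  obtain ⟨Y, hY⟩ : ∃ Y : Matrix m m ℚ_[l], Y = A - 1 := ⟨_, rfl⟩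
  have hA : A = Y + 1 := by rw [hY]; abel
  have hYn : ∀ i j, ‖Y i j‖ ≤ ((l : ℝ) ^ N)⁻¹ := by
    intro i j
    rw [hY, Matrix.sub_apply]
    exact h i j
  have h0 : 0 < (l : ℝ) := by exact_mod_cast hl.out.pos
  have h1 : 1 ≤ (l : ℝ) := by exact_mod_cast hl.out.one_lt.le
  have hexp : A ^ l = (∑ k ∈ Finset.range l, (l.choose (k + 1)) • Y ^ (k + 1)) + 1 := by
    rw [hA, (Commute.one_right Y).add_pow, Finset.sum_range_succ']
    congr 1
    · refine Finset.sum_congr rfl fun k _ => ?_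
      rw [one_pow, mul_one, nsmul_eq_mul']
    · simp
  intro i j
  rw [hexp, Matrix.add_apply, add_sub_cancel_right, Matrix.sum_apply]
  refine IsUltrametricDist.norm_sum_le_of_forall_le_of_nonneg (b1_pos _).le fun k hk => ?_
  rw [Finset.mem_range] at hk
  rw [Matrix.smul_apply, nsmul_eq_mul, norm_mul]
  have hpn := b1_pow_norm (b1_pos N).le hYn k i j
  by_cases hkl : k + 1 = l
  · have hc : ‖((l.choose (k + 1) : ℕ) : ℚ_[l])‖ ≤ 1 := by
      have := Padic.norm_int_le_one (p := l) ((l.choose (k + 1) : ℕ) : ℤ)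
      rwa [Int.cast_natCast] at this
    have hk1 : 1 ≤ k := by
      have := hl.out.two_le
      omega
    have h2 : (((l : ℝ) ^ N)⁻¹) ^ (k + 1) ≤ ((l : ℝ) ^ (N + 1))⁻¹ := by
      rw [← inv_pow, ← inv_pow, ← pow_mul]
      refine pow_le_pow_of_le_one (by positivity) (inv_le_one_of_one_le₀ h1) ?_
      nlinarith
    calc ‖((l.choose (k + 1) : ℕ) : ℚ_[l])‖ * ‖(Y ^ (k + 1)) i j‖ ≤ 1 * ((((l : ℝ) ^ N)⁻¹) ^ (k + 1)) :=
          mul_le_mul hc hpn (norm_nonneg _) zero_le_one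
      _ ≤ ((l : ℝ) ^ (N + 1))⁻¹ := by rw [one_mul]; exact h2
  · have hdvd : l ∣ l.choose (k + 1) := hl.out.dvd_choose_self (by omega) (by omega)
    obtain ⟨d, hd⟩ := hdvd
    have hc : ‖((l.choose (k + 1) : ℕ) : ℚ_[l])‖ ≤ (l : ℝ)⁻¹ := by
      rw [hd, Nat.cast_mul, norm_mul, Padic.norm_p]
      have := Padic.norm_int_le_one (p := l) ((d : ℕ) : ℤ)
      rw [Int.cast_natCast] at this
      calc (l : ℝ)⁻¹ * ‖(d : ℚ_[l])‖ ≤ (l : ℝ)⁻¹ * 1 := mul_le_mul_of_nonneg_left this (by positivity)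
        _ = (l : ℝ)⁻¹ := mul_one _
    have h2 : (((l : ℝ) ^ N)⁻¹) ^ (k + 1) ≤ ((l : ℝ) ^ N)⁻¹ := by
      have := pow_le_pow_of_le_one (b1_pos (l := l) N).le (b1_le_one N) (show 1 ≤ k + 1 by omega)
      rwa [pow_one] at this
    calc ‖((l.choose (k + 1) : ℕ) : ℚ_[l])‖ * ‖(Y ^ (k + 1)) i j‖ ≤ (l : ℝ)⁻¹ * ((l : ℝ) ^ N)⁻¹ :=
          mul_le_mul hc (hpn.trans h2) (norm_nonneg _) (by positivity)
      _ = ((l : ℝ) ^ (N + 1))⁻¹ := by rw [← mul_inv, pow_succ, mul_comm]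

/-- Induction on `s`. -/
theorem Cg.pow_prime_pow {A : Matrix m m ℚ_[l]} (h : Cg 1 A 1) (s : ℕ) :
    Cg (1 + s) (A ^ l ^ s) 1 := by
  induction s with
  | zero =>
    rw [pow_zero, pow_one]
    exact h
  | succ s ih =>
    have h1 := Cg.pow_prime (by omega) ih
    rw [← pow_mul, ← pow_succ] at h1
    exact h1

/-- From `pow_prime_pow` and `Cg.pow`, `pow_mul`. -/
theorem Cg.pow_of_dvd {A : Matrix m m ℚ_[l]} (h : Cg 1 A 1) {s t : ℕ} (ht : l ^ s ∣ t) :
    Cg s (A ^ t) 1 := by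
  obtain ⟨u, rfl⟩ := ht
  rw [pow_mul]
  exact ((h.pow_prime_pow s).pow u).mono (by omega)

end Pool.Agent.Lib.H81D
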