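import Mathlib
import Pool.Agent.Lib.H81D.B1

/-!
# Chunk B2 (S/M): a power of a compact group in the principal congruence subgroup
-/

namespace Pool.Agent.Lib.H81D

/-- Proof: `S = {h | Cg 1 (κ h) 1 ∧ Cg 1 (κ h⁻¹) 1}` is a subgroup (`Cg.mul`, `Cg.int`), open
(`{h | Cg 1 (κ h) 1}` is a finite intersection of preimages of open sets: in `ℚ_[l]` the ball
`{x | ‖x - a‖ ≤ r}`, `r > 0`, is open, `IsUltrametricDist.isOpen_closedBall`). So it has finite index
(`Subgroup.quotient_finite_of_isOpen`); its normal core has finite index `B > 0`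
(`Subgroup.finiteIndex_normalCore`) and `h ^ B` is in the normal core for all `h`
(`Subgroup.pow_index_mem`). -/
theorem exists_pow {G : Type} [Group G] [TopologicalSpace G] [IsTopologicalGroup G]
    [CompactSpace G] {m : Type} [Fintype m] [DecidableEq m] {l : ℕ} [Fact l.Prime]
    (κ : G →* Matrix m m ℚ_[l]) (hκ : Continuous κ) :
    ∃ B : ℕ, 0 < B ∧ ∀ h : G, Cg 1 (κ (h ^ B)) 1 := by
  have hmul : ∀ a b : G, Cg 1 (κ a) 1 → Cg 1 (κ b) 1 → Cg 1 (κ (a * b)) 1 := by
    intro a b ha hb
    have h1 := Cg.mul (fun i j => b1_one i j) hb.int ha hb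
    rw [one_mul, ← map_mul] at h1
    exact h1
  let S : Subgroup G :=
    { carrier := {h | Cg 1 (κ h) 1 ∧ Cg 1 (κ h⁻¹) 1}
      mul_mem' := by
        rintro a b ⟨ha, ha'⟩ ⟨hb, hb'⟩
        refine ⟨hmul a b ha hb, ?_⟩
        rw [mul_inv_rev]
        exact hmul _ _ hb' ha'
      one_mem' := by
        refine ⟨?_, ?_⟩
        · rw [map_one]
          exact Cg.refl 1 1
        · rw [inv_one, map_one]
          exact Cg.refl 1 1
      inv_mem' := by
        rintro a ⟨ha, ha'⟩
        refine ⟨ha', ?_⟩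
        rw [inv_inv]
        exact ha }
  have hopen : IsOpen {h : G | Cg 1 (κ h) 1} := by
    have h1 : {h : G | Cg 1 (κ h) 1} = ⋂ i : m, ⋂ j : m,
        (fun h : G => κ h i j) ⁻¹' Metric.closedBall ((1 : Matrix m m ℚ_[l]) i j) (((l : ℝ) ^ 1)⁻¹) := by
      ext h
      simp only [Set.mem_iInter, Set.mem_preimage, Metric.mem_closedBall, dist_eq_norm]
      exact Iff.rfl
    rw [h1]
    refine isOpen_iInter_of_finite fun i => isOpen_iInter_of_finite fun j => ?_
    exact (IsUltrametricDist.isOpen_closedBall _ (b1_pos 1).ne').preimage (hκ.matrix_elem i j)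
  have hSo : IsOpen (S : Set G) := hopen.inter (hopen.preimage continuous_inv)
  have hfin : Finite (G ⧸ S) := Subgroup.quotient_finite_of_isOpen S hSo
  have hfi : S.FiniteIndex := Subgroup.finiteIndex_of_finite_quotient
  have hcore : S.normalCore.FiniteIndex := Subgroup.finiteIndex_normalCore S
  refine ⟨S.normalCore.index, Nat.pos_of_ne_zero hcore.index_ne_zero, fun h => ?_⟩
  have h2 := S.normalCore_le (Subgroup.pow_index_mem S.normalCore h)
  exact h2.1

end Pool.Agent.Lib.H81D
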