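import Mathlib
import Pool.Agent.Lib.H81D.B2

/-!
# Chunk B3 (M): combination of finitely many elements at different primes
-/

namespace Pool.Agent.Lib.H81D

/-- Proof: `B` = product of the `B j` of `exists_pow (κ j)`; so `Cg 1 (κ j (h ^ B)) 1` for all `h`, `j`
(`Cg.pow`). Let `N` be given. By the Chinese remainder theorem there is for every `i` a natural
number `t i` with `t i ≡ 1` modulo `l i ^ N` and `t i ≡ 0` modulo `l j ^ N` for all `j ≠ i`: for
example `t i = (∏_{j ≠ i} l j ^ N) ^ (φ (l i ^ N))` (Euler, `Nat.ModEq.pow_totient`) for `N > 0`; one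
may increase `N` (`Cg.mono`), so `N > 0`. Choose an enumeration of `J` (`Finset.univ.toList`) and let
`g` be the product of the `f i ^ (B * t i)` in this order. `κ j (f i ^ (B * t i)) = (κ j (f i ^ B)) ^ t i` is
congruent to 1 modulo `l j ^ N` for `i ≠ j` (`Cg.pow_of_dvd`), and for `i = j`: `t j = 1 + l j ^ N * u`
(`t j ≥ 1`), so it is `κ j (f j ^ B) * (κ j (f j ^ B)) ^ (l j ^ N * u)`, congruent to `κ j (f j ^ B)`.
All matrices have entries in `ℤ_[l j]`; multiply (`Cg.mul`, induction on the list: the product over a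
list without duplicates which does not contain `j` is congruent to 1, the product over a list
without duplicates which contains `j` is congruent to `κ j (f j) ^ B`). -/
theorem exists_comb {G : Type} [Group G] [TopologicalSpace G] [IsTopologicalGroup G]
    [CompactSpace G] {J : Type} [Finite J] {m : Type} [Fintype m] [DecidableEq m]
    (l : J → ℕ) [∀ j, Fact (l j).Prime] (hl : Function.Injective l)
    (κ : ∀ j, G →* Matrix m m ℚ_[l j]) (hκ : ∀ j, Continuous (κ j)) (f : J → G) :
    ∃ B : ℕ, 0 < B ∧ ∀ N : ℕ, ∃ g : G, ∀ j, Cg N (κ j g) (κ j (f j) ^ B) := by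
  classical
  have hJ := Fintype.ofFinite J
  choose b hb0 hb using fun j => exists_pow (κ j) (hκ j)
  obtain ⟨B, hBdef⟩ : ∃ B, B = ∏ j, b j := ⟨_, rfl⟩
  have hB0 : 0 < B := by
    rw [hBdef]
    exact Finset.prod_pos fun j _ => hb0 j
  have hB : ∀ j (h : G), Cg 1 (κ j (h ^ B)) 1 := by
    intro j h
    obtain ⟨c, hc⟩ := Finset.dvd_prod_of_mem b (Finset.mem_univ j)
    have h1 : h ^ B = (h ^ b j) ^ c := by rw [← pow_mul, hBdef, hc]
    rw [h1, map_pow]
    exact (hb j h).pow c
  refine ⟨B, hB0, fun N0 => ?_⟩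
  obtain ⟨N, hN⟩ : ∃ N, N = N0 + 1 := ⟨_, rfl⟩
  have ht : ∀ i, ∃ t : ℕ, (∃ u, t = 1 + l i ^ N * u) ∧ ∀ j, i ≠ j → l j ^ N ∣ t := by
    intro i
    obtain ⟨Q, hQ⟩ : ∃ Q, Q = ∏ j ∈ Finset.univ.erase i, l j ^ N := ⟨_, rfl⟩
    have hQ0 : 0 < Q := by
      rw [hQ]
      exact Finset.prod_pos fun j _ => pow_pos (Fact.out : (l j).Prime).pos _
    have hcop : Nat.Coprime Q (l i ^ N) := by
      rw [hQ]
      refine Nat.Coprime.prod_left fun j hj => ?_
      refine Nat.Coprime.pow _ _ ?_
      refine (Nat.coprime_primes Fact.out Fact.out).2 fun h => ?_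
      exact (Finset.ne_of_mem_erase hj) (hl h)
    have hli : 0 < l i ^ N := pow_pos (Fact.out : (l i).Prime).pos _
    refine ⟨Q ^ Nat.totient (l i ^ N), ?_, ?_⟩
    · have h1 : Q ^ Nat.totient (l i ^ N) ≡ 1 [MOD l i ^ N] := Nat.ModEq.pow_totient hcop
      have h2 : 1 ≤ Q ^ Nat.totient (l i ^ N) := Nat.one_le_pow _ _ hQ0
      obtain ⟨u, hu⟩ := (Nat.modEq_iff_dvd' h2).1 h1.symm
      exact ⟨u, by omega⟩
    · intro j hj
      have h1 : l j ^ N ∣ Q := by
        rw [hQ]
        exact Finset.dvd_prod_of_mem (fun j => l j ^ N) (Finset.mem_erase.2 ⟨hj.symm, Finset.mem_univ j⟩)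
      exact dvd_pow h1 (Nat.totient_pos.2 hli).ne'
  choose t htu htd using ht
  have hone : ∀ {k : ℕ} [Fact k.Prime] (i j : m), ‖(1 : Matrix m m ℚ_[k]) i j‖ ≤ 1 := by
    intro k _ i j
    exact (Cg.refl 1 (1 : Matrix m m ℚ_[k])).int i j
  have hmulone : ∀ {k : ℕ} [Fact k.Prime] {A A' C : Matrix m m ℚ_[k]}, (∀ i j, ‖A' i j‖ ≤ 1) → Cg N A A' → Cg N C 1 →
      Cg N (A * C) A' := by
    intro k _ A A' C h1 h2 h3
    have h4 := Cg.mul h1 h3.int h2 h3
    rwa [mul_one] at h4
  have hne : ∀ i j, i ≠ j → Cg N (κ j (f i ^ (B * t i))) 1 := by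
    intro i j hij
    rw [pow_mul, map_pow]
    exact (hB j (f i)).pow_of_dvd (htd i j hij)
  have heq : ∀ j, Cg N (κ j (f j ^ (B * t j))) (κ j (f j ^ B)) := by
    intro j
    obtain ⟨u, hu⟩ := htu j
    rw [pow_mul, map_pow, hu, pow_add, pow_one]
    exact hmulone (hB j (f j)).int (Cg.refl _ _) ((hB j (f j)).pow_of_dvd (dvd_mul_right _ _))
  have hlist : ∀ (j : J) (L : List J), L.Nodup →
      (j ∉ L → Cg N (κ j (L.map fun i => f i ^ (B * t i)).prod) 1) ∧
      (j ∈ L → Cg N (κ j (L.map fun i => f i ^ (B * t i)).prod) (κ j (f j ^ B))) := by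
    intro j L
    induction L with
    | nil =>
      intro _
      refine ⟨fun _ => ?_, fun h => absurd h List.not_mem_nil⟩
      rw [List.map_nil, List.prod_nil, map_one]
      exact Cg.refl _ _
    | cons i L ih =>
      intro hnd
      rw [List.nodup_cons] at hnd
      obtain ⟨ih1, ih2⟩ := ih hnd.2
      rw [List.map_cons, List.prod_cons, map_mul]
      constructor
      · intro hj
        rw [List.mem_cons, not_or] at hj
        exact hmulone (hone) (hne i j (Ne.symm hj.1)) (ih1 hj.2)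
      · intro hj
        rcases List.mem_cons.1 hj with h | h
        · subst h
          exact hmulone (hB j (f j)).int (heq j) (ih1 hnd.1)
        · have hij : i ≠ j := fun h' => hnd.1 (h' ▸ h)
          have h0 : Cg 1 (κ j (L.map fun i => f i ^ (B * t i)).prod) 1 :=
            ((ih2 h).mono (by omega)).trans (hB j (f j))
          have h1 := Cg.mul (A' := 1) hone h0.int (hne i j hij) (ih2 h)
          rwa [one_mul] at h1
  refine ⟨(Finset.univ.toList.map fun i => f i ^ (B * t i)).prod, fun j => ?_⟩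
  have h1 := (hlist j Finset.univ.toList (Finset.nodup_toList _)).2 (Finset.mem_toList.2 (Finset.mem_univ j))
  rw [map_pow] at h1
  exact h1.mono (by omega)

end Pool.Agent.Lib.H81D
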