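import Mathlib
import Pool.Agent.Lib.H81D.Bas

/-!
# Chunk C1 (M): the roots of close polynomials
-/

namespace Pool.Agent.Lib.H81D

open Polynomial Pool.Agent.GSem

theorem c1_tri {l : ℕ} [Fact l.Prime] (x y z : PadicAlgCl l) : ‖x - z‖ ≤ max ‖x - y‖ ‖y - z‖ := by
  have h := IsUltrametricDist.norm_add_le_max (x - y) (y - z)
  rwa [sub_add_sub_cancel] at h

/-- A close polynomial has a root close to a given root. -/
theorem c1_close {l : ℕ} [Fact l.Prime] (P0 P' : ℚ_[l][X]) (hm : P'.Monic) (hd : P'.natDegree = P0.natDegree)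
    {ε M δ : ℝ} (hε : 0 < ε) (hM : 1 ≤ M) (hδ0 : 0 ≤ δ)
    (hδ : (P0.natDegree + 1) * (δ * M ^ P0.natDegree) < ε ^ P0.natDegree)
    (hc : ∀ i, ‖P'.coeff i - P0.coeff i‖ ≤ δ) (z : PadicAlgCl l) (hz : aeval z P0 = 0) (hzM : ‖z‖ ≤ M) :
    ∃ y : PadicAlgCl l, aeval y P' = 0 ∧ ‖y - z‖ < ε := by
  have hnorm : ‖aeval z P'‖ < ε ^ P0.natDegree := by
    have h1 : aeval z P' = ∑ i ∈ Finset.range (P0.natDegree + 1), (P'.coeff i - P0.coeff i) • z ^ i := by
      have h2 : aeval z P' = aeval z P' - aeval z P0 := by rw [hz, sub_zero]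
      rw [h2, aeval_eq_sum_range, aeval_eq_sum_range, hd, ← Finset.sum_sub_distrib]
      refine Finset.sum_congr rfl fun i _ => ?_
      rw [sub_smul]
    rw [h1]
    refine lt_of_le_of_lt (norm_sum_le _ _) (lt_of_le_of_lt ?_ hδ)
    have h3 : ∀ i ∈ Finset.range (P0.natDegree + 1), ‖(P'.coeff i - P0.coeff i) • z ^ i‖ ≤ δ * M ^ P0.natDegree := by
      intro i hi
      rw [norm_smul, norm_pow]
      have hi' : i ≤ P0.natDegree := Nat.lt_succ_iff.1 (Finset.mem_range.1 hi)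
      refine mul_le_mul (hc i) ?_ (by positivity) hδ0
      exact (pow_le_pow_left₀ (norm_nonneg z) hzM i).trans (pow_le_pow_right₀ hM hi')
    refine (Finset.sum_le_card_nsmul _ _ _ h3).trans (le_of_eq ?_)
    rw [Finset.card_range, nsmul_eq_mul]
    push_cast
    ring
  by_contra hcon
  push Not at hcon
  have hs : (P'.map (algebraMap ℚ_[l] (PadicAlgCl l))).Splits := IsAlgClosed.splits _
  have h4 := hs.aeval_eq_prod_aroots_of_monic hm z
  have hcard : Multiset.card (P'.aroots (PadicAlgCl l)) = P0.natDegree := by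
    rw [← hd, ← natDegree_map (algebraMap ℚ_[l] (PadicAlgCl l)) (p := P')]
    exact hs.natDegree_eq_card_roots.symm
  have h5 : ∀ s : Multiset (PadicAlgCl l), (∀ y ∈ s, ε ≤ ‖z - y‖) →
      ε ^ Multiset.card s ≤ ‖(s.map fun a => z - a).prod‖ := by
    intro s
    induction s using Multiset.induction with
    | empty => intro _; simp
    | cons a s ih =>
      intro h
      rw [Multiset.card_cons, pow_succ, Multiset.map_cons, Multiset.prod_cons, norm_mul, mul_comm]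
      exact mul_le_mul (h a (Multiset.mem_cons_self a s)) (ih fun y hy => h y (Multiset.mem_cons_of_mem hy))
        (by positivity) (norm_nonneg _)
  have h6 := h5 (P'.aroots (PadicAlgCl l)) (by
    intro y hy
    rw [norm_sub_rev]
    exact hcon y ((mem_aroots.1 hy).2))
  rw [hcard, ← h4] at h6
  exact absurd hnorm (not_lt.2 h6)

/-- Proof. Let `R` be the finite set of the roots of `P0` in `PadicAlgCl l`; `P0` has
`n = natDegree` different roots (`IsAlgClosed`, separable: `card_rootSet_eq_natDegree`). Shrink `ε` such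
that `ε ≤ ‖z - z'‖` for all `z ≠ z'` in `R` and put `M ≥ 1`, `M ≥ ‖z‖` for `z ∈ R`. Take
`δ` with `δ * M ^ n < ε ^ n`. For `z ∈ R`, `‖aeval z P'‖ = ‖aeval z P' - aeval z P0‖ ≤ δ M ^ n < ε ^ n`
(`aeval_eq_sum_range`, ultrametric, or `(n + 1)` times this with a smaller `δ`), and
`aeval z P' = ∏ (z - y)` over the `n` roots `y` of `P'` with multiplicity
(`IsAlgClosed.splits`, `Splits.eq_prod_roots_of_monic` ...), so some root `y =: β z` has `‖z - y‖ < ε`.
Injectivity: if `β z = β z'` then `‖z - z'‖ < ε` (ultrametric), so `z = z'`. So `P'` has `n` different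
roots, all of the form `β z`, and is separable. Equivariance: `σ` is an isometry (`norm_gal`),
`σ (β z)` is a root of `P'`, so `σ (β z) = β z'` for some `z'`, and
`‖z' - σ z‖ ≤ max ‖z' - β z'‖ ‖σ (β z) - σ z‖ < ε`, so `z' = σ z`. -/
theorem exists_rootMap {l : ℕ} [Fact l.Prime] (P0 : ℚ_[l][X]) (hm : P0.Monic) (hs : P0.Separable)
    (ε : ℝ) (hε : 0 < ε) :
    ∃ δ : ℝ, 0 < δ ∧ ∀ P' : ℚ_[l][X], P'.Monic → P'.natDegree = P0.natDegree →
      (∀ i, ‖P'.coeff i - P0.coeff i‖ ≤ δ) →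
      P'.Separable ∧ ∃ β : PadicAlgCl l → PadicAlgCl l,
        (∀ z, aeval z P0 = 0 → aeval (β z) P' = 0) ∧
        (∀ z, aeval z P0 = 0 → ‖β z - z‖ < ε) ∧
        (∀ y, aeval y P' = 0 → ∃ z, aeval z P0 = 0 ∧ β z = y) ∧
        (∀ (σ : Gal(PadicAlgCl l/ℚ_[l])) (z), aeval z P0 = 0 → σ (β z) = β (σ z)) := by
  classical
  have hP0 : P0 ≠ 0 := hm.ne_zero
  obtain ⟨R, hR⟩ : ∃ R, R = (P0.rootSet (PadicAlgCl l)).toFinite.toFinset := ⟨_, rfl⟩
  have hRmem : ∀ z : PadicAlgCl l, z ∈ R ↔ aeval z P0 = 0 := by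
    intro z
    rw [hR, Set.Finite.mem_toFinset, mem_rootSet]
    exact ⟨fun h => h.2, fun h => ⟨hP0, h⟩⟩
  -- the distance
  obtain ⟨e, he0, heε, heR⟩ : ∃ e : ℝ, 0 < e ∧ e ≤ ε ∧ ∀ z ∈ R, ∀ z' ∈ R, z ≠ z' → e ≤ ‖z - z'‖ := by
    have h1 : ∀ S : Finset (PadicAlgCl l × PadicAlgCl l), ∃ e : ℝ, 0 < e ∧ e ≤ ε ∧ ∀ x ∈ S, x.1 ≠ x.2 → e ≤ ‖x.1 - x.2‖ := by
      intro S
      induction S using Finset.induction with
      | empty => exact ⟨ε, hε, le_rfl, fun x hx => absurd hx (Finset.notMem_empty x)⟩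
      | insert a s _ ih =>
        obtain ⟨e, h1, h2, h3⟩ := ih
        by_cases ha : a.1 = a.2
        · refine ⟨e, h1, h2, fun x hx hne => ?_⟩
          rcases Finset.mem_insert.1 hx with h | h
          · exact absurd (h ▸ ha) hne
          · exact h3 x h hne
        · refine ⟨min e ‖a.1 - a.2‖, lt_min h1 (norm_pos_iff.2 (sub_ne_zero.2 ha)), (min_le_left _ _).trans h2,
            fun x hx hne => ?_⟩
          rcases Finset.mem_insert.1 hx with h | h
          · rw [h]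
            exact min_le_right _ _
          · exact (min_le_left _ _).trans (h3 x h hne)
    obtain ⟨e, h2, h3, h4⟩ := h1 (R ×ˢ R)
    exact ⟨e, h2, h3, fun z hz z' hz' hne => h4 (z, z') (Finset.mem_product.2 ⟨hz, hz'⟩) hne⟩
  obtain ⟨M, hM1, hM⟩ : ∃ M : ℝ, 1 ≤ M ∧ ∀ z ∈ R, ‖z‖ ≤ M := by
    obtain ⟨M, hM⟩ := (R.finite_toSet.image fun z => ‖z‖).bddAbove
    exact ⟨max 1 M, le_max_left _ _, fun z hz => (hM ⟨z, hz, rfl⟩).trans (le_max_right _ _)⟩
  have hnpos : (0 : ℝ) < 2 * (P0.natDegree + 1) * M ^ P0.natDegree := by positivity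
  have hepos : 0 < e ^ P0.natDegree := by positivity
  refine ⟨e ^ P0.natDegree / (2 * (P0.natDegree + 1) * M ^ P0.natDegree), by positivity, ?_⟩
  intro P' hm' hd' hc
  have hδ : ((P0.natDegree : ℝ) + 1) * (e ^ P0.natDegree / (2 * (P0.natDegree + 1) * M ^ P0.natDegree) * M ^ P0.natDegree) <
      e ^ P0.natDegree := by
    have h1 : ((P0.natDegree : ℝ) + 1) * (e ^ P0.natDegree / (2 * (P0.natDegree + 1) * M ^ P0.natDegree) * M ^ P0.natDegree) =
        e ^ P0.natDegree / 2 := by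
      have h2 : (P0.natDegree : ℝ) + 1 ≠ 0 := by positivity
      have h3 : M ^ P0.natDegree ≠ 0 := by positivity
      field_simp
    rw [h1]
    linarith
  have hex : ∀ z : PadicAlgCl l, ∃ y : PadicAlgCl l, aeval z P0 = 0 → aeval y P' = 0 ∧ ‖y - z‖ < e := by
    intro z
    by_cases hz : aeval z P0 = 0
    · obtain ⟨y, hy⟩ := c1_close P0 P' hm' hd' he0 hM1 (by positivity) hδ hc z hz (hM z ((hRmem z).2 hz))
      exact ⟨y, fun _ => hy⟩
    · exact ⟨0, fun h => absurd h hz⟩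
  choose β hβ using hex
  have huniq : ∀ z z' : PadicAlgCl l, aeval z P0 = 0 → aeval z' P0 = 0 → ‖z - z'‖ < e → z = z' := by
    intro z z' hz hz' h
    by_contra hne
    exact absurd h (not_lt.2 (heR z ((hRmem z).2 hz) z' ((hRmem z').2 hz') hne))
  have hinj : ∀ z z' : PadicAlgCl l, aeval z P0 = 0 → aeval z' P0 = 0 → β z = β z' → z = z' := by
    intro z z' hz hz' h
    refine huniq z z' hz hz' (lt_of_le_of_lt (c1_tri z (β z) z') (max_lt ?_ ?_))
    · rw [norm_sub_rev]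
      exact (hβ z hz).2
    · rw [h]
      exact (hβ z' hz').2
  have hP' : P' ≠ 0 := hm'.ne_zero
  have hsp : ∀ f : ℚ_[l][X], (f.map (algebraMap ℚ_[l] (PadicAlgCl l))).Splits := fun f => IsAlgClosed.splits _
  have hcard0 := (card_rootSet_eq_natDegree_iff_of_splits (K := PadicAlgCl l) hP0 (hsp _)).2 hs
  have hsub : β '' (P0.rootSet (PadicAlgCl l)) ⊆ P'.rootSet (PadicAlgCl l) := by
    rintro _ ⟨z, hz, rfl⟩
    exact mem_rootSet.2 ⟨hP', (hβ z (mem_rootSet.1 hz).2).1⟩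
  have hinjOn : Set.InjOn β (P0.rootSet (PadicAlgCl l)) := fun z hz z' hz' h =>
    hinj z z' (mem_rootSet.1 hz).2 (mem_rootSet.1 hz').2 h
  have hc1 : (β '' (P0.rootSet (PadicAlgCl l))).ncard = P0.natDegree := by
    rw [hinjOn.ncard_image, ← hcard0, ← Nat.card_eq_fintype_card]
    rfl
  have hc2 : (P'.rootSet (PadicAlgCl l)).ncard ≤ P0.natDegree := by
    rw [← hd', ← natDegree_map (algebraMap ℚ_[l] (PadicAlgCl l)) (p := P'), rootSet_def, Set.ncard_coe_finset]
    exact (Multiset.toFinset_card_le _).trans (card_roots' _)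
  have hfin : (P'.rootSet (PadicAlgCl l)).Finite := (P'.rootSet (PadicAlgCl l)).toFinite
  have heq : β '' (P0.rootSet (PadicAlgCl l)) = P'.rootSet (PadicAlgCl l) :=
    Set.eq_of_subset_of_ncard_le hsub (by rw [hc1]; exact hc2) hfin
  refine ⟨?_, β, fun z hz => (hβ z hz).1, fun z hz => (hβ z hz).2.trans_le heε, ?_, ?_⟩
  · rw [← card_rootSet_eq_natDegree_iff_of_splits (K := PadicAlgCl l) hP' (hsp _), hd', ← hc1, heq,
      ← Nat.card_eq_fintype_card]
    rfl
  · intro y hy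
    have h1 : y ∈ P'.rootSet (PadicAlgCl l) := mem_rootSet.2 ⟨hP', hy⟩
    rw [← heq] at h1
    obtain ⟨z, hz, rfl⟩ := h1
    exact ⟨z, (mem_rootSet.1 hz).2, rfl⟩
  · intro σ z hz
    have hσz : aeval (σ z) P0 = 0 := by
      have h := Polynomial.aeval_algHom_apply (σ : PadicAlgCl l →ₐ[ℚ_[l]] PadicAlgCl l) z P0
      rw [hz, map_zero] at h
      exact h
    have hσy : aeval (σ (β z)) P' = 0 := by
      have h := Polynomial.aeval_algHom_apply (σ : PadicAlgCl l →ₐ[ℚ_[l]] PadicAlgCl l) (β z) P'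
      rw [(hβ z hz).1, map_zero] at h
      exact h
    have h1 : σ (β z) ∈ P'.rootSet (PadicAlgCl l) := mem_rootSet.2 ⟨hP', hσy⟩
    rw [← heq] at h1
    obtain ⟨z', hz', h2⟩ := h1
    have hz'0 := (mem_rootSet.1 hz').2
    have h3 : z' = σ z := by
      refine huniq z' (σ z) hz'0 hσz (lt_of_le_of_lt (c1_tri z' (β z') (σ z)) (max_lt ?_ ?_))
      · rw [norm_sub_rev]
        exact (hβ z' hz'0).2
      · rw [h2, ← map_sub, norm_gal]
        exact (hβ z hz).2
    rw [← h2, h3]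

end Pool.Agent.Lib.H81D
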