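import Mathlib
import Pool.Agent.Lib.H81D.C1

/-!
# Chunk C2 (M): the root map commutes with `z ↦ Q / z`
-/

namespace Pool.Agent.Lib.H81D

open Polynomial Pool.Agent.GSem

theorem c2_low {α : Type*} (R : Finset α) (f : α → ℝ) (h : ∀ z ∈ R, 0 < f z) :
    ∃ μ : ℝ, 0 < μ ∧ ∀ z ∈ R, μ < f z := by
  classical
  induction R using Finset.induction_on with
  | empty => exact ⟨1, one_pos, fun z hz => absurd hz (Finset.notMem_empty z)⟩
  | insert a R ha ih =>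
    obtain ⟨μ, h1, h2⟩ := ih fun z hz => h z (Finset.mem_insert_of_mem hz)
    have h3 := h a (Finset.mem_insert_self a R)
    refine ⟨min μ (f a / 2), lt_min h1 (half_pos h3), fun z hz => ?_⟩
    rcases Finset.mem_insert.1 hz with h4 | h4
    · rw [h4]
      exact lt_of_le_of_lt (min_le_right _ _) (half_lt_self h3)
    · exact lt_of_le_of_lt (min_le_left _ _) (h2 z h4)

/-- Proof. Let `R` be the finite set of the roots of `P0` (all nonzero), `μ > 0` smaller than all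
`‖z‖`, `z ∈ R`, `d > 0` smaller than all `‖z - z'‖`, `z ≠ z'` in `R` (`d = 1` possible if there is no
such pair). Choose `ε ≤ μ`, `ε ≤ d`, `‖Q0‖ * ε ≤ d μ ^ 2` and `δ` from `exists_rootMap` for this `ε`, also
`δ ≤ d μ` (decrease). Let `β` be the map of `exists_rootMap`. For `z ∈ R`: `‖β z‖ = ‖z‖` as
`‖β z - z‖ < ε ≤ μ < ‖z‖`. `y = Q' / β z` is a root of `P'` (by `Star P' Q'`), so `y = β z'` with
`z' ∈ R`. And `‖z' - Q0 / z‖ ≤ max ‖z' - β z'‖ ‖Q' / β z - Q0 / z‖`, where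
`Q' / β z - Q0 / z = ((Q' - Q0) z - Q0 (β z - z)) / (z * β z)` has norm at most
`max (δ / ‖z‖) (‖Q0‖ ε / ‖z‖ ^ 2) < d`. So `z' = Q0 / z`, as `Q0 / z ∈ R`, and `β (Q0 / z) = y`. -/
theorem exists_trans {l : ℕ} [Fact l.Prime] (P0 : ℚ_[l][X]) (hm : P0.Monic) (hs : P0.Separable)
    (Q0 : ℚ_[l]) (h0 : Star P0 Q0) :
    ∃ δ : ℝ, 0 < δ ∧ ∀ (P' : ℚ_[l][X]) (Q' : ℚ_[l]), P'.Monic → P'.natDegree = P0.natDegree →
      (∀ i, ‖P'.coeff i - P0.coeff i‖ ≤ δ) → ‖Q' - Q0‖ ≤ δ → Star P' Q' →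
      P'.Separable ∧ ∃ β : PadicAlgCl l → PadicAlgCl l, Trans P0 Q0 P' Q' β := by
  classical
  set R : Finset (PadicAlgCl l) := (P0.aroots (PadicAlgCl l)).toFinset with hR
  have hmem : ∀ z, z ∈ R ↔ aeval z P0 = 0 := by
    intro z
    rw [hR, Multiset.mem_toFinset, mem_aroots]
    exact ⟨fun h => h.2, fun h => ⟨hm.ne_zero, h⟩⟩
  obtain ⟨μ, hμ, hμR⟩ := c2_low R (fun z => ‖z‖) fun z hz => norm_pos_iff.2 (h0 z ((hmem z).1 hz)).1
  obtain ⟨d, hd, hdR⟩ := c2_low ((R ×ˢ R).filter fun x => x.1 ≠ x.2) (fun x => ‖x.1 - x.2‖) fun x hx =>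
    norm_pos_iff.2 (sub_ne_zero.2 (Finset.mem_filter.1 hx).2)
  have hsep : ∀ z z' : PadicAlgCl l, aeval z P0 = 0 → aeval z' P0 = 0 → ‖z - z'‖ ≤ d → z = z' := by
    intro z z' hz hz' hle
    by_contra hne
    have := hdR (z, z') (Finset.mem_filter.2 ⟨Finset.mem_product.2 ⟨(hmem z).2 hz, (hmem z').2 hz'⟩, hne⟩)
    exact absurd hle (not_le.2 this)
  have hQ1 : 0 < ‖Q0‖ + 1 := by positivity
  obtain ⟨δ1, hδ1, H⟩ := exists_rootMap P0 hm hs (min μ (min d (d * μ ^ 2 / (‖Q0‖ + 1))))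
    (lt_min hμ (lt_min hd (by positivity)))
  refine ⟨min δ1 (d * μ), lt_min hδ1 (by positivity), fun P' Q' hm' hdeg hco hQ hstar => ?_⟩
  obtain ⟨hsep', β, hroot, hclose, hsurj, hequi⟩ := H P' hm' hdeg fun i => (hco i).trans (min_le_left _ _)
  refine ⟨hsep', β, ⟨hroot, hsurj, hequi, fun z hz => ?_⟩⟩
  have hz0 : z ≠ 0 := (h0 z hz).1
  have hzn : μ < ‖z‖ := hμR z ((hmem z).2 hz)
  have hzpos : 0 < ‖z‖ := hμ.trans hzn
  have hc := hclose z hz
  have hcμ : ‖β z - z‖ < μ := lt_of_lt_of_le hc (min_le_left _ _)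
  have hcd : ∀ y, aeval y P0 = 0 → ‖β y - y‖ < d := fun y hy =>
    lt_of_lt_of_le (hclose y hy) ((min_le_right _ _).trans (min_le_left _ _))
  have hcQ : ‖β z - z‖ ≤ d * μ ^ 2 / (‖Q0‖ + 1) :=
    hc.le.trans ((min_le_right _ _).trans (min_le_right _ _))
  have hβn : ‖β z‖ = ‖z‖ := by
    have h1 : β z = z + (β z - z) := by ring
    have h2 : ‖z‖ ≠ ‖β z - z‖ := (hcμ.trans hzn).ne'
    rw [h1, IsUltrametricDist.norm_add_eq_max_of_norm_ne_norm h2, max_eq_left (hcμ.trans hzn).le]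
  have hβ0 : β z ≠ 0 := by
    rw [← norm_ne_zero_iff, hβn]
    exact hzpos.ne'
  have hy := (hstar (β z) (hroot z hz)).2
  obtain ⟨z', hz', hβz'⟩ := hsurj _ hy
  have hz1 := (h0 z hz).2
  have key : z' = algebraMap ℚ_[l] (PadicAlgCl l) Q0 / z := by
    refine hsep z' _ hz' hz1 ?_
    have h1 : z' - algebraMap ℚ_[l] (PadicAlgCl l) Q0 / z =
        (z' - β z') + (β z' - algebraMap ℚ_[l] (PadicAlgCl l) Q0 / z) := by ring
    rw [h1]
    refine (IsUltrametricDist.norm_add_le_max _ _).trans (max_le ?_ ?_)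
    · rw [norm_sub_rev]
      exact (hcd z' hz').le
    · rw [hβz']
      have h2 : algebraMap ℚ_[l] (PadicAlgCl l) Q' / β z - algebraMap ℚ_[l] (PadicAlgCl l) Q0 / z =
          (algebraMap ℚ_[l] (PadicAlgCl l) (Q' - Q0) * z -
            algebraMap ℚ_[l] (PadicAlgCl l) Q0 * (β z - z)) / (z * β z) := by
        rw [map_sub]
        field_simp
        ring
      rw [h2, norm_div, norm_mul, hβn, div_le_iff₀ (by positivity)]
      have h3 : ‖algebraMap ℚ_[l] (PadicAlgCl l) (Q' - Q0) * z‖ ≤ d * (‖z‖ * ‖z‖) := by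
        rw [norm_mul, PadicAlgCl.norm_extends]
        calc ‖Q' - Q0‖ * ‖z‖ ≤ (d * μ) * ‖z‖ :=
              mul_le_mul_of_nonneg_right (hQ.trans (min_le_right _ _)) hzpos.le
          _ ≤ (d * ‖z‖) * ‖z‖ := mul_le_mul_of_nonneg_right (mul_le_mul_of_nonneg_left hzn.le hd.le) hzpos.le
          _ = _ := by ring
      have h4 : ‖algebraMap ℚ_[l] (PadicAlgCl l) Q0 * (β z - z)‖ ≤ d * (‖z‖ * ‖z‖) := by
        rw [norm_mul, PadicAlgCl.norm_extends]
        calc ‖Q0‖ * ‖β z - z‖ ≤ (‖Q0‖ + 1) * (d * μ ^ 2 / (‖Q0‖ + 1)) :=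
              mul_le_mul (by linarith) hcQ (norm_nonneg _) hQ1.le
          _ = d * μ ^ 2 := by field_simp
          _ ≤ d * (‖z‖ * ‖z‖) := by
              refine mul_le_mul_of_nonneg_left ?_ hd.le
              rw [← pow_two]
              exact pow_le_pow_left₀ hμ.le hzn.le 2
      rw [sub_eq_add_neg]
      refine (IsUltrametricDist.norm_add_le_max _ _).trans (max_le h3 ?_)
      rw [norm_neg]
      exact h4
  rw [← key, hβz']

end Pool.Agent.Lib.H81D
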