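import Mathlib
import Pool.Agent.Lib.H81D.Bas

/-!
# Chunk C3 (S/M): matrix congruences and characteristic polynomials
-/

namespace Pool.Agent.Lib.H81D

open Polynomial Pool.Agent.GSem

theorem c3_small {l : ℕ} [hl : Fact l.Prime] {ε : ℝ} (hε : 0 < ε) : ∃ N : ℕ, ((l : ℝ) ^ N)⁻¹ < ε := by
  have h1 : (1 : ℝ) < l := by exact_mod_cast hl.out.one_lt
  obtain ⟨N, hN⟩ := exists_pow_lt_of_lt_one hε (inv_lt_one_of_one_lt₀ h1)
  exact ⟨N, by rwa [← inv_pow]⟩

theorem c3_cont {l : ℕ} [Fact l.Prime] {n : ℕ} (i : ℕ) :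
    Continuous fun A : Fin n → Fin n → ℚ_[l] => (Matrix.of A).charpoly.coeff i := by
  have h1 : ∀ A : Fin n → Fin n → ℚ_[l], (Matrix.of A).charpoly.coeff i =
      MvPolynomial.eval (fun q : Fin n × Fin n => A q.1 q.2) ((Matrix.charpoly.univ ℚ_[l] (Fin n)).coeff i) := by
    intro A
    have h2 := Matrix.charpoly.univ_coeff_eval₂Hom (Fin n) (RingHom.id ℚ_[l]) (fun q : Fin n × Fin n => A q.1 q.2) i
    exact h2.symm
  simp only [h1]
  refine (MvPolynomial.continuous_eval _).comp ?_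
  exact continuous_pi fun q => (continuous_apply q.2).comp (continuous_apply q.1)

/-- The coefficients of the characteristic polynomial are continuous functions of the matrix
(polynomials in the entries: `Matrix.charpoly` is the determinant of the charmatrix, expand with
`Matrix.det_apply`; or `Matrix.charpoly.univ`, `MvPolynomial.continuous_eval`), only the coefficients
`i ≤ n` matter (the others vanish), and the sets `{A | Cg N A A0}` form a basis of neighbourhoods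
of `A0` (`(l : ℝ) ^ N)⁻¹ → 0`, finitely many entries). -/
theorem exists_cg_charpoly {l : ℕ} [Fact l.Prime] {n : ℕ} (A0 : Matrix (Fin n) (Fin n) ℚ_[l])
    (δ : ℝ) (hδ : 0 < δ) :
    ∃ N : ℕ, ∀ A : Matrix (Fin n) (Fin n) ℚ_[l], Cg N A A0 →
      ∀ i, ‖A.charpoly.coeff i - A0.charpoly.coeff i‖ ≤ δ := by
  have hG : Continuous fun (A : Fin n → Fin n → ℚ_[l]) (i : Fin (n + 1)) => (Matrix.of A).charpoly.coeff (i : ℕ) :=
    continuous_pi fun i => c3_cont (i : ℕ)
  obtain ⟨ε, hε, hball⟩ := Metric.continuousAt_iff.1 (hG.continuousAt (x := fun i j => A0 i j)) δ hδ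
  obtain ⟨N, hN⟩ := c3_small (l := l) hε
  refine ⟨N, fun A hA i => ?_⟩
  by_cases hi : i < n + 1
  · have hNpos : 0 ≤ ((l : ℝ) ^ N)⁻¹ := by positivity
    have h1 : dist (fun i j => A i j) (fun i j => A0 i j) < ε := by
      refine lt_of_le_of_lt ?_ hN
      refine (dist_pi_le_iff hNpos).2 fun a => (dist_pi_le_iff hNpos).2 fun b => ?_
      rw [dist_eq_norm]
      exact hA a b
    have h2 := hball h1
    have h3 := (dist_pi_lt_iff hδ).1 h2 ⟨i, hi⟩
    rw [dist_eq_norm] at h3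
    exact h3.le
  · have h1 : ∀ A : Matrix (Fin n) (Fin n) ℚ_[l], A.charpoly.coeff i = 0 := by
      intro A
      apply Polynomial.coeff_eq_zero_of_natDegree_lt
      rw [Matrix.charpoly_natDegree_eq_dim, Fintype.card_fin]
      omega
    rw [h1, h1, sub_zero, norm_zero]
    exact hδ.le

/-- Continuity of `x ↦ x ^ (-w)` at `x0 ≠ 0`. -/
theorem exists_close_zpow {l : ℕ} [Fact l.Prime] (x0 : ℚ_[l]) (hx0 : x0 ≠ 0) (w : ℤ) (δ : ℝ)
    (hδ : 0 < δ) :
    ∃ N : ℕ, ∀ x : ℚ_[l], ‖x - x0‖ ≤ ((l : ℝ) ^ N)⁻¹ → ‖x ^ (-w) - x0 ^ (-w)‖ ≤ δ := by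
  obtain ⟨ε, hε, hball⟩ := Metric.continuousAt_iff.1 (continuousAt_zpow₀ x0 (-w) (Or.inl hx0)) δ hδ
  obtain ⟨N, hN⟩ := c3_small (l := l) hε
  refine ⟨N, fun x hx => ?_⟩
  have h1 : dist x x0 < ε := by
    rw [dist_eq_norm]
    exact lt_of_le_of_lt hx hN
  have h2 := hball h1
  rw [dist_eq_norm] at h2
  exact h2.le

end Pool.Agent.Lib.H81D
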