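import Mathlib
import Pool.Agent.Lib.H81D.Bas
import Pool.Agent.Lib.Helper4.GSD.Conj

/-!
# Chunk D1 (S/M): Frobenius elements for the same place are equal modulo an open subgroup
-/

namespace Pool.Agent.Lib.H81D

open Polynomial Module Filter Topology NumberField Pool.Agent.GSem Pool.Agent.GSD Pool.Agent.Ord

variable {Ω : Type} [Field Ω] [CharZero Ω] [IsAlgClosure ℚ Ω]

omit [IsAlgClosure ℚ Ω] in
theorem d1_int (β : 𝓞 Ω) : ∃ b : ℕ, ∀ (p : ℕ) [Fact p.Prime], b < p →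
    ∀ (ι : Ω →+* PadicAlgCl p) (φ φ' : Gal(Ω/ℚ)), IsFrobFor p ι φ → IsFrobFor p ι φ' →
      φ (β : Ω) = φ' (β : Ω) := by
  classical
  have hβi : IsIntegral ℤ (β : Ω) := RingOfIntegers.isIntegral_coe β
  set P := minpoly ℤ (β : Ω) with hP
  have hPm : P.Monic := minpoly.monic hβi
  set R : Finset Ω := (P.map (algebraMap ℤ Ω)).roots.toFinset with hR
  have hR0 : P.map (algebraMap ℤ Ω) ≠ 0 := (hPm.map _).ne_zero
  have hmemR : ∀ γ : Ω, γ ∈ R ↔ aeval γ P = 0 := by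
    intro γ
    rw [hR, Multiset.mem_toFinset, mem_roots hR0, IsRoot.def, eval_map, ← aeval_def]
  have hRint : ∀ γ ∈ R, IsIntegral ℤ γ := fun γ hγ => ⟨P, hPm, (hmemR γ).1 hγ⟩
  have hb : ∀ g : Ω × Ω, ∃ b : ℕ, g.1 ∈ R → g.2 ∈ R → g.1 ≠ g.2 → ∀ (p : ℕ) [Fact p.Prime],
      b < p → ∀ ι : Ω →+* PadicAlgCl p, ‖ι (g.1 - g.2)‖ = 1 := by
    rintro ⟨γ, γ'⟩
    by_cases h : γ ∈ R ∧ γ' ∈ R ∧ γ ≠ γ'
    · obtain ⟨h1, h2, h3⟩ := h
      have h4 : IsIntegral ℤ (γ - γ') := (hRint γ h1).sub (hRint γ' h2)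
      obtain ⟨b, hb⟩ := exists_bound_unit (⟨γ - γ', h4⟩ : 𝓞 Ω) (by
        intro h0
        apply h3
        have := congrArg (fun z : 𝓞 Ω => (z : Ω)) h0
        exact sub_eq_zero.1 this)
      exact ⟨b, fun _ _ _ p _ hp ι => hb p hp ι⟩
    · exact ⟨0, fun h1 h2 h3 => absurd ⟨h1, h2, h3⟩ h⟩
  choose bd hbd using hb
  have hmem : ∀ g : Gal(Ω/ℚ), g (β : Ω) ∈ R := by
    intro g
    rw [hmemR]
    have : aeval (g (β : Ω)) P = g (aeval (β : Ω) P) :=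
      aeval_algHom_apply ((g : Ω ≃ₐ[ℚ] Ω) : Ω →ₐ[ℚ] Ω).toRingHom.toIntAlgHom (β : Ω) P
    rw [this, hP, minpoly.aeval, map_zero]
  refine ⟨(R ×ˢ R).sup bd, fun p hpp hbp ι φ φ' hφ hφ' => ?_⟩
  by_contra hne
  have h1 := hbd (φ (β : Ω), φ' (β : Ω)) (hmem φ) (hmem φ') hne p
    (lt_of_le_of_lt (Finset.le_sup (f := bd) (Finset.mem_product.2 ⟨hmem φ, hmem φ'⟩)) hbp) ι
  have h2 := hφ β
  have h3 := hφ' β
  have h4 : ι (φ (β : Ω) - φ' (β : Ω)) = ι (φ (β : Ω) - (β : Ω) ^ p) +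
      -ι (φ' (β : Ω) - (β : Ω) ^ p) := by
    rw [← map_neg, ← map_add]
    congr 1
    ring
  have h5 : ‖ι (φ (β : Ω) - φ' (β : Ω))‖ < 1 := by
    rw [h4]
    refine lt_of_le_of_lt (IsUltrametricDist.norm_add_le_max _ _) (max_lt h2 ?_)
    rw [norm_neg]
    exact h3
  rw [h1] at h5
  exact lt_irrefl 1 h5

theorem d1_elt (β : Ω) : ∃ b : ℕ, ∀ (p : ℕ) [Fact p.Prime], b < p →
    ∀ (ι : Ω →+* PadicAlgCl p) (φ φ' : Gal(Ω/ℚ)), IsFrobFor p ι φ → IsFrobFor p ι φ' →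
      φ β = φ' β := by
  have halg : Algebra.IsAlgebraic ℚ Ω := IsAlgClosure.isAlgebraic
  have hβa : IsAlgebraic ℤ β := by
    have : IsAlgebraic ℚ β := Algebra.IsAlgebraic.isAlgebraic β
    exact (IsFractionRing.isAlgebraic_iff ℤ ℚ Ω).2 this
  obtain ⟨y, hy0, hy⟩ := hβa.exists_integral_multiple
  have hyΩ : (y : Ω) ≠ 0 := by exact_mod_cast hy0
  have hint : IsIntegral ℤ ((y : Ω) * β) := by
    rw [← zsmul_eq_mul]
    exact hy
  obtain ⟨b, hb⟩ := d1_int (⟨(y : Ω) * β, hint⟩ : 𝓞 Ω)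
  refine ⟨b, fun p hpp hbp ι φ φ' hφ hφ' => ?_⟩
  have h1 : φ ((y : Ω) * β) = φ' ((y : Ω) * β) := hb p hbp ι φ φ' hφ hφ'
  rw [map_mul, map_mul, map_intCast, map_intCast] at h1
  exact mul_left_cancel₀ hyΩ h1

/-- Proof: an open subgroup `N` contains the fixing subgroup of a finite-dimensional intermediate
field (Krull topology, `krullTopology_mem_nhds_one_iff` or `ofOpen` in `Ord`), which is
generated by one algebraic integer `β` (primitive element, multiplied by an integer: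
`exists_integral_multiple`; or finitely many integers `β`). For the finitely many conjugates `β'` of
`β` in `Ω` with `β' ≠ β''` the difference `β' - β''` is a nonzero algebraic integer, so
`‖ι (β' - β'')‖ = 1` for all `p > b` (`exists_bound_unit`). Two Frobenius elements satisfy
`‖ι (φ β - φ' β)‖ ≤ max ‖ι (φ β - β ^ p)‖ ‖ι (φ' β - β ^ p)‖ < 1`, so `φ β = φ' β` and `φ⁻¹ * φ'`
fixes `β`. -/
theorem exists_bound_frob (N : Subgroup Gal(Ω/ℚ)) (hN : IsOpen (N : Set Gal(Ω/ℚ))) :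
    ∃ b : ℕ, ∀ (p : ℕ) [Fact p.Prime], b < p → ∀ (ι : Ω →+* PadicAlgCl p) (φ φ' : Gal(Ω/ℚ)),
      IsFrobFor p ι φ → IsFrobFor p ι φ' → φ⁻¹ * φ' ∈ N := by
  obtain ⟨E, hE, hEN⟩ := (krullTopology_mem_nhds_one_iff ℚ Ω (N : Set Gal(Ω/ℚ))).1
    (hN.mem_nhds N.one_mem)
  have hfd : FiniteDimensional ℚ E := hE
  choose bd hbd using fun β : Ω => d1_elt β
  let B := Module.finBasis ℚ E
  refine ⟨Finset.univ.sup fun i => bd ((B i : E) : Ω), fun p hpp hbp ι φ φ' hφ hφ' => hEN ?_⟩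
  have h1 : ∀ i, φ ((B i : E) : Ω) = φ' ((B i : E) : Ω) := fun i =>
    hbd _ p (lt_of_le_of_lt (Finset.le_sup (f := fun i => bd ((B i : E) : Ω))
      (Finset.mem_univ i)) hbp) ι φ φ' hφ hφ'
  have h2 : ((φ : Ω ≃ₐ[ℚ] Ω).toLinearMap ∘ₗ E.val.toLinearMap : E →ₗ[ℚ] Ω) =
      (φ' : Ω ≃ₐ[ℚ] Ω).toLinearMap ∘ₗ E.val.toLinearMap := B.ext fun i => h1 i
  show φ⁻¹ * φ' ∈ E.fixingSubgroup
  rw [IntermediateField.mem_fixingSubgroup_iff]
  intro x hx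
  have h3 : φ x = φ' x := LinearMap.congr_fun h2 ⟨x, hx⟩
  show (φ⁻¹ : Gal(Ω/ℚ)) (φ' x) = x
  rw [← h3]
  exact φ.symm_apply_apply x

end Pool.Agent.Lib.H81D
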