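import Mathlib
import Pool.Agent.Lib.H81D.D1
import Pool.Agent.Lib.Helper95.Ord.Density
import Pool.Agent.Lib.H99.PD.LocalFrob

/-!
# Chunk D2 (S/M): every class comes from a local automorphism at some large prime
-/

namespace Pool.Agent.Lib.H81D

open Polynomial Module Filter Topology NumberField Pool.Agent.GSem Pool.Agent.GSD Pool.Agent.Ord

variable {Ω : Type} [Field Ω] [CharZero Ω] [IsAlgClosure ℚ Ω]

/-- Proof: `b'` = maximum of `b` and of the bound of `exists_bound_frob N`. `exists_frob_gen N hN y b'`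
(`Ord/Density`) gives a prime `l > b'` and a Frobenius element `φ` at `l` with
`IsGen (y mod N) (φ mod N)`, i.e. `φ mod N = (y mod N) ^ k`, `k` coprime to the order of `y mod N`, so
`y mod N = (φ mod N) ^ k'` (`exists_pow_eq_self_of_coprime`). `exists_isFrobFor` gives `ι` with
`IsFrobFor l ι φ`; `exists_compat_frob ι` (`H99/PD/LocalFrob`) gives `τ`, `g` with `Compat ι τ g` and `g`
Frobenius for `ι`, so `φ⁻¹ * g ∈ N` (`exists_bound_frob`). Take `σ = τ ^ k'`, `h = g ^ k'` (`Compat` is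
stable under powers); `h mod N = (φ mod N) ^ k' = y mod N`. -/
theorem exists_local (N : Subgroup Gal(Ω/ℚ)) [N.Normal] (hN : IsOpen (N : Set Gal(Ω/ℚ)))
    (y : Gal(Ω/ℚ)) (b : ℕ) :
    ∃ (l : ℕ) (_ : Fact l.Prime), b < l ∧ ∃ (ι : Ω →+* PadicAlgCl l)
      (σ : Gal(PadicAlgCl l/ℚ_[l])) (h : Gal(Ω/ℚ)), Compat ι σ h ∧ y⁻¹ * h ∈ N := by
  have hgal : IsGalois ℚ Ω := IsAlgClosure.isGalois ℚ Ω
  have hnorm : Normal ℚ Ω := hgal.to_normal
  obtain ⟨b1, hb1⟩ := exists_bound_frob N hN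
  obtain ⟨l, hl, hp, φ, hφ, k, hk, hφk⟩ := exists_frob_gen N hN y (max b b1)
  have hfact : Fact l.Prime := ⟨hp⟩
  obtain ⟨ι, hι⟩ := exists_isFrobFor hφ
  obtain ⟨τ, g, hc, hg, -⟩ := Pool.Agent.PD.exists_compat_frob ι
  have hgF : IsFrobFor l ι g := by
    intro x
    have h1 := hg x
    exact h1
  have h2 : φ⁻¹ * g ∈ N := hb1 l (lt_of_le_of_lt (le_max_right _ _) hl) ι φ g hι hgF
  have h3 : (φ : Gal(Ω/ℚ) ⧸ N) = g := QuotientGroup.eq.2 h2
  obtain ⟨m, hm⟩ := exists_pow_eq_self_of_coprime hk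
  have hpow : ∀ j : ℕ, Compat ι (τ ^ j) (g ^ j) := by
    intro j
    induction j with
    | zero => exact fun x => rfl
    | succ j ih =>
      intro x
      rw [pow_succ, pow_succ]
      show ι ((g ^ j) (g x)) = (τ ^ j) (τ (ι x))
      rw [ih (g x), hc x]
  refine ⟨l, hfact, lt_of_le_of_lt (le_max_left _ _) hl, ι, τ ^ m, g ^ m, hpow m, ?_⟩
  refine QuotientGroup.eq.1 ?_
  rw [QuotientGroup.mk_pow, ← h3, hφk, hm]

end Pool.Agent.Lib.H81D
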