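import Mathlib
import Pool.Agent.Lib.H81D.D2

/-!
# Chunk D3 (S): finitely many classes at different primes
-/

namespace Pool.Agent.Lib.H81D

open Polynomial Module Filter Topology NumberField Pool.Agent.GSem Pool.Agent.GSD Pool.Agent.Ord

variable {Ω : Type} [Field Ω] [CharZero Ω] [IsAlgClosure ℚ Ω]

/-- The statement for one index. -/
def d3_ok (N : Subgroup Gal(Ω/ℚ)) (y : Gal(Ω/ℚ)) (l : ℕ) : Prop :=
  ∃ (_ : Fact l.Prime) (ι : Ω →+* PadicAlgCl l)
      (σ : Gal(PadicAlgCl l/ℚ_[l])) (h : Gal(Ω/ℚ)), Compat ι σ h ∧ y⁻¹ * h ∈ N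

theorem d3_fin {k : ℕ} (N : Fin k → Subgroup Gal(Ω/ℚ))
    (hn : ∀ j, (N j).Normal) (hN : ∀ j, IsOpen (N j : Set Gal(Ω/ℚ))) (y : Fin k → Gal(Ω/ℚ))
    (b : ℕ) :
    ∃ l : Fin k → ℕ, Function.Injective l ∧ (∀ j, b < l j) ∧ ∀ j, d3_ok (N j) (y j) (l j) := by
  induction k with
  | zero => exact ⟨fun _ => 0, fun i => i.elim0, fun i => i.elim0, fun i => i.elim0⟩
  | succ k ih =>
    obtain ⟨l, hl, hb, hok⟩ := ih (fun j => N j.succ) (fun j => hn _) (fun j => hN _)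
      (fun j => y j.succ)
    have := hn 0
    obtain ⟨l0, h1, h2, ι, σ, h, hc, hh⟩ := exists_local (N 0) (hN 0) (y 0)
      (max b (Finset.univ.sup l))
    have h3 : ∀ j, l j < l0 := fun j =>
      lt_of_le_of_lt ((Finset.le_sup (Finset.mem_univ j)).trans (le_max_right _ _)) h2
    refine ⟨Fin.cons l0 l, Fin.cons_injective_iff.2 ⟨?_, hl⟩, ?_, ?_⟩
    · rintro ⟨j, hj⟩
      exact (h3 j).ne hj
    · intro j
      refine Fin.cases ?_ (fun j => ?_) j
      · rw [Fin.cons_zero]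
        exact lt_of_le_of_lt (le_max_left _ _) h2
      · rw [Fin.cons_succ]
        exact hb j
    · intro j
      refine Fin.cases ?_ (fun j => ?_) j
      · rw [Fin.cons_zero]
        exact ⟨h1, ι, σ, h, hc, hh⟩
      · rw [Fin.cons_succ]
        exact hok j

/-- Proof: `Finite J`, so `J ≃ Fin k`; choose the primes one after the other with `exists_local`,
each larger than `b` and the previous ones. (For instance: `exists_local` for every bound; by strong
recursion a function `F : ℕ → ℕ → ...`; or induction with `Finite.induction_empty_option`.) -/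
theorem exists_locals {J : Type} [Finite J] (N : J → Subgroup Gal(Ω/ℚ))
    (hn : ∀ j, (N j).Normal) (hN : ∀ j, IsOpen (N j : Set Gal(Ω/ℚ))) (y : J → Gal(Ω/ℚ)) (b : ℕ) :
    ∃ (l : J → ℕ) (_ : ∀ j, Fact (l j).Prime), Function.Injective l ∧ (∀ j, b < l j) ∧
      ∀ j, ∃ (ι : Ω →+* PadicAlgCl (l j)) (σ : Gal(PadicAlgCl (l j)/ℚ_[l j])) (h : Gal(Ω/ℚ)),
        Compat ι σ h ∧ (y j)⁻¹ * h ∈ N j := by
  obtain ⟨k, ⟨e⟩⟩ := Finite.exists_equiv_fin J
  obtain ⟨l, hl, hb, hok⟩ := d3_fin (fun i => N (e.symm i)) (fun i => hn _) (fun i => hN _)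
    (fun i => y (e.symm i)) b
  refine ⟨fun j => l (e j), fun j => ?_, hl.comp e.injective, fun j => hb _, fun j => ?_⟩
  · obtain ⟨h, -⟩ := hok (e j)
    exact h
  · obtain ⟨h1, ι, σ, h, hc, hh⟩ := hok (e j)
    rw [e.symm_apply_apply] at hh
    exact ⟨ι, σ, h, hc, hh⟩

end Pool.Agent.Lib.H81D
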