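import Mathlib
import Pool.Agent.Lib.H81D.B1
import Pool.Agent.Lib.H81D.A1
import Pool.Agent.Lib.Helper90.GSem.CycChar

/-!
# Chunk E0 (S/M): the homomorphism `kap`
-/

namespace Pool.Agent.Lib.H81D

open Polynomial Module Filter Topology NumberField Pool.Agent.GSem Pool.Agent.GSD Pool.Agent.Ord

variable {Ω : Type} [Field Ω] [CharZero Ω] {Γ : Subgroup Gal(Ω/ℚ)} {n : ℕ} {l : ℕ} [Fact l.Prime]

/-- `continuous_mat`, `continuous_cyc`. -/
theorem continuous_kap [IsAlgClosure ℚ Ω] (r : Representation ℚ_[l] Γ (Fin n → ℚ_[l]))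
    (hr : IsCont r) : Continuous (kap r) := by
  have h1 := continuous_mat hr
  have h2 : Continuous fun g : Γ => toQ (cyc l Ω (g : Gal(Ω/ℚ))) := by
    have h3 : Continuous fun g : Γ => cyc l Ω (g : Gal(Ω/ℚ)) :=
      (continuous_cyc l Ω).comp continuous_subtype_val
    have h5 : Continuous fun x : ℤ_[l] => (x : ℚ_[l]) := continuous_subtype_val
    have h6 : Continuous fun u : ℤ_[l]ˣ => (u : ℤ_[l]) := Units.continuous_val
    have h4 : Continuous fun u : ℤ_[l]ˣ => ((u : ℤ_[l]) : ℚ_[l]) := h5.comp h6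
    exact h4.comp h3
  refine continuous_matrix fun i j => ?_
  rcases i with i | i <;> rcases j with j | j
  · exact h1.matrix_elem i j
  · exact continuous_const
  · exact continuous_const
  · exact h2

/-- Powers of the block matrix. -/
theorem kap_pow (r : Representation ℚ_[l] Γ (Fin n → ℚ_[l])) (φ0 : Γ) (B : ℕ) :
    kap r φ0 ^ B = kap r (φ0 ^ B) := (map_pow (kap r) φ0 B).symm

/-- The congruence for the block matrices gives the congruence for the matrices of the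
representation. -/
theorem cg_mat_of_kap (r : Representation ℚ_[l] Γ (Fin n → ℚ_[l])) {φ φ0 : Γ} {B N : ℕ}
    (h : Cg N (kap r φ) (kap r φ0 ^ B)) : Cg N (mat r φ) (mat r φ0 ^ B) := by
  intro i j
  rw [kap_pow] at h
  rw [← mat_pow]
  exact h (Sum.inl i) (Sum.inl j)

/-- The congruence for the block matrices of Frobenius elements gives `q ≡ q0 ^ B` (`cyc_frob`). -/
theorem cg_norm_of_kap [IsAlgClosure ℚ Ω] (r : Representation ℚ_[l] Γ (Fin n → ℚ_[l]))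
    {φ φ0 : Γ} {B N : ℕ} (h : Cg N (kap r φ) (kap r φ0 ^ B)) {q q0 : ℕ} (hq : q.Prime)
    (hq0 : q0.Prime) (hql : q ≠ l) (hq0l : q0 ≠ l) (hφ : IsFrobAt q (φ : Gal(Ω/ℚ)))
    (hφ0 : IsFrobAt q0 (φ0 : Gal(Ω/ℚ))) :
    ‖(q : ℚ_[l]) - (q0 : ℚ_[l]) ^ B‖ ≤ ((l : ℝ) ^ N)⁻¹ := by
  have hcl : IsAlgClosed Ω := IsAlgClosure.isAlgClosed ℚ
  rw [kap_pow] at h
  have h1 := h (Sum.inr ()) (Sum.inr ())
  have h2 : ∀ (q : ℕ) (g : Γ), q.Prime → q ≠ l → IsFrobAt q (g : Gal(Ω/ℚ)) →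
      (toQ (cyc l Ω (g : Gal(Ω/ℚ))) : ℚ_[l]) = (q : ℚ_[l]) := by
    intro q g hq hql hg
    have h3 := cyc_frob (p := l) hq hql hg
    have h4 : (toQ (cyc l Ω (g : Gal(Ω/ℚ))) : ℚ_[l]) =
      (((cyc l Ω (g : Gal(Ω/ℚ)) : ℤ_[l]ˣ) : ℤ_[l]) : ℚ_[l]) := rfl
    rw [h4, h3]
    simp
  have h3 : kap r φ (Sum.inr ()) (Sum.inr ()) = (q : ℚ_[l]) := h2 q φ hq hql hφ
  have h4 : kap r (φ0 ^ B) (Sum.inr ()) (Sum.inr ()) = (q0 : ℚ_[l]) ^ B := by
    have h5 : kap r (φ0 ^ B) (Sum.inr ()) (Sum.inr ()) =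
      toQ (cyc l Ω ((φ0 ^ B : Γ) : Gal(Ω/ℚ))) := rfl
    rw [h5, Subgroup.coe_pow, map_pow, map_pow, h2 q0 φ0 hq0 hq0l hφ0]
  rwa [h3, h4] at h1

end Pool.Agent.Lib.H81D
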