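import Mathlib
import Pool.Agent.Lib.H81D.E0

/-!
# Chunk E1 (M): the polynomial with the roots `z ^ B`
-/

namespace Pool.Agent.Lib.H81D

open Polynomial Module Filter Topology NumberField Pool.Agent.GSem Pool.Agent.GSD Pool.Agent.Ord

variable {l : ℕ} [Fact l.Prime]

/-- The eigenvalues of `A ^ B` are the `a ^ B`: over the algebraically closed field `PadicAlgCl l`;
`Matrix.charpoly_pow_aroots`-like lemma, or: the charpoly of `A` splits over `PadicAlgCl l` as
`∏ (X - a_i)`, `Module.End`/`spectrum.map_pow_of_pos` (`spectrum` of a matrix = roots of the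
charpoly, `Matrix.mem_spectrum_iff_isRoot_charpoly`; over `PadicAlgCl l`, `0 < B`). -/
theorem root_pow_iff {n : ℕ} (A : Matrix (Fin n) (Fin n) ℚ_[l]) {B : ℕ} (hB : 0 < B)
    (y : PadicAlgCl l) :
    aeval y (A ^ B).charpoly = 0 ↔ ∃ a : PadicAlgCl l, aeval a A.charpoly = 0 ∧ a ^ B = y := by
  have key : ∀ (C : Matrix (Fin n) (Fin n) ℚ_[l]) (x : PadicAlgCl l),
      aeval x C.charpoly = 0 ↔
        x ∈ spectrum (PadicAlgCl l) (C.map (algebraMap ℚ_[l] (PadicAlgCl l))) := by
    intro C x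
    rw [Matrix.mem_spectrum_iff_isRoot_charpoly, Matrix.charpoly_map, IsRoot.def, eval_map_algebraMap]
  rw [key]
  have h1 : (A ^ B).map (algebraMap ℚ_[l] (PadicAlgCl l)) =
      (A.map (algebraMap ℚ_[l] (PadicAlgCl l))) ^ B := by
    have h2 := map_pow (algebraMap ℚ_[l] (PadicAlgCl l)).mapMatrix A B
    exact h2
  rw [h1, spectrum.map_pow_of_pos _ hB]
  constructor
  · rintro ⟨a, ha, rfl⟩
    exact ⟨a, (key A a).2 ha, rfl⟩
  · rintro ⟨a, ha, rfl⟩
    exact ⟨a, (key A a).1 ha, rfl⟩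

/-- If the charpoly of `A` is separable and the powers `a ^ B` of its roots are different, the charpoly
of `A ^ B` is separable: it has `n` different roots in `PadicAlgCl l` (`root_pow_iff`) and degree `n`.
(`Polynomial.nodup_roots_iff_of_splits`, `nodup_aroots_iff_of_splits` or
`card_rootSet_eq_natDegree_iff_of_splits`.) -/
theorem separable_pow {n : ℕ} (A : Matrix (Fin n) (Fin n) ℚ_[l]) {B : ℕ} (hB : 0 < B)
    (hs : A.charpoly.Separable)
    (hd : ∀ a a' : PadicAlgCl l, aeval a A.charpoly = 0 → aeval a' A.charpoly = 0 →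
      a ^ B = a' ^ B → a = a') : (A ^ B).charpoly.Separable := by
  classical
  have hne : ∀ C : Matrix (Fin n) (Fin n) ℚ_[l], C.charpoly ≠ 0 := fun C => C.charpoly_monic.ne_zero
  have hsp : ∀ f : ℚ_[l][X], (f.map (algebraMap ℚ_[l] (PadicAlgCl l))).Splits := fun f => IsAlgClosed.splits _
  rw [← card_rootSet_eq_natDegree_iff_of_splits (K := PadicAlgCl l) (hne _) (hsp _)]
  have h1 := (card_rootSet_eq_natDegree_iff_of_splits (K := PadicAlgCl l) (hne A) (hsp _)).2 hs
  rw [Matrix.charpoly_natDegree_eq_dim] at h1 ⊢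
  rw [← h1]
  have e : (A ^ B).charpoly.rootSet (PadicAlgCl l) = (fun a => a ^ B) '' (A.charpoly.rootSet (PadicAlgCl l)) := by
    ext y
    rw [mem_rootSet, root_pow_iff A hB]
    constructor
    · rintro ⟨-, a, ha, rfl⟩
      exact ⟨a, mem_rootSet.2 ⟨hne A, ha⟩, rfl⟩
    · rintro ⟨a, ha, rfl⟩
      exact ⟨hne _, a, (mem_rootSet.1 ha).2, rfl⟩
  have h2 : Set.InjOn (fun a => a ^ B) (A.charpoly.rootSet (PadicAlgCl l)) := fun a ha a' ha' h =>
    hd a a' (mem_rootSet.1 ha).2 (mem_rootSet.1 ha').2 h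
  have h3 := Set.InjOn.ncard_image h2
  rw [← e] at h3
  rw [← Nat.card_eq_fintype_card, ← Nat.card_eq_fintype_card]
  exact h3

end Pool.Agent.Lib.H81D
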