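import Mathlib
import Pool.Agent.Lib.H81D.E1
import Pool.Agent.Lib.H81D.C2
import Pool.Agent.Lib.H81D.C3
import Pool.Agent.Lib.Helper4.GSD.Conj

/-!
# Chunk E2 (M): local transfer
-/

namespace Pool.Agent.Lib.H81D

open Polynomial Module Filter Topology NumberField Pool.Agent.GSem Pool.Agent.GSD Pool.Agent.Ord

variable {Ω : Type} [Field Ω] [CharZero Ω] [IsAlgClosure ℚ Ω] {Γ : Subgroup Gal(Ω/ℚ)} {n : ℕ}
  {ρ : ∀ (p : ℕ) [Fact p.Prime], Representation ℚ_[p] Γ (Fin n → ℚ_[p])} {w : ℤ}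

omit [IsAlgClosure ℚ Ω] in
theorem e2_compat_pow {l : ℕ} [Fact l.Prime] {ι : Ω →+* PadicAlgCl l}
    {σ : Gal(PadicAlgCl l/ℚ_[l])} {h : Gal(Ω/ℚ)} (hc : Compat ι σ h) (k : ℕ) (x : Ω) :
    ι ((h ^ k) x) = (σ ^ k) (ι x) := by
  induction k with
  | zero => simp
  | succ k ih =>
    rw [pow_succ', pow_succ', AlgEquiv.mul_apply, AlgEquiv.mul_apply, hc, ih]

theorem e2_root {l : ℕ} [Fact l.Prime] (ι : Ω →+* PadicAlgCl l) {P : ℚ[X]} (hP : P ≠ 0)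
    (y : PadicAlgCl l) :
    aeval y (P.map (algebraMap ℚ ℚ_[l])) = 0 ↔ ∃ z : Ω, aeval z P = 0 ∧ ι z = y := by
  rw [aeval_map_algebraMap]
  constructor
  · intro h
    exact exists_root_eq ι P hP y h
  · rintro ⟨z, hz, rfl⟩
    have h1 : aeval (ι z) P = ι (aeval z P) := aeval_algHom_apply ι.toRatAlgHom z P
    rw [h1, hz, map_zero]

omit [CharZero Ω] [IsAlgClosure ℚ Ω] in
theorem e2_zpow {l : ℕ} [Fact l.Prime] (ι : Ω →+* PadicAlgCl l) (q : ℕ) (w : ℤ) :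
    ι ((q : Ω) ^ (-w)) = algebraMap ℚ_[l] (PadicAlgCl l) ((q : ℚ_[l]) ^ (-w)) := by
  rw [map_zpow₀, map_zpow₀, map_natCast, map_natCast]

theorem e2_star {l : ℕ} [Fact l.Prime] (ι : Ω →+* PadicAlgCl l) {q : ℕ} (hq : 0 < q) {P : ℚ[X]}
    (hP0 : P ≠ 0) (hP : IsPure w q P) :
    Star (P.map (algebraMap ℚ ℚ_[l])) ((q : ℚ_[l]) ^ (-w)) := by
  intro y hy
  obtain ⟨z, hz, rfl⟩ := (e2_root ι hP0 y).1 hy
  obtain ⟨h1, h2⟩ := star_root hq hP hz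
  refine ⟨?_, (e2_root ι hP0 _).2 ⟨_, h2, ?_⟩⟩
  · rwa [Ne, map_eq_zero]
  · rw [map_div₀, e2_zpow]

/-- Proof. Let `A0 = mat (ρ l) φ0`, `PB = (A0 ^ B).charpoly`, `QB = (q0 ^ B) ^ (-w)` in `ℚ_[l]`. The charpoly of
`A0` is `P0` over `ℚ_[l]` (`mat_charpoly`), its roots in `PadicAlgCl l` are the `ι z`, `z` a root of `P0` in `Ω`
(for any `ι`; `exists_root_eq`; an embedding `ι` exists: `IsAlgClosed.lift`). `PB` is monic of degree `n`,
separable (`separable_pow`, neatness), its roots are the `(ι z) ^ B` (`root_pow_iff`), and `Star PB QB`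
(`star_root`: `q0 ^ (-w) / z` is a root of `P0`, take powers). Take `δ` from `exists_trans` for `PB`, `QB`, then
`N` = maximum of the bounds of `exists_cg_charpoly (A0 ^ B) δ` and `exists_close_zpow (q0 ^ B) w δ`.

Let `(q, φ, P)` be as in the statement, `P'` = `P` over `ℚ_[l]` = charpoly of `mat (ρ l) φ`,
`Q' = q ^ (-w)`. Then `cg_mat_of_kap`, `cg_norm_of_kap` give the hypotheses of `exists_trans`
(`Star P' Q'` by `star_root` for `P` and `exists_root_eq`). So `P'` is separable, hence `P`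
(`Polynomial.separable_map`), and there is `β` with `Trans PB QB P' Q' β`.

Let `Compat ι σ h`, `y` a root of `P` in `Ω`. `ι y` is a root of `P'`, so `ι y = β ((ι z) ^ B)` for a root `z`
of `P0` in `Ω` (surj). For every `k`:
`ι ((h ^ k) y) = (σ ^ k) (ι y) = β ((σ ^ k) ((ι z) ^ B)) = β ((ι ((h ^ k) z)) ^ B)` (equi). If `h ∈ kerP P0` then
`h z = z`, so `ι (h y) = ι y` and `h y = y`. If `h` is odd for `P0`, `(h ^ k) z = q0 ^ (-w) / z` for some `k`, so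
`ι ((h ^ k) y) = β (QB / (ι z) ^ B) = Q' / β ((ι z) ^ B) = Q' / ι y` (star), i.e.
`(h ^ k) y = q ^ (-w) / y` and `(h ^ k) y * y = q ^ (-w)` (`y ≠ 0`). -/
theorem transfer {q0 : ℕ} {φ0 : Γ} {P0 : ℚ[X]} (h0 : IsDatum ρ w q0 φ0 P0) (hn : IsNeat Ω P0)
    (l : ℕ) [Fact l.Prime] (hl : l ≠ q0) {B : ℕ} (hB : 0 < B) :
    ∃ N : ℕ, ∀ (q : ℕ) (φ : Γ) (P : ℚ[X]), IsDatum ρ w q φ P → q ≠ l →
      Cg N (kap (ρ l) φ) (kap (ρ l) φ0 ^ B) →
      P.Separable ∧ ∀ (ι : Ω →+* PadicAlgCl l) (σ : Gal(PadicAlgCl l/ℚ_[l])) (h : Gal(Ω/ℚ)),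
        Compat ι σ h →
          (h ∈ kerP Ω P0 → h ∈ kerP Ω P) ∧ (IsOdd w q0 P0 h → IsOdd w q P h) := by
  classical
  have hcl : IsAlgClosed Ω := IsAlgClosure.isAlgClosed ℚ
  have halg : Algebra.IsAlgebraic ℚ Ω := IsAlgClosure.isAlgebraic
  let ι0 : Ω →+* PadicAlgCl l :=
    (IsAlgClosed.lift (M := PadicAlgCl l) (R := ℚ) (S := Ω) : Ω →ₐ[ℚ] PadicAlgCl l)
  have hP0 : P0 ≠ 0 := h0.monic.ne_zero
  have hA0 : (mat (ρ l) φ0).charpoly = P0.map (algebraMap ℚ ℚ_[l]) := by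
    rw [mat_charpoly]
    exact h0.char l hl
  have hq0l : (q0 : ℚ_[l]) ≠ 0 := by
    exact_mod_cast h0.prime.ne_zero
  -- the roots
  have hrootB : ∀ (ι : Ω →+* PadicAlgCl l) (y : PadicAlgCl l),
      aeval y (mat (ρ l) φ0 ^ B).charpoly = 0 ↔ ∃ z : Ω, aeval z P0 = 0 ∧ (ι z) ^ B = y := by
    intro ι y
    rw [root_pow_iff _ hB]
    constructor
    · rintro ⟨a, ha, rfl⟩
      rw [hA0] at ha
      obtain ⟨z, hz, rfl⟩ := (e2_root ι hP0 a).1 ha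
      exact ⟨z, hz, rfl⟩
    · rintro ⟨z, hz, rfl⟩
      refine ⟨ι z, ?_, rfl⟩
      rw [hA0]
      exact (e2_root ι hP0 _).2 ⟨z, hz, rfl⟩
  -- `PB` is separable
  have hsepB : (mat (ρ l) φ0 ^ B).charpoly.Separable := by
    refine separable_pow _ hB ?_ ?_
    · rw [hA0]
      exact hn.1.map
    · intro a a' ha ha' haa'
      rw [hA0] at ha ha'
      obtain ⟨z, hz, rfl⟩ := (e2_root ι0 hP0 a).1 ha
      obtain ⟨z', hz', rfl⟩ := (e2_root ι0 hP0 a').1 ha'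
      rw [← map_pow, ← map_pow] at haa'
      rw [hn.2 z z' hz hz' B hB (ι0.injective haa')]
  have hstarB : Star (mat (ρ l) φ0 ^ B).charpoly (((q0 : ℚ_[l]) ^ B) ^ (-w)) := by
    intro y hy
    obtain ⟨z, hz, rfl⟩ := (hrootB ι0 y).1 hy
    obtain ⟨h1, h2⟩ := star_root h0.prime.pos h0.pure hz
    have h3 : ι0 z ≠ 0 := by rwa [Ne, map_eq_zero]
    refine ⟨pow_ne_zero _ h3, (hrootB ι0 _).2 ⟨_, h2, ?_⟩⟩
    rw [map_div₀, e2_zpow, div_pow, ← map_pow]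
    congr 2
    rw [← zpow_natCast, ← zpow_natCast, ← zpow_mul, ← zpow_mul, mul_comm]
  obtain ⟨δ, hδ, htr⟩ := exists_trans _ (Matrix.charpoly_monic _) hsepB _ hstarB
  obtain ⟨N1, hN1⟩ := exists_cg_charpoly (mat (ρ l) φ0 ^ B) δ hδ
  obtain ⟨N2, hN2⟩ := exists_close_zpow ((q0 : ℚ_[l]) ^ B) (pow_ne_zero _ hq0l) w δ hδ
  refine ⟨max N1 N2, fun q φ P hd hql hcg => ?_⟩
  have hP : P ≠ 0 := hd.monic.ne_zero
  have hA : (mat (ρ l) φ).charpoly = P.map (algebraMap ℚ ℚ_[l]) := by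
    rw [mat_charpoly]
    exact hd.char l hql.symm
  have h1 := cg_norm_of_kap (ρ l) (hcg.mono (le_max_right N1 N2)) hd.prime h0.prime hql hl.symm
    hd.frob h0.frob
  have h2 := hN1 _ (cg_mat_of_kap (ρ l) (hcg.mono (le_max_left N1 N2)))
  rw [hA] at h2
  have hdeg : (P.map (algebraMap ℚ ℚ_[l])).natDegree = (mat (ρ l) φ0 ^ B).charpoly.natDegree := by
    rw [← hA, Matrix.charpoly_natDegree_eq_dim, Matrix.charpoly_natDegree_eq_dim]
  obtain ⟨hsep, β, hβ⟩ := htr (P.map (algebraMap ℚ ℚ_[l])) ((q : ℚ_[l]) ^ (-w))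
    (hd.monic.map _) hdeg h2 (hN2 _ h1) (e2_star ι0 hd.prime.pos hP hd.pure)
  rw [Polynomial.separable_map] at hsep
  refine ⟨hsep, fun ι σ h hc => ?_⟩
  -- the roots of `P`
  have hy : ∀ y : Ω, aeval y P = 0 → ∃ z : Ω, aeval z P0 = 0 ∧
      ∀ k : ℕ, ι ((h ^ k) y) = β ((ι ((h ^ k) z)) ^ B) := by
    intro y hy
    obtain ⟨x, hx, hxy⟩ := hβ.surj (ι y) ((e2_root ι hP _).2 ⟨y, hy, rfl⟩)
    obtain ⟨z, hz, rfl⟩ := (hrootB ι x).1 hx
    refine ⟨z, hz, fun k => ?_⟩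
    rw [e2_compat_pow hc, e2_compat_pow hc, ← hxy, hβ.equi _ _ hx, map_pow]
  constructor
  · intro hk y hyP
    obtain ⟨z, hz, hzk⟩ := hy y hyP
    have h3 := hzk 1
    have h4 := hzk 0
    rw [pow_one, hk z hz] at h3
    rw [pow_zero, AlgEquiv.one_apply, AlgEquiv.one_apply, ← h3] at h4
    exact (ι.injective h4).symm
  · intro ho y hyP
    obtain ⟨z, hz, hzk⟩ := hy y hyP
    obtain ⟨k, hk⟩ := ho z hz
    refine ⟨k, ?_⟩
    have hz0 : z ≠ 0 := (star_root h0.prime.pos h0.pure hz).1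
    have hy0 : y ≠ 0 := (star_root hd.prime.pos hd.pure hyP).1
    have h3 := hzk k
    have h4 := hzk 0
    rw [pow_zero, AlgEquiv.one_apply, AlgEquiv.one_apply] at h4
    rw [← eq_div_iff hz0] at hk
    have h5 : (ι ((h ^ k) z)) ^ B =
        algebraMap ℚ_[l] (PadicAlgCl l) (((q0 : ℚ_[l]) ^ B) ^ (-w)) / (ι z) ^ B := by
      rw [hk, map_div₀, e2_zpow, div_pow, ← map_pow]
      congr 2
      rw [← zpow_natCast, ← zpow_natCast, ← zpow_mul, ← zpow_mul, mul_comm]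
    rw [h5, hβ.star _ ((hrootB ι _).2 ⟨z, hz, rfl⟩), ← h4, ← e2_zpow ι, ← map_div₀] at h3
    rw [ι.injective h3, div_mul_cancel₀ _ hy0]

end Pool.Agent.Lib.H81D
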