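import Mathlib
import Pool.Agent.Lib.H81D.D1
import Pool.Agent.Lib.Helper95.Ord.Density

/-!
# Chunk Z0 (M): Frobenius elements at the same prime are conjugate modulo an open subgroup
-/

namespace Pool.Agent.Lib.H81D

open Polynomial Module Filter Topology NumberField Pool.Agent.GSem Pool.Agent.GSD Pool.Agent.Ord

variable {Ω : Type} [Field Ω] [CharZero Ω] [IsAlgClosure ℚ Ω]

/-- Two embeddings of `Ω` in the closure of `ℚ_p` differ by an automorphism of `Ω`: both images are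
the set of the elements algebraic over `ℚ` (`exists_root_eq` of `GSD/Conj`; or
`IsAlgClosure.equiv`, `Normal`, `AlgHom.restrictNormal`). -/
theorem exists_emb_conj {p : ℕ} [Fact p.Prime] (ι ι' : Ω →+* PadicAlgCl p) :
    ∃ g : Gal(Ω/ℚ), ∀ x, ι' x = ι (g x) := by
  have halg : Algebra.IsAlgebraic ℚ Ω := IsAlgClosure.isAlgebraic
  have h1 : ∀ x : Ω, ∃ y : Ω, ι y = ι' x := by
    intro x
    have hx : IsIntegral ℚ x := Algebra.IsIntegral.isIntegral x
    obtain ⟨γ, _, hγ⟩ := exists_root_eq ι (minpoly ℚ x) (minpoly.ne_zero hx) (ι' x) (by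
      have h2 := minpoly.aeval ℚ x
      have h3 := congrArg ι' h2
      rw [map_zero, aeval_def, hom_eval₂] at h3
      rw [aeval_def]
      have h4 : ι'.comp (algebraMap ℚ Ω) = algebraMap ℚ (PadicAlgCl p) := Subsingleton.elim _ _
      rw [h4] at h3
      exact h3)
    exact ⟨γ, hγ⟩
  choose f hf using h1
  let F : Ω →+* Ω :=
    { toFun := f
      map_one' := ι.injective (by rw [hf, map_one, map_one])
      map_mul' := fun a b => ι.injective (by rw [hf, map_mul, map_mul, hf, hf])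
      map_zero' := ι.injective (by rw [hf, map_zero, map_zero])
      map_add' := fun a b => ι.injective (by rw [hf, map_add, map_add, hf, hf]) }
  have hbij : Function.Bijective F.toRatAlgHom := Algebra.IsAlgebraic.algHom_bijective _
  refine ⟨AlgEquiv.ofBijective F.toRatAlgHom hbij, fun x => ?_⟩
  exact (hf x).symm

/-- Proof: `exists_isFrobFor` gives `ι`, `ι'` for `φ`, `φ'`; `ι' = ι ∘ g`
(`exists_emb_conj`), so `g * φ' * g⁻¹` is a Frobenius element for `ι`, and `exists_bound_frob`. -/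
theorem exists_bound_frob_conj (N : Subgroup Gal(Ω/ℚ)) [N.Normal]
    (hN : IsOpen (N : Set Gal(Ω/ℚ))) :
    ∃ b : ℕ, ∀ p : ℕ, b < p → p.Prime → ∀ φ φ' : Gal(Ω/ℚ), IsFrobAt p φ → IsFrobAt p φ' →
      ∃ g : Gal(Ω/ℚ), φ⁻¹ * (g * φ' * g⁻¹) ∈ N := by
  obtain ⟨b, hb⟩ := exists_bound_frob N hN
  refine ⟨b, fun p hbp hp φ φ' hφ hφ' => ?_⟩
  have hfact : Fact p.Prime := ⟨hp⟩
  obtain ⟨ι, hι⟩ := exists_isFrobFor hφ
  obtain ⟨ι', hι'⟩ := exists_isFrobFor hφ'
  obtain ⟨g, hg⟩ := exists_emb_conj ι ι'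
  refine ⟨g, hb p hbp ι φ (g * φ' * g⁻¹) hι fun x => ?_⟩
  have h1 := hι' (g⁻¹ • x)
  rw [hg] at h1
  have h2 : g (φ' ((g⁻¹ • x : 𝓞 Ω) : Ω) - ((g⁻¹ • x : 𝓞 Ω) : Ω) ^ p) = (g * φ' * g⁻¹) (x : Ω) - (x : Ω) ^ p := by
    rw [map_sub, map_pow]
    have h3 : g ((g⁻¹ • x : 𝓞 Ω) : Ω) = (x : Ω) := by
      show g (g⁻¹ (x : Ω)) = x
      exact AlgEquiv.apply_symm_apply g _
    rw [h3]
    rfl
  rw [h2] at h1
  exact h1

end Pool.Agent.Lib.H81D
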