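import Mathlib
import Pool.Agent.Lib.H81D.Z0
import Pool.Agent.Lib.CHEB.Rat

/-!
# Chunk Z1 (M): Chebotarev's density theorem for one conjugacy class, in terms of `IsFrobAt`
-/

namespace Pool.Agent.Lib.H81D

open Polynomial Module Filter Topology NumberField Pool.Agent.GSem Pool.Agent.GSD Pool.Agent.Ord

variable {Ω : Type} [Field Ω] [CharZero Ω] [IsAlgClosure ℚ Ω]

/-- Proof: `CFT.chebotarev` for `K = ℚ` and the number field `L = fixedField N`
(`Gal(L/ℚ) ≃ Gal(Ω/ℚ) ⧸ N`; finite-dimensional since `N` is open). A prime `W` of `𝓞 L` above `p` with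
Frobenius element `σ`: take any Frobenius element `φ` at `p` in `Gal(Ω/ℚ)` (`exists_frob`) with its
prime `Q` of `𝓞 Ω`; `Q ∩ 𝓞 L` and `W` are conjugate under `Gal(L/ℚ)`, so after conjugation
(`isFrobAt_conj`) `Q` lies above `W`; both `φ|_L` and `σ` act as `x ↦ x ^ p` modulo `W`, so they are equal
for `p` unramified in `L`. -/
theorem cheb_class (N : Subgroup Gal(Ω/ℚ)) [N.Normal] (hN : IsOpen (N : Set Gal(Ω/ℚ)))
    (c : ConjClasses (Gal(Ω/ℚ) ⧸ N)) :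
    HasNatLower {p | ∃ φ : Gal(Ω/ℚ), IsFrobAt p φ ∧ ConjClasses.mk (φ : Gal(Ω/ℚ) ⧸ N) = c}
      ((Nat.card c.carrier : ℝ) / Nat.card (Gal(Ω/ℚ) ⧸ N)) := by
  classical
  have hG : IsGalois ℚ Ω := isGaloisΩ
  have hNF : NumberField (ofOpen N) := numberField_ofOpen hN
  have hGL : IsGalois ℚ (ofOpen N) := isGalois_ofOpen hN
  obtain ⟨r, hrs, hrk, hr⟩ := exists_restrict_ofOpen hN
  obtain ⟨q0, rfl⟩ := ConjClasses.mk_surjective c
  obtain ⟨g0, rfl⟩ := QuotientGroup.mk_surjective q0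
  have hlim := CFT.chebotarev (K := ℚ) (L := ofOpen N) (r g0)
  -- the isomorphism of the quotient with the Galois group
  obtain ⟨e, he⟩ : ∃ e : (Gal(Ω/ℚ) ⧸ N) ≃* Gal(ofOpen N/ℚ), ∀ g : Gal(Ω/ℚ), e (g : Gal(Ω/ℚ) ⧸ N) = r g := by
    refine ⟨(QuotientGroup.quotientMulEquivOfEq hrk.symm).trans (QuotientGroup.quotientKerEquivOfSurjective r hrs), fun g => ?_⟩
    rfl
  have hcard : Nat.card (Gal(Ω/ℚ) ⧸ N) = Nat.card (Gal(ofOpen N/ℚ)) := Nat.card_congr e.toEquiv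
  have hcls : Nat.card (ConjClasses.mk (g0 : Gal(Ω/ℚ) ⧸ N)).carrier = Set.ncard {τ : Gal(ofOpen N/ℚ) | IsConj (r g0) τ} := by
    rw [Nat.card_coe_set_eq]
    refine Set.ncard_congr (fun a _ => e a) ?_ ?_ ?_
    · intro a ha
      rw [ConjClasses.mem_carrier_iff_mk_eq, ConjClasses.mk_eq_mk_iff_isConj] at ha
      show IsConj (r g0) (e a)
      rw [← he]
      exact e.toMonoidHom.map_isConj (IsConj.symm ha)
    · intro a b _ _ h
      exact e.injective h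
    · intro b hb
      refine ⟨e.symm b, ?_, e.apply_symm_apply b⟩
      rw [ConjClasses.mem_carrier_iff_mk_eq, ConjClasses.mk_eq_mk_iff_isConj]
      have h1 : IsConj (r g0) b := hb
      rw [← he] at h1
      have h2 := e.symm.toMonoidHom.map_isConj h1
      have h3 : e.symm.toMonoidHom (e (g0 : Gal(Ω/ℚ) ⧸ N)) = g0 := e.symm_apply_apply _
      rw [h3] at h2
      exact IsConj.symm h2
  rw [hcard, hcls]
  intro δ' hδ'
  have hev := hlim.eventually (lt_mem_nhds hδ')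
  filter_upwards [hev, eventually_ge_atTop 2] with x hx hx2
  have hπ : (0 : ℝ) < (Nat.primeCounting x : ℝ) := by
    exact_mod_cast CFTC.c10_ppos hx2
  rw [lt_div_iff₀ hπ] at hx
  refine hx.le.trans ?_
  refine Nat.cast_le.2 ?_
  refine Set.ncard_le_ncard_of_injOn (fun v => CFT.Nm v) ?_ (fun v _ v' _ h => CHEB.rat_inj h)
    ((Set.finite_le_nat x).subset fun p hp => hp.1)
  rintro v ⟨hv1, hv2, W, hW, hσ⟩
  have hp := CHEB.rat_Nm_prime v
  refine ⟨hv1, hp, ?_⟩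
  obtain ⟨φ, hφ⟩ := exists_frob (Ω := Ω) hp
  refine ⟨φ, hφ, ?_⟩
  obtain ⟨Q, hQ, hqQ, hQφ⟩ := hφ
  -- the prime of the fixed field below Q
  have hmem : ((CFT.Nm v : ℕ) : 𝓞 (ofOpen N)) ∈ Q.comap (algebraMap (𝓞 (ofOpen N)) (𝓞 Ω)) := by
    rw [Ideal.mem_comap, map_natCast]
    exact hqQ
  obtain ⟨W', hW'⟩ : ∃ W' : CFT.Pr (ofOpen N), W'.asIdeal = Q.comap (algebraMap (𝓞 (ofOpen N)) (𝓞 Ω)) := by
    refine ⟨⟨Q.comap (algebraMap (𝓞 (ofOpen N)) (𝓞 Ω)), Ideal.comap_isPrime _ _, fun h => ?_⟩, rfl⟩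
    rw [h, Ideal.mem_bot] at hmem
    exact hp.ne_zero (by exact_mod_cast hmem)
  have hb' : CFT.below ℚ W' = v := by
    apply CHEB.rat_inj
    apply CHEB.Nm_of_mem hp
    rw [hW']
    exact hmem
  have hfr : CHEB.FrAt ℚ W' (r φ) := by
    intro x
    rw [hb', hW', Ideal.mem_comap]
    have h1 := hQφ (algebraMap (𝓞 (ofOpen N)) (𝓞 Ω) x)
    have h2 : algebraMap (𝓞 (ofOpen N)) (𝓞 Ω) (r φ • x) = φ • algebraMap (𝓞 (ofOpen N)) (𝓞 Ω) x := by
      apply RingOfIntegers.ext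
      exact hr φ (x : ofOpen N)
    rw [map_sub, map_pow, h2]
    exact h1
  obtain ⟨g, hg⟩ := CHEB.trans_act (K := ℚ) W W' (hW.trans hb'.symm)
  have h1 := CHEB.frAt_act g (r g0) W hσ
  rw [hg] at h1
  have hu : CFT.Unr ℚ (ofOpen N) (CFT.below ℚ W') := by rw [hb']; exact hv2
  have h2 := CHEB.frAt_unique hu hfr h1
  rw [ConjClasses.mk_eq_mk_iff_isConj]
  have h3 : IsConj (r φ) (r g0) := by
    rw [h2]
    exact IsConj.symm (isConj_iff.2 ⟨g, rfl⟩ : IsConj (r g0) (g * r g0 * g⁻¹))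
  rw [← he, ← he] at h3
  have h4 := e.symm.toMonoidHom.map_isConj h3
  have h5 : ∀ y, e.symm.toMonoidHom (e y) = y := e.symm_apply_apply
  rw [h5, h5] at h4
  exact h4

end Pool.Agent.Lib.H81D
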