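import Mathlib
import Pool.Agent.Lib.H81D.Z1

/-!
# Chunk Z2 (M): Chebotarev's density theorem for unions of classes, existence
-/

namespace Pool.Agent.Lib.H81D

open Polynomial Module Filter Topology NumberField Pool.Agent.GSem Pool.Agent.GSD Pool.Agent.Ord

variable {Ω : Type} [Field Ω] [CharZero Ω] [IsAlgClosure ℚ Ω]

/-- The number of the primes of `S` up to `x`. -/
noncomputable def z2_cnt (S : Set ℕ) (x : ℕ) : ℝ := ({p | p ≤ x ∧ p.Prime ∧ p ∈ S}.ncard : ℝ)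

theorem z2_fin (S : Set ℕ) (x : ℕ) : {p | p ≤ x ∧ p.Prime ∧ p ∈ S}.Finite :=
  (Set.finite_Iic x).subset fun _ h => h.1

theorem z2_le_pi (S : Set ℕ) (x : ℕ) : z2_cnt S x ≤ (Nat.primeCounting x : ℝ) := by
  unfold z2_cnt
  have h1 : Nat.primeCounting x = {p | p ≤ x ∧ p.Prime}.ncard := by
    have e : {p | p ≤ x ∧ p.Prime} = ((Finset.range (x + 1)).filter Nat.Prime : Set ℕ) := by
      ext p
      simp only [Set.mem_ofPred_eq, Finset.coe_filter, Finset.mem_range]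
      constructor
      · rintro ⟨h1, h2⟩
        exact ⟨by omega, h2⟩
      · rintro ⟨h1, h2⟩
        exact ⟨by omega, h2⟩
    rw [e, Set.ncard_coe_finset]
    unfold Nat.primeCounting Nat.primeCounting'
    rw [Nat.count_eq_card_filter_range]
  rw [h1]
  have h2 : {p | p ≤ x ∧ p.Prime ∧ p ∈ S} ⊆ {p | p ≤ x ∧ p.Prime} := fun p hp => ⟨hp.1, hp.2.1⟩
  exact_mod_cast Set.ncard_le_ncard h2 ((Set.finite_Iic x).subset fun _ h => h.1)

theorem z2_mono (S S' : Set ℕ) (b : ℕ) (h : ∀ p, b < p → p.Prime → p ∈ S → p ∈ S') (x : ℕ) :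
    z2_cnt S x ≤ z2_cnt S' x + (b + 1) := by
  unfold z2_cnt
  have h1 : {p | p ≤ x ∧ p.Prime ∧ p ∈ S} ⊆ {p | p ≤ x ∧ p.Prime ∧ p ∈ S'} ∪ Set.Iic b := by
    intro p hp
    by_cases hb : b < p
    · exact Or.inl ⟨hp.1, hp.2.1, h p hb hp.2.1 hp.2.2⟩
    · exact Or.inr (not_lt.1 hb)
  have h2 := Set.ncard_le_ncard h1 ((z2_fin S' x).union (Set.finite_Iic b))
  have h3 := Set.ncard_union_le {p | p ≤ x ∧ p.Prime ∧ p ∈ S'} (Set.Iic b)
  have h4 : (Set.Iic b).ncard = b + 1 := by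
    rw [← Finset.coe_Iic, Set.ncard_coe_finset, Nat.card_Iic]
  rw [h4] at h3
  exact_mod_cast h2.trans h3

theorem z2_pi : Tendsto (fun x : ℕ => (Nat.primeCounting x : ℝ)) atTop atTop :=
  tendsto_natCast_atTop_atTop.comp Nat.tendsto_primeCounting

/-- A lower density passes to larger sets, up to finitely many primes. -/
theorem HasNatLower.mono {S S' : Set ℕ} {δ δ' : ℝ} (h : HasNatLower S δ) (hδ : δ' ≤ δ) (b : ℕ)
    (hSS' : ∀ p, b < p → p.Prime → p ∈ S → p ∈ S') : HasNatLower S' δ' := by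
  intro d hd
  obtain ⟨e, he1, he2⟩ := exists_between (hd.trans_le hδ)
  filter_upwards [h e he2, z2_pi.eventually_ge_atTop (((b : ℝ) + 1) / (e - d))] with x h1 h2
  have h3 := z2_mono S S' b hSS' x
  rw [div_le_iff₀ (by linarith)] at h2
  have h1' : e * (Nat.primeCounting x : ℝ) ≤ z2_cnt S x := h1
  show d * (Nat.primeCounting x : ℝ) ≤ z2_cnt S' x
  nlinarith

/-- A lower bound for all smaller numbers is a lower bound. -/
theorem hasNatLower_of_forall {S : Set ℕ} {δ : ℝ} (h : ∀ ε > 0, HasNatLower S (δ - ε)) :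
    HasNatLower S δ := by
  intro d hd
  exact h ((δ - d) / 2) (by linarith) d (by linarith)

/-- Lower density 1 means natural density 1. -/
theorem HasNatLower.tendsto_one {S : Set ℕ} (h : HasNatLower S 1) :
    Tendsto (fun x : ℕ => ({p | p ≤ x ∧ p.Prime ∧ p ∈ S}.ncard : ℝ) / (Nat.primeCounting x : ℝ))
      atTop (𝓝 1) := by
  refine tendsto_order.2 ⟨fun a ha => ?_, fun a ha => ?_⟩
  · obtain ⟨e, he1, he2⟩ := exists_between ha
    filter_upwards [h e he2, z2_pi.eventually_gt_atTop 0] with x h1 h2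
    rw [lt_div_iff₀ h2]
    exact lt_of_lt_of_le (mul_lt_mul_of_pos_right he1 h2) h1
  · filter_upwards [z2_pi.eventually_gt_atTop 0] with x h2
    rw [div_lt_iff₀ h2]
    have h3 := z2_le_pi S x
    unfold z2_cnt at h3
    nlinarith

theorem z2_union {S S' : Set ℕ} {δ δ' : ℝ} (h : HasNatLower S δ) (h' : HasNatLower S' δ') (b : ℕ)
    (hd : ∀ p, b < p → p.Prime → p ∈ S → p ∉ S') : HasNatLower (S ∪ S') (δ + δ') := by
  intro d hdd
  obtain ⟨e, he1, he2⟩ := exists_between hdd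
  filter_upwards [h (δ - (δ + δ' - e) / 2) (by linarith), h' (δ' - (δ + δ' - e) / 2) (by linarith),
    z2_pi.eventually_ge_atTop (((b : ℝ) + 1) / (e - d))] with x h1 h2 h3
  rw [div_le_iff₀ (by linarith)] at h3
  have h1' : (δ - (δ + δ' - e) / 2) * (Nat.primeCounting x : ℝ) ≤ z2_cnt S x := h1
  have h2' : (δ' - (δ + δ' - e) / 2) * (Nat.primeCounting x : ℝ) ≤ z2_cnt S' x := h2
  show d * (Nat.primeCounting x : ℝ) ≤ z2_cnt (S ∪ S') x
  have h4 : z2_cnt S x ≤ z2_cnt (S \ S') x + (b + 1) := z2_mono S (S \ S') b (fun p h5 h6 h7 => ⟨h7, hd p h5 h6 h7⟩) x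
  have h5 : z2_cnt (S \ S') x + z2_cnt S' x ≤ z2_cnt (S ∪ S') x := by
    unfold z2_cnt
    have e1 : Disjoint {p | p ≤ x ∧ p.Prime ∧ p ∈ S \ S'} {p | p ≤ x ∧ p.Prime ∧ p ∈ S'} :=
      Set.disjoint_left.2 fun p hp hp' => hp.2.2.2 hp'.2.2
    have e2 := Set.ncard_union_eq e1 (z2_fin _ x) (z2_fin _ x)
    have e3 : {p | p ≤ x ∧ p.Prime ∧ p ∈ S \ S'} ∪ {p | p ≤ x ∧ p.Prime ∧ p ∈ S'} ⊆ {p | p ≤ x ∧ p.Prime ∧ p ∈ S ∪ S'} := by
      rintro p (hp | hp)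
      · exact ⟨hp.1, hp.2.1, Or.inl hp.2.2.1⟩
      · exact ⟨hp.1, hp.2.1, Or.inr hp.2.2⟩
    have e4 := Set.ncard_le_ncard e3 (z2_fin _ x)
    rw [e2] at e4
    exact_mod_cast e4
  nlinarith

theorem z2_sum {ι : Type} (C : Finset ι) (S : ι → Set ℕ) (δ : ι → ℝ) (b : ℕ) (h : ∀ i ∈ C, HasNatLower (S i) (δ i))
    (hd : ∀ i ∈ C, ∀ j ∈ C, i ≠ j → ∀ p, b < p → p.Prime → p ∈ S i → p ∉ S j) :
    HasNatLower (⋃ i ∈ C, S i) (∑ i ∈ C, δ i) := by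
  classical
  induction C using Finset.induction with
  | empty =>
    intro d hd
    rw [Finset.sum_empty] at hd
    filter_upwards with x
    exact (mul_nonpos_of_nonpos_of_nonneg hd.le (Nat.cast_nonneg _)).trans (Nat.cast_nonneg _)
  | insert a C ha ih =>
    rw [Finset.sum_insert ha, Finset.set_biUnion_insert]
    refine z2_union (h a (Finset.mem_insert_self a C)) (ih (fun i hi => h i (Finset.mem_insert_of_mem hi))
      fun i hi j hj => hd i (Finset.mem_insert_of_mem hi) j (Finset.mem_insert_of_mem hj)) b ?_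
    intro p hp1 hp2 hp3 hp4
    rw [Set.mem_iUnion₂] at hp4
    obtain ⟨j, hj, hp5⟩ := hp4
    exact hd a (Finset.mem_insert_self a C) j (Finset.mem_insert_of_mem hj) (fun e => ha (e ▸ hj)) p hp1 hp2 hp3 hp5

/-- Proof: the image of `A` in `Gal(Ω/ℚ) ⧸ N` is the union of finitely many conjugacy classes; sum
`cheb_class` over them: by `exists_bound_frob_conj` a prime `p > b` has Frobenius elements in one
class only, so the sets of primes are disjoint up to finitely many primes. -/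
theorem cheb_union (N : Subgroup Gal(Ω/ℚ)) [N.Normal] (hN : IsOpen (N : Set Gal(Ω/ℚ)))
    (A : Set Gal(Ω/ℚ)) (hA : IsUn N A) (hc : ∀ a ∈ A, ∀ g : Gal(Ω/ℚ), g * a * g⁻¹ ∈ A) :
    HasNatLower {p | ∃ φ ∈ A, IsFrobAt p φ} (frac N A) := by
  classical
  have hgal : IsGalois ℚ Ω := IsAlgClosure.isGalois ℚ Ω
  have hfinq : Finite (Gal(Ω/ℚ) ⧸ N) := Subgroup.quotient_finite_of_isOpen N hN
  have hfq := Fintype.ofFinite (Gal(Ω/ℚ) ⧸ N)
  have hfc : Fintype (ConjClasses (Gal(Ω/ℚ) ⧸ N)) := Fintype.ofFinite _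
  obtain ⟨I, hI⟩ : ∃ I : Set (Gal(Ω/ℚ) ⧸ N), I = (fun g : Gal(Ω/ℚ) => (g : Gal(Ω/ℚ) ⧸ N)) '' A := ⟨_, rfl⟩
  obtain ⟨C, hC⟩ : ∃ C : Finset (ConjClasses (Gal(Ω/ℚ) ⧸ N)), ∀ c, c ∈ C ↔ ∃ a ∈ A, ConjClasses.mk (a : Gal(Ω/ℚ) ⧸ N) = c :=
    ⟨Finset.univ.filter fun c => ∃ a ∈ A, ConjClasses.mk (a : Gal(Ω/ℚ) ⧸ N) = c, fun c => by simp⟩
  -- elements in a class of `C` come from `A`
  have hmemA : ∀ φ : Gal(Ω/ℚ), ConjClasses.mk (φ : Gal(Ω/ℚ) ⧸ N) ∈ C → φ ∈ A := by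
    intro φ hφ
    obtain ⟨a, ha, h1⟩ := (hC _).1 hφ
    rw [ConjClasses.mk_eq_mk_iff_isConj, isConj_iff] at h1
    obtain ⟨c, hcc⟩ := h1
    obtain ⟨g, rfl⟩ := QuotientGroup.mk_surjective c
    have h2 : ((g * a * g⁻¹ : Gal(Ω/ℚ)) : Gal(Ω/ℚ) ⧸ N) = φ := hcc
    have h3 : (g * a * g⁻¹)⁻¹ * φ ∈ N := QuotientGroup.eq.1 h2
    have h4 := hA (g * a * g⁻¹) (hc a ha g) _ h3
    rwa [mul_inv_cancel_left] at h4
  have hIC : I = ⋃ c ∈ C, c.carrier := by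
    ext r
    rw [Set.mem_iUnion₂]
    constructor
    · intro hr
      rw [hI] at hr
      obtain ⟨a, ha, rfl⟩ := hr
      exact ⟨ConjClasses.mk (a : Gal(Ω/ℚ) ⧸ N), (hC _).2 ⟨a, ha, rfl⟩, ConjClasses.mem_carrier_mk⟩
    · rintro ⟨c, hc1, hr⟩
      obtain ⟨φ, rfl⟩ := QuotientGroup.mk_surjective r
      rw [ConjClasses.mem_carrier_iff_mk_eq] at hr
      rw [hI]
      exact ⟨φ, hmemA φ (by rw [hr]; exact hc1), rfl⟩
  have hcard : (Nat.card I : ℝ) = ∑ c ∈ C, (Nat.card c.carrier : ℝ) := by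
    have h1 : I.toFinset = C.biUnion fun c => c.carrier.toFinset := by
      ext r
      rw [Set.mem_toFinset, hIC, Set.mem_iUnion₂, Finset.mem_biUnion]
      simp only [Set.mem_toFinset, exists_prop]
    have h2 : I.toFinset.card = ∑ c ∈ C, c.carrier.toFinset.card := by
      rw [h1]
      refine Finset.card_biUnion fun c _ c' _ hne => ?_
      show Disjoint c.carrier.toFinset c'.carrier.toFinset
      rw [Finset.disjoint_left]
      intro r hr hr'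
      rw [Set.mem_toFinset, ConjClasses.mem_carrier_iff_mk_eq] at hr hr'
      exact hne (hr.symm.trans hr')
    have h3 : ∀ (J : Set (Gal(Ω/ℚ) ⧸ N)) [Fintype J], Nat.card J = J.toFinset.card := by
      intro J _
      rw [Nat.card_eq_fintype_card, Set.toFinset_card]
    rw [h3, h2]
    push_cast
    refine Finset.sum_congr rfl fun c _ => ?_
    rw [h3]
  obtain ⟨b, hb⟩ := exists_bound_frob_conj N hN
  have hsum := z2_sum C (fun c => {p | ∃ φ : Gal(Ω/ℚ), IsFrobAt p φ ∧ ConjClasses.mk (φ : Gal(Ω/ℚ) ⧸ N) = c})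
    (fun c => (Nat.card c.carrier : ℝ) / Nat.card (Gal(Ω/ℚ) ⧸ N)) b (fun c _ => cheb_class N hN c) (by
      rintro c - c' - hne p hbp hp ⟨φ, hφ, h1⟩ ⟨φ', hφ', h2⟩
      obtain ⟨g, hg⟩ := hb p hbp hp φ φ' hφ hφ'
      apply hne
      rw [← h1, ← h2, ConjClasses.mk_eq_mk_iff_isConj]
      have h3 : (φ : Gal(Ω/ℚ) ⧸ N) = (g * φ' * g⁻¹ : Gal(Ω/ℚ)) := QuotientGroup.eq.2 hg
      refine IsConj.symm (isConj_iff.2 ⟨(g : Gal(Ω/ℚ) ⧸ N), ?_⟩)
      rw [h3]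
      rfl)
  have hfrac : frac N A = ∑ c ∈ C, (Nat.card c.carrier : ℝ) / Nat.card (Gal(Ω/ℚ) ⧸ N) := by
    unfold frac
    rw [← Finset.sum_div, ← hcard, hI]
  rw [hfrac]
  refine hsum.mono le_rfl 0 fun p _ _ hp => ?_
  rw [Set.mem_iUnion₂] at hp
  obtain ⟨c, hc1, φ, hφ, h1⟩ := hp
  exact ⟨φ, hmemA φ (by rw [h1]; exact hc1), hφ⟩

/-- From `cheb_class` for the class of `y`, whose density is positive (and `π(x) → ∞`), and
conjugation of the Frobenius element (`isFrobAt_conj`). -/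
theorem cheb_exists (N : Subgroup Gal(Ω/ℚ)) [N.Normal] (hN : IsOpen (N : Set Gal(Ω/ℚ)))
    (y : Gal(Ω/ℚ)) (b : ℕ) :
    ∃ p : ℕ, b < p ∧ p.Prime ∧ ∃ φ : Gal(Ω/ℚ), IsFrobAt p φ ∧ y⁻¹ * φ ∈ N := by
  have hgal : IsGalois ℚ Ω := IsAlgClosure.isGalois ℚ Ω
  have hfinq : Finite (Gal(Ω/ℚ) ⧸ N) := Subgroup.quotient_finite_of_isOpen N hN
  have h1 := cheb_class N hN (ConjClasses.mk (y : Gal(Ω/ℚ) ⧸ N))
  have hpos : (0 : ℝ) < (Nat.card (ConjClasses.mk (y : Gal(Ω/ℚ) ⧸ N)).carrier : ℝ) / Nat.card (Gal(Ω/ℚ) ⧸ N) := by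
    have e1 : 0 < Nat.card (ConjClasses.mk (y : Gal(Ω/ℚ) ⧸ N)).carrier := by
      have : Nonempty (ConjClasses.mk (y : Gal(Ω/ℚ) ⧸ N)).carrier := ⟨⟨_, ConjClasses.mem_carrier_mk⟩⟩
      exact Nat.card_pos
    have e2 : 0 < Nat.card (Gal(Ω/ℚ) ⧸ N) := Nat.card_pos
    positivity
  obtain ⟨d, hd0, hd1⟩ := exists_between hpos
  obtain ⟨x, h2, h3⟩ := ((h1 d hd1).and (z2_pi.eventually_gt_atTop (((b : ℝ) + 1) / d))).exists
  rw [div_lt_iff₀ hd0] at h3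
  have h4 : ((b : ℝ) + 1) < z2_cnt {p | ∃ φ : Gal(Ω/ℚ), IsFrobAt p φ ∧
      ConjClasses.mk (φ : Gal(Ω/ℚ) ⧸ N) = ConjClasses.mk (y : Gal(Ω/ℚ) ⧸ N)} x := by
    refine lt_of_lt_of_le ?_ h2
    rw [mul_comm]
    exact h3
  have h5 : ∃ p : ℕ, b < p ∧ p.Prime ∧ ∃ φ : Gal(Ω/ℚ), IsFrobAt p φ ∧
      ConjClasses.mk (φ : Gal(Ω/ℚ) ⧸ N) = ConjClasses.mk (y : Gal(Ω/ℚ) ⧸ N) := by
    by_contra hcon
    push Not at hcon
    have h6 := z2_mono _ ∅ b (fun p hp1 hp2 (hp3 : p ∈ {p | ∃ φ : Gal(Ω/ℚ), IsFrobAt p φ ∧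
      ConjClasses.mk (φ : Gal(Ω/ℚ) ⧸ N) = ConjClasses.mk (y : Gal(Ω/ℚ) ⧸ N)}) => by
        obtain ⟨φ, hφ, h7⟩ := hp3
        exact absurd h7 (hcon p hp1 hp2 φ hφ)) x
    have h8 : z2_cnt ∅ x = 0 := by
      unfold z2_cnt
      have : {p | p ≤ x ∧ p.Prime ∧ p ∈ (∅ : Set ℕ)} = ∅ := by
        ext p
        simp
      rw [this, Set.ncard_empty, Nat.cast_zero]
    rw [h8] at h6
    linarith
  obtain ⟨p, hbp, hp, φ, hφ, h7⟩ := h5
  rw [ConjClasses.mk_eq_mk_iff_isConj, isConj_iff] at h7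
  obtain ⟨c, hcc⟩ := h7
  obtain ⟨g, rfl⟩ := QuotientGroup.mk_surjective c
  have h8 : ((g * φ * g⁻¹ : Gal(Ω/ℚ)) : Gal(Ω/ℚ) ⧸ N) = y := hcc
  have h9 := isFrobAt_conj hφ g⁻¹
  rw [inv_inv] at h9
  exact ⟨p, hbp, hp, g * φ * g⁻¹, h9, QuotientGroup.eq.1 h8.symm⟩

end Pool.Agent.Lib.H81D
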