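import Mathlib
import Pool.Agent.Lib.H81D.E0
import Pool.Agent.Lib.H81D.Z2

/-!
# Chunk E3 (S/M): Frobenius elements in open sets
-/

namespace Pool.Agent.Lib.H81D

open Polynomial Module Filter Topology NumberField Pool.Agent.GSem Pool.Agent.GSD Pool.Agent.Ord

variable {Ω : Type} [Field Ω] [CharZero Ω] [IsAlgClosure ℚ Ω] {Γ : Subgroup Gal(Ω/ℚ)} {n : ℕ}

/-- Proof: as in `exists_frob_separable` (`GSD/Frob`): the image of `g⁻¹ U` in `Gal(Ω/ℚ)` is an open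
neighbourhood of 1, so it contains an open normal subgroup `N`
(`ProfiniteGrp.exist_openNormalSubgroup_sub_open_nhds_of_one`); `cheb_exists N g b`. -/
theorem exists_frob_mem (hΓ : IsOpen (Γ : Set Gal(Ω/ℚ))) (U : Set Γ) (hU : IsOpen U) (g : Γ)
    (hg : g ∈ U) (b : ℕ) :
    ∃ q : ℕ, b < q ∧ q.Prime ∧ ∃ φ ∈ U, IsFrobAt q (φ : Gal(Ω/ℚ)) := by
  have hgal : IsGalois ℚ Ω := IsAlgClosure.isGalois ℚ Ω
  have h1 : IsOpen ((fun u : Γ => g⁻¹ * u) '' U) := (Homeomorph.mulLeft g⁻¹).isOpenMap U hU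
  have h2 : IsOpen (((↑) : Γ → Gal(Ω/ℚ)) '' ((fun u : Γ => g⁻¹ * u) '' U)) :=
    hΓ.isOpenMap_subtype_val _ h1
  have h3 : (1 : Gal(Ω/ℚ)) ∈ ((↑) : Γ → Gal(Ω/ℚ)) '' ((fun u : Γ => g⁻¹ * u) '' U) := by
    refine ⟨1, ⟨g, hg, ?_⟩, rfl⟩
    exact inv_mul_cancel g
  obtain ⟨N, hN⟩ := ProfiniteGrp.exist_openNormalSubgroup_sub_open_nhds_of_one h2 h3
  obtain ⟨q, hbq, hq, φ, hφ, h4⟩ := cheb_exists N.toSubgroup N.isOpen' (g : Gal(Ω/ℚ)) b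
  obtain ⟨_, ⟨u, hu, rfl⟩, h5⟩ := hN h4
  have h6 : (u : Gal(Ω/ℚ)) = φ := by
    have h7 : ((g⁻¹ * u : Γ) : Gal(Ω/ℚ)) = (g : Gal(Ω/ℚ))⁻¹ * (u : Gal(Ω/ℚ)) := rfl
    rw [h7] at h5
    exact mul_left_cancel h5
  exact ⟨q, hbq, hq, u, hu, by rw [h6]; exact hφ⟩

/-- `U = {φ | ∀ j, Cg N (kap φ) (kap g)}` is open: `continuous_kap`, closed balls of positive radius
in `ℚ_[l]` are open. -/
theorem exists_frob_cg (hΓ : IsOpen (Γ : Set Gal(Ω/ℚ))) {J : Type} [Finite J] (l : J → ℕ)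
    [∀ j, Fact (l j).Prime] (r : ∀ j, Representation ℚ_[l j] Γ (Fin n → ℚ_[l j]))
    (hr : ∀ j, IsCont (r j)) (g : Γ) (N b : ℕ) :
    ∃ q : ℕ, b < q ∧ q.Prime ∧ ∃ φ : Γ, IsFrobAt q (φ : Gal(Ω/ℚ)) ∧
      ∀ j, Cg N (kap (r j) φ) (kap (r j) g) := by
  obtain ⟨U, hU⟩ : ∃ U : Set Γ, U = ⋂ j, {φ | Cg N (kap (r j) φ) (kap (r j) g)} := ⟨_, rfl⟩
  have hUo : IsOpen U := by
    rw [hU]
    refine isOpen_iInter_of_finite fun j => ?_
    have e : {φ : Γ | Cg N (kap (r j) φ) (kap (r j) g)} =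
        ⋂ a, ⋂ c, {φ | ‖kap (r j) φ a c - kap (r j) g a c‖ ≤ ((l j : ℝ) ^ N)⁻¹} := by
      ext φ
      simp only [Set.mem_iInter, Set.mem_ofPred_eq]
      rfl
    rw [e]
    refine isOpen_iInter_of_finite fun a => isOpen_iInter_of_finite fun c => ?_
    have hlpos : (0 : ℝ) < l j := by exact_mod_cast (Fact.out : (l j).Prime).pos
    have hball : IsOpen (Metric.closedBall (kap (r j) g a c) (((l j : ℝ) ^ N)⁻¹)) :=
      IsUltrametricDist.isOpen_closedBall _ (by positivity)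
    have hcont : Continuous fun φ : Γ => kap (r j) φ a c :=
      ((continuous_kap (r j) (hr j)).matrix_elem a c)
    have h1 := hball.preimage hcont
    have e2 : {φ : Γ | ‖kap (r j) φ a c - kap (r j) g a c‖ ≤ ((l j : ℝ) ^ N)⁻¹} =
        (fun φ : Γ => kap (r j) φ a c) ⁻¹' Metric.closedBall (kap (r j) g a c) (((l j : ℝ) ^ N)⁻¹) := by
      ext φ
      rw [Set.mem_preimage, Metric.mem_closedBall, dist_eq_norm]
      rfl
    rw [e2]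
    exact h1
  have hgU : g ∈ U := by
    rw [hU, Set.mem_iInter]
    exact fun j => Cg.refl _ _
  obtain ⟨q, h1, h2, φ, h3, h4⟩ := exists_frob_mem hΓ U hUo g hgU b
  rw [hU, Set.mem_iInter] at h3
  exact ⟨q, h1, h2, φ, h4, h3⟩

end Pool.Agent.Lib.H81D
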