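import Mathlib
import Pool.Agent.Lib.H81D.E2
import Pool.Agent.Lib.H81D.E3
import Pool.Agent.Lib.H81D.B3

/-!
# Chunk E4 (S/M): transfer at finitely many primes
-/

namespace Pool.Agent.Lib.H81D

open Polynomial Module Filter Topology NumberField Pool.Agent.GSem Pool.Agent.GSD Pool.Agent.Ord

variable {Ω : Type} [Field Ω] [CharZero Ω] [IsAlgClosure ℚ Ω] {Γ : Subgroup Gal(Ω/ℚ)} {n : ℕ}
  {ρ : ∀ (p : ℕ) [Fact p.Prime], Representation ℚ_[p] Γ (Fin n → ℚ_[p])} {w : ℤ}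

/-- Proof: `Γ` is a compact topological group (closed, being open, in the compact group `Gal(Ω/ℚ)`).
`B` from `exists_comb` for `κ j = kap (ρ (l j))`, `f j = φ j`; `N j` from `transfer` for this `B`, `N` their
maximum; `g` from `exists_comb`; `φ'` from `exists_frob_cg` for `g`, `N` and `b` larger than all `l j` and
all elements of the exceptional set `T` of `hsys`; `P` from `hsys`. `Cg.trans`, `Cg.mono`. -/
theorem exists_transfer (hΓ : IsOpen (Γ : Set Gal(Ω/ℚ)))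
    (hcont : ∀ (p : ℕ) [Fact p.Prime], IsCont (ρ p)) (hsys : IsPureSys ρ w)
    {J : Type} [Finite J] [Nonempty J] (q : J → ℕ) (φ : J → Γ) (P : J → ℚ[X])
    (hd : ∀ j, IsDatum ρ w (q j) (φ j) (P j)) (hn : ∀ j, IsNeat Ω (P j))
    (l : J → ℕ) [∀ j, Fact (l j).Prime] (hl : Function.Injective l) (hlq : ∀ j, l j ≠ q j) :
    ∃ (q' : ℕ) (φ' : Γ) (P' : ℚ[X]), IsDatum ρ w q' φ' P' ∧ P'.Separable ∧
      ∀ (j : J) (ι : Ω →+* PadicAlgCl (l j)) (σ : Gal(PadicAlgCl (l j)/ℚ_[l j]))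
        (h : Gal(Ω/ℚ)), Compat ι σ h →
          (h ∈ kerP Ω (P j) → h ∈ kerP Ω P') ∧ (IsOdd w (q j) (P j) h → IsOdd w q' P' h) := by
  classical
  have hGal : IsGalois ℚ Ω := isGaloisΩ
  have : Fintype J := Fintype.ofFinite J
  have hcomp : CompactSpace Γ := by
    have h1 : IsClosed (Γ : Set Gal(Ω/ℚ)) := Subgroup.isClosed_of_isOpen Γ hΓ
    exact isCompact_iff_compactSpace.1 h1.isCompact
  obtain ⟨B, hB, hcomb⟩ := exists_comb l hl (fun j => kap (ρ (l j)))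
    (fun j => continuous_kap _ (hcont (l j))) φ
  choose Nj hNj using fun j => transfer (hd j) (hn j) (l j) (hlq j) hB
  obtain ⟨g, hg⟩ := hcomb (Finset.univ.sup Nj)
  obtain ⟨T, hT⟩ := hsys
  obtain ⟨q', hbq, hq', φ', hφ', hcg⟩ := exists_frob_cg hΓ l (fun j => ρ (l j))
    (fun j => hcont (l j)) g (Finset.univ.sup Nj) (max (Finset.univ.sup l) (T.sup id))
  have hqT : q' ∉ T := by
    intro h
    have h1 : q' ≤ T.sup id := Finset.le_sup (f := id) h
    exact absurd (lt_of_le_of_lt (le_max_right _ _) hbq) (not_lt.2 h1)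
  have hql : ∀ j, q' ≠ l j := fun j => (lt_of_le_of_lt
    ((Finset.le_sup (f := l) (Finset.mem_univ j)).trans (le_max_left _ _)) hbq).ne'
  obtain ⟨P', hP'w, hP'⟩ := hT q' hq' hqT φ' hφ'
  have hd' : IsDatum ρ w q' φ' P' := ⟨hq', hP'w, hφ', hP'⟩
  have hj : ∀ j, P'.Separable ∧ ∀ (ι : Ω →+* PadicAlgCl (l j))
      (σ : Gal(PadicAlgCl (l j)/ℚ_[l j])) (h : Gal(Ω/ℚ)), Compat ι σ h →
        (h ∈ kerP Ω (P j) → h ∈ kerP Ω P') ∧ (IsOdd w (q j) (P j) h → IsOdd w q' P' h) := by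
    intro j
    refine hNj j q' φ' P' hd' (hql j) ?_
    exact ((hcg j).trans (hg j)).mono (Finset.le_sup (Finset.mem_univ j))
  exact ⟨q', φ', P', hd', (hj (Classical.arbitrary J)).1, fun j => (hj j).2⟩

end Pool.Agent.Lib.H81D
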