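import Mathlib
import Pool.Agent.Lib.H81D.E4
import Pool.Agent.Lib.H81D.D3

/-!
# Chunk E5 (M): the key lemma
-/

namespace Pool.Agent.Lib.H81D

open Polynomial Module Filter Topology NumberField Pool.Agent.GSem Pool.Agent.GSD Pool.Agent.Ord

variable {Ω : Type} [Field Ω] [CharZero Ω] [IsAlgClosure ℚ Ω] {Γ : Subgroup Gal(Ω/ℚ)} {n : ℕ}
  {ρ : ∀ (p : ℕ) [Fact p.Prime], Representation ℚ_[p] Γ (Fin n → ℚ_[p])} {w : ℤ}

/-- Proof: `Gal(Ω/ℚ) ⧸ N'` is finite. Let `C` be the finite type of the classes which contain an element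
of `kerP x.2` for some `x ∈ X`; choose for `c ∈ C` such `x c` and `g c ∈ kerP (x c).2`. `J = Option C`; for
`some c` take the datum of `x c`, the subgroup `N' ⊓ kerP (x c).2` and `y = g c`; for `none` take the datum
of `x0`, `N' ⊓ kerP x0.2` and `y = τ0`. `exists_locals` with `b` larger than all `x.1` gives different
primes `l j ≠ q j` and `ι`, `σ`, `h`; `exists_transfer` gives the datum `(q', φ', P')`.
(1) `h (some c) ∈ g c (N' ⊓ kerP (x c).2) ⊆ kerP (x c).2`, so `h (some c) ∈ kerP P'`. Let `x ∈ X`, `a ∈ kerP x.2`, `c`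
the class of `a`: `a ∈ g c N' = h (some c) N'`, so `a ∈ kerP P' ⊔ N'`.
(2) `τ' = h none ∈ τ0 (N' ⊓ kerP x0.2)` is odd for `x0` (`IsOdd.mul_ker`), so for `P'`. -/
theorem key (hΓ : IsOpen (Γ : Set Gal(Ω/ℚ)))
    (hcont : ∀ (p : ℕ) [Fact p.Prime], IsCont (ρ p)) (hsys : IsPureSys ρ w)
    (X : Set (ℕ × ℚ[X])) (hX : ∀ x ∈ X, IsFrobPoly ρ w x.1 x.2 ∧ IsNeat Ω x.2)
    {x0 : ℕ × ℚ[X]} (hx0 : x0 ∈ X) {τ0 : Gal(Ω/ℚ)} (hτ0 : IsOdd w x0.1 x0.2 τ0)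
    (N' : Subgroup Gal(Ω/ℚ)) [N'.Normal] (hN' : IsOpen (N' : Set Gal(Ω/ℚ))) :
    ∃ (q : ℕ) (P : ℚ[X]), IsFrobPoly ρ w q P ∧ P.Separable ∧
      (∀ x ∈ X, kerP Ω x.2 ≤ kerP Ω P ⊔ N') ∧
      ∃ τ' : Gal(Ω/ℚ), τ0⁻¹ * τ' ∈ N' ∧ IsOdd w q P τ' := by
  classical
  have hGal : IsGalois ℚ Ω := isGaloisΩ
  have hfin : Finite (Gal(Ω/ℚ) ⧸ N') := finite_quotient N' hN'
  let C : Type := {c : Gal(Ω/ℚ) ⧸ N' // ∃ x ∈ X, ∃ g ∈ kerP Ω x.2, (g : Gal(Ω/ℚ) ⧸ N') = c}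
  have hC : ∀ c : C, ∃ x ∈ X, ∃ g ∈ kerP Ω x.2, (g : Gal(Ω/ℚ) ⧸ N') = c.1 := fun c => c.2
  choose xc hxc gc hgc hgcc using hC
  have hdat : ∀ x ∈ X, ∃ φ : Γ, IsDatum ρ w x.1 φ x.2 := fun x hx =>
    (isFrobPoly_iff ρ w x.1 x.2).1 (hX x hx).1
  let xj : Option C → ℕ × ℚ[X] := fun j => j.elim x0 xc
  have hxj : ∀ j, xj j ∈ X := by
    intro j
    cases j with
    | none => exact hx0
    | some c => exact hxc c
  choose φj hφj using fun j : Option C => hdat (xj j) (hxj j)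
  let yj : Option C → Gal(Ω/ℚ) := fun j => j.elim τ0 gc
  let Nj : Option C → Subgroup Gal(Ω/ℚ) := fun j => N' ⊓ kerP Ω (xj j).2
  have hne : ∀ j, (xj j).2 ≠ 0 := fun j => (hφj j).monic.ne_zero
  have hNn : ∀ j, (Nj j).Normal := fun j => inferInstanceAs (N' ⊓ kerP Ω (xj j).2).Normal
  have hNo : ∀ j, IsOpen (Nj j : Set Gal(Ω/ℚ)) := fun j => hN'.inter (isOpen_kerP (hne j))
  have : Fintype (Option C) := Fintype.ofFinite _
  obtain ⟨l, hlp, hlinj, hlb, hloc⟩ := exists_locals Nj hNn hNo yj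
    (Finset.univ.sup fun j => (xj j).1)
  have hlq : ∀ j, l j ≠ (xj j).1 := fun j =>
    (lt_of_le_of_lt (Finset.le_sup (f := fun j => (xj j).1) (Finset.mem_univ j)) (hlb j)).ne'
  obtain ⟨q', φ', P', hd', hsep', htr⟩ := exists_transfer hΓ hcont hsys (fun j => (xj j).1) φj
    (fun j => (xj j).2) hφj (fun j => (hX _ (hxj j)).2) l hlinj hlq
  refine ⟨q', P', (isFrobPoly_iff ρ w q' P').2 ⟨φ', hd'⟩, hsep', fun x hx a ha => ?_, ?_⟩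
  · let c : C := ⟨(a : Gal(Ω/ℚ) ⧸ N'), x, hx, a, ha, rfl⟩
    obtain ⟨ι, σ, h, hcomp, hh⟩ := hloc (some c)
    have h1 : (gc c)⁻¹ * h ∈ N' ⊓ kerP Ω (xc c).2 := hh
    have h2 : h ∈ kerP Ω (xc c).2 := by
      have h3 := (kerP Ω (xc c).2).mul_mem (hgc c) h1.2
      rwa [mul_inv_cancel_left] at h3
    have h3 : h ∈ kerP Ω P' := (htr (some c) ι σ h hcomp).1 h2
    have h4 : (gc c)⁻¹ * a ∈ N' := QuotientGroup.eq.1 (hgcc c)
    have h5 : h⁻¹ * a ∈ N' := by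
      have h6 := N'.mul_mem (N'.inv_mem h1.1) h4
      have h7 : ((gc c)⁻¹ * h)⁻¹ * ((gc c)⁻¹ * a) = h⁻¹ * a := by group
      rwa [h7] at h6
    have h6 : a = h * (h⁻¹ * a) := by group
    rw [h6]
    exact Subgroup.mul_mem_sup h3 h5
  · obtain ⟨ι, σ, h, hcomp, hh⟩ := hloc none
    have h1 : τ0⁻¹ * h ∈ N' ⊓ kerP Ω x0.2 := hh
    refine ⟨h, h1.1, (htr none ι σ h hcomp).2 ?_⟩
    have h2 := hτ0.mul_ker h1.2
    rwa [mul_inv_cancel_left] at h2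

end Pool.Agent.Lib.H81D
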