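import Mathlib
import Pool.Agent.Lib.H81D.E5

/-!
# Chunk E6 (S): the key lemma, second form
-/

namespace Pool.Agent.Lib.H81D

open Polynomial Module Filter Topology NumberField Pool.Agent.GSem Pool.Agent.GSD Pool.Agent.Ord

variable {Ω : Type} [Field Ω] [CharZero Ω] [IsAlgClosure ℚ Ω] {Γ : Subgroup Gal(Ω/ℚ)} {n : ℕ}
  {ρ : ∀ (p : ℕ) [Fact p.Prime], Representation ℚ_[p] Γ (Fin n → ℚ_[p])} {w : ℤ}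

/-- Proof: take `q`, `P`, `τ'` from `key`. The supremum `N00` of the `kerP x.2` is contained in
`kerP P ⊔ N'`. Let `s0 = τ0 * u0`, `u0 ∈ N00`; `u0 = u * v`, `u ∈ kerP P`, `v ∈ N'` (`Subgroup.mem_sup`,
`Subgroup.mul_normal`); `τ0 = τ' * t`, `t ∈ N'`; `s = τ' * u` is odd for `P` (`IsOdd.mul_ker`), and
`s0⁻¹ * s ∈ N'` as `s0 = τ' t u v = τ' u (u⁻¹ t u) v`. -/
theorem key2 (hΓ : IsOpen (Γ : Set Gal(Ω/ℚ)))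
    (hcont : ∀ (p : ℕ) [Fact p.Prime], IsCont (ρ p)) (hsys : IsPureSys ρ w)
    (X : Set (ℕ × ℚ[X])) (hX : ∀ x ∈ X, IsFrobPoly ρ w x.1 x.2 ∧ IsNeat Ω x.2)
    {x0 : ℕ × ℚ[X]} (hx0 : x0 ∈ X) {τ0 : Gal(Ω/ℚ)} (hτ0 : IsOdd w x0.1 x0.2 τ0)
    (N' : Subgroup Gal(Ω/ℚ)) [N'.Normal] (hN' : IsOpen (N' : Set Gal(Ω/ℚ))) :
    ∃ (q : ℕ) (P : ℚ[X]), IsFrobPoly ρ w q P ∧ P.Separable ∧
      ∀ s0 : Gal(Ω/ℚ), τ0⁻¹ * s0 ∈ (⨆ x ∈ X, kerP Ω x.2) →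
        ∃ s : Gal(Ω/ℚ), s0⁻¹ * s ∈ N' ∧ IsOdd w q P s := by
  obtain ⟨q, P, hqP, hsep, hker, τ', hτ', hodd⟩ := key hΓ hcont hsys X hX hx0 hτ0 N' hN'
  refine ⟨q, P, hqP, hsep, fun s0 hs0 => ?_⟩
  have h1 : (⨆ x ∈ X, kerP Ω x.2) ≤ kerP Ω P ⊔ N' := iSup₂_le hker
  have h2 := h1 hs0
  rw [← SetLike.mem_coe, Subgroup.mul_normal] at h2
  obtain ⟨u, hu, v, hv, huv⟩ := h2
  refine ⟨τ' * u, ?_, hodd.mul_ker hu⟩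
  have h3 : s0 = τ0 * (u * v) := by
    have h4 : u * v = τ0⁻¹ * s0 := huv
    rw [h4, mul_inv_cancel_left]
  have h5 : s0⁻¹ * (τ' * u) = v⁻¹ * (u⁻¹ * (τ0⁻¹ * τ') * u) := by
    rw [h3]
    group
  rw [h5]
  refine N'.mul_mem (N'.inv_mem hv) ?_
  have h6 := (inferInstance : N'.Normal).conj_mem _ hτ' u⁻¹
  rwa [inv_inv] at h6

end Pool.Agent.Lib.H81D
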