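import Mathlib
import Pool.Agent.Lib.H81D.A1

/-!
# Chunk R1 (M): roots of unity in the quotients of roots
-/

namespace Pool.Agent.Lib.H81D

open Polynomial Module Filter Topology NumberField Pool.Agent.GSem Pool.Agent.GSD Pool.Agent.Ord

/-- Proof: let `d` be the order of the root of unity `ζ = z / z'`. `ζ ∈ ℚ(z, z')`, of degree at most `n ^ 2`
over `ℚ`, so `φ(d) ≤ n ^ 2` (`IsPrimitiveRoot.totient_le_degree_minpoly` or
`IsPrimitiveRoot.minpoly_eq_cyclotomic_of_irreducible`). If `p ^ e` is the exact power of a prime `p` in `d`, then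
`p ^ e ≤ 2 (p - 1) p ^ (e - 1) = 2 φ(p ^ e) ≤ 2 φ(d) ≤ 2 n ^ 2`, so `p ^ e` divides `(2 n ^ 2)!`; hence `d` divides
`M = (2 n ^ 2)!` and `ζ ^ M = 1`. -/
theorem exists_exp (Ω : Type) [Field Ω] [CharZero Ω] (n : ℕ) :
    ∃ M : ℕ, 0 < M ∧ ∀ P : ℚ[X], P ≠ 0 → P.natDegree ≤ n → ∀ z z' : Ω, aeval z P = 0 →
      aeval z' P = 0 → z' ≠ 0 → ∀ k : ℕ, 0 < k → z ^ k = z' ^ k → z ^ M = z' ^ M := by
  refine ⟨(2 * n ^ 2).factorial, Nat.factorial_pos _, ?_⟩
  intro P hP0 hPn z z' hz hz' hz'0 k hk hzk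
  obtain ⟨ζ, hζ⟩ : ∃ ζ : Ω, ζ = z / z' := ⟨_, rfl⟩
  have h1 : ζ ^ k = 1 := by rw [hζ, div_pow, hzk, div_self (pow_ne_zero k hz'0)]
  have hd0 : 0 < orderOf ζ := orderOf_pos_iff.2 (isOfFinOrder_iff_pow_eq_one.2 ⟨k, hk, h1⟩)
  have hprim : IsPrimitiveRoot ζ (orderOf ζ) := IsPrimitiveRoot.orderOf ζ
  have hmin : ∀ y : Ω, aeval y P = 0 → IsIntegral ℚ y ∧ finrank ℚ (IntermediateField.adjoin ℚ {y}) ≤ n := by
    intro y hy
    have hint : IsIntegral ℚ y := (isAlgebraic_iff_isIntegral).1 ⟨P, hP0, hy⟩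
    refine ⟨hint, ?_⟩
    rw [IntermediateField.adjoin.finrank hint]
    exact (natDegree_le_of_dvd (minpoly.dvd ℚ y hy) hP0).trans hPn
  obtain ⟨hi, hf⟩ := hmin z hz
  obtain ⟨hi', hf'⟩ := hmin z' hz'
  have hζi : IsIntegral ℚ ζ := hprim.isIntegral hd0 |>.tower_top
  have htot : Nat.totient (orderOf ζ) ≤ n ^ 2 := by
    have e1 : finrank ℚ (IntermediateField.adjoin ℚ {ζ}) = Nat.totient (orderOf ζ) := by
      rw [IntermediateField.adjoin.finrank hζi, ← cyclotomic_eq_minpoly_rat hprim hd0, natDegree_cyclotomic]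
    rw [← e1]
    have hle : IntermediateField.adjoin ℚ {ζ} ≤ IntermediateField.adjoin ℚ {z} ⊔ IntermediateField.adjoin ℚ {z'} := by
      rw [IntermediateField.adjoin_simple_le_iff, hζ]
      refine div_mem ?_ ?_
      · exact (le_sup_left : IntermediateField.adjoin ℚ {z} ≤ _) (IntermediateField.mem_adjoin_simple_self ℚ z)
      · exact (le_sup_right : IntermediateField.adjoin ℚ {z'} ≤ _) (IntermediateField.mem_adjoin_simple_self ℚ z')
    have fd1 : FiniteDimensional ℚ (IntermediateField.adjoin ℚ {z}) := IntermediateField.adjoin.finiteDimensional hi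
    have fd2 : FiniteDimensional ℚ (IntermediateField.adjoin ℚ {z'}) := IntermediateField.adjoin.finiteDimensional hi'
    have fd3 : FiniteDimensional ℚ (IntermediateField.adjoin ℚ {z} ⊔ IntermediateField.adjoin ℚ {z'} : IntermediateField ℚ Ω) :=
      IntermediateField.finiteDimensional_sup _ _
    have h2 : finrank ℚ (IntermediateField.adjoin ℚ {ζ}) ≤
        finrank ℚ (IntermediateField.adjoin ℚ {z} ⊔ IntermediateField.adjoin ℚ {z'} : IntermediateField ℚ Ω) :=
      LinearMap.finrank_le_finrank_of_injective (f := (IntermediateField.inclusion hle).toLinearMap)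
        (IntermediateField.inclusion hle).injective
    refine h2.trans ((IntermediateField.finrank_sup_le _ _).trans ?_)
    rw [sq]
    exact Nat.mul_le_mul hf hf'
  have hdvd : orderOf ζ ∣ (2 * n ^ 2).factorial := by
    rw [Nat.dvd_iff_prime_pow_dvd_dvd]
    intro p e hp hpe
    rcases Nat.eq_zero_or_pos e with rfl | he
    · simp
    · refine Nat.dvd_factorial (pow_pos hp.pos _) ?_
      have h3 : Nat.totient (p ^ e) ≤ Nat.totient (orderOf ζ) :=
        Nat.le_of_dvd (Nat.totient_pos.2 hd0) (Nat.totient_dvd_of_dvd hpe)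
      rw [Nat.totient_prime_pow hp he] at h3
      have h4 : p ^ e = p ^ (e - 1) * p := by
        rw [← pow_succ]
        congr 1
        omega
      have h5 : p ≤ 2 * (p - 1) := by
        have := hp.two_le
        omega
      calc p ^ e = p ^ (e - 1) * p := h4
        _ ≤ p ^ (e - 1) * (2 * (p - 1)) := Nat.mul_le_mul_left _ h5
        _ = 2 * (p ^ (e - 1) * (p - 1)) := by ring
        _ ≤ 2 * n ^ 2 := Nat.mul_le_mul_left _ (h3.trans htot)
  have h6 : ζ ^ (2 * n ^ 2).factorial = 1 := orderOf_dvd_iff_pow_eq_one.1 hdvd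
  rw [hζ, div_pow, div_eq_one_iff_eq (pow_ne_zero _ hz'0)] at h6
  exact h6

end Pool.Agent.Lib.H81D
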