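import Mathlib
import Pool.Agent.Lib.H81D.R1
import Pool.Agent.Lib.H81D.E1
import Pool.Agent.Lib.H81D.E3
import Pool.Agent.Lib.Helper4.GSD.Conj

/-!
# Chunk R2 (M): neat Frobenius polynomials
-/

namespace Pool.Agent.Lib.H81D

open Polynomial Module Filter Topology NumberField Pool.Agent.GSem Pool.Agent.GSD Pool.Agent.Ord

variable {Ω : Type} [Field Ω] [CharZero Ω] [IsAlgClosure ℚ Ω] {Γ : Subgroup Gal(Ω/ℚ)} {n : ℕ}
  {ρ : ∀ (p : ℕ) [Fact p.Prime], Representation ℚ_[p] Γ (Fin n → ℚ_[p])} {w : ℤ}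

open Classical in
theorem r2_card {l : ℕ} [Fact l.Prime] {f : ℚ_[l][X]} (hs : f.Separable) :
    ((f.aroots (PadicAlgCl l)).toFinset).card = f.natDegree := by
  rw [Multiset.toFinset_card_of_nodup (nodup_roots hs.map),
    ← (IsAlgClosed.splits (f.map (algebraMap ℚ_[l] (PadicAlgCl l)))).natDegree_eq_card_roots, natDegree_map]

open Classical in
theorem r2_mem {l : ℕ} [Fact l.Prime] {f : ℚ_[l][X]} (h0 : f ≠ 0) (z : PadicAlgCl l) :
    z ∈ (f.aroots (PadicAlgCl l)).toFinset ↔ aeval z f = 0 := by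
  rw [Multiset.mem_toFinset, mem_aroots]
  exact ⟨fun h => h.2, fun h => ⟨h0, h⟩⟩

/-- If the charpoly of `A ^ M` is separable, then `a ↦ a ^ M` is injective on the roots of the
charpoly of `A`. -/
theorem r2_inj {l : ℕ} [Fact l.Prime] {n : ℕ} (A : Matrix (Fin n) (Fin n) ℚ_[l]) {M : ℕ} (hM : 0 < M)
    (hA : A.charpoly.Separable) (hAM : (A ^ M).charpoly.Separable) {a a' : PadicAlgCl l}
    (ha : aeval a A.charpoly = 0) (ha' : aeval a' A.charpoly = 0) (h : a ^ M = a' ^ M) : a = a' := by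
  classical
  have h1 : ((A.charpoly.aroots (PadicAlgCl l)).toFinset).image (fun z => z ^ M) =
      ((A ^ M).charpoly.aroots (PadicAlgCl l)).toFinset := by
    ext y
    rw [Finset.mem_image, r2_mem (Matrix.charpoly_monic (A ^ M)).ne_zero, root_pow_iff A hM]
    constructor
    · rintro ⟨z, hz, hy⟩
      exact ⟨z, (r2_mem (Matrix.charpoly_monic A).ne_zero z).1 hz, hy⟩
    · rintro ⟨z, hz, hy⟩
      exact ⟨z, (r2_mem (Matrix.charpoly_monic A).ne_zero z).2 hz, hy⟩
  have h2 : (((A.charpoly.aroots (PadicAlgCl l)).toFinset).image (fun z => z ^ M)).card =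
      ((A.charpoly.aroots (PadicAlgCl l)).toFinset).card := by
    rw [h1, r2_card hA, r2_card hAM, Matrix.charpoly_natDegree_eq_dim, Matrix.charpoly_natDegree_eq_dim]
  have h3 := Finset.card_image_iff.1 h2
  exact h3 (Finset.mem_coe.2 ((r2_mem (Matrix.charpoly_monic A).ne_zero a).2 ha))
    (Finset.mem_coe.2 ((r2_mem (Matrix.charpoly_monic A).ne_zero a').2 ha')) h

/-- Proof: `M` from `exists_exp Ω n`, `g` with the charpoly of `ρ p (g ^ M)` separable. The set
`U = {x | dsc (mat (ρ p) x ^ M) ≠ 0}` is open (`continuous_mat`, `continuous_dsc`) and contains `g`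
(`dsc_ne_zero_iff`, `mat_charpoly`, `mat_pow`). `exists_frob_mem` gives a Frobenius element `φ ∈ U` at a prime
`q > p`, `q` not in the exceptional set; `P` from `hsys`. The charpoly of `A ^ M`, `A = mat (ρ p) φ`, is separable, of
degree `n`, and its roots are the `a ^ M`, `a` a root of the charpoly of `A` (`root_pow_iff`); so the charpoly of
`A` has `n` different roots (`dsc_ne_zero_of_pow`: it is separable, so `P` is) and `a ↦ a ^ M` is injective on
them (count). The roots `z` of `P` in `Ω` give the roots `ι z` (`ι` any embedding). If `z ^ k = z' ^ k`, then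
`z ^ M = z' ^ M` (`exists_exp`; `z' ≠ 0` by `star_root`), so `z = z'`. -/
theorem exists_neat_of_pow (hΓ : IsOpen (Γ : Set Gal(Ω/ℚ))) (hsys : IsPureSys ρ w) (p : ℕ)
    [Fact p.Prime] (hcont : IsCont (ρ p))
    (hg : ∀ M : ℕ, 0 < M → ∃ g : Γ, (LinearMap.charpoly (ρ p (g ^ M))).Separable) :
    ∃ (q : ℕ) (P : ℚ[X]), IsFrobPoly ρ w q P ∧ IsNeat Ω P := by
  have halg : Algebra.IsAlgebraic ℚ Ω := IsAlgClosure.isAlgebraic
  obtain ⟨M, hM, hexp⟩ := exists_exp Ω n
  obtain ⟨g, hgM⟩ := hg M hM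
  obtain ⟨T, hT⟩ := hsys
  have hU : IsOpen {x : Γ | dsc (mat (ρ p) x ^ M) ≠ 0} := by
    have h1 : Continuous fun x : Γ => dsc (mat (ρ p) x ^ M) :=
      continuous_dsc.comp ((continuous_mat hcont).pow M)
    exact isOpen_ne_fun h1 continuous_const
  have hgU : g ∈ {x : Γ | dsc (mat (ρ p) x ^ M) ≠ 0} := by
    show dsc (mat (ρ p) g ^ M) ≠ 0
    rw [← mat_pow, dsc_ne_zero_iff, mat_charpoly]
    exact hgM
  obtain ⟨q, hq, hqp, φ, hφ, hfr⟩ := exists_frob_mem hΓ _ hU g hgU (max p (T.sup id))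
  have hpq : p ≠ q := (lt_of_le_of_lt (le_max_left _ _) hq).ne
  have hqT : q ∉ T := by
    intro h
    have h1 : q ≤ T.sup id := Finset.le_sup (f := id) h
    exact absurd (lt_of_le_of_lt (le_max_right p _) hq) (not_lt.2 h1)
  obtain ⟨P, hP, hchar⟩ := hT q hqp hqT φ hfr
  refine ⟨q, P, ⟨hqp, hP, φ, hfr, fun p' _ hp' => hchar p' hp'⟩, ?_⟩
  have hchA : (mat (ρ p) φ).charpoly = P.map (algebraMap ℚ ℚ_[p]) := by
    rw [mat_charpoly]
    exact hchar p hpq
  have hφ' : dsc (mat (ρ p) φ ^ M) ≠ 0 := hφ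
  have hsM : (mat (ρ p) φ ^ M).charpoly.Separable := (dsc_ne_zero_iff _).1 hφ'
  have hsA : (mat (ρ p) φ).charpoly.Separable := (dsc_ne_zero_iff _).1 (dsc_ne_zero_of_pow hφ')
  have hmon : (P.map (algebraMap ℚ ℚ_[p])).Monic := by
    rw [← hchA]
    exact Matrix.charpoly_monic _
  have hP0 : P ≠ 0 := by
    rintro rfl
    rw [Polynomial.map_zero] at hmon
    exact hmon.ne_zero rfl
  have hdeg : P.natDegree ≤ n := by
    rw [← natDegree_map (algebraMap ℚ ℚ_[p]), ← hchA, Matrix.charpoly_natDegree_eq_dim, Fintype.card_fin]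
  refine ⟨?_, fun z z' hz hz' k hk hzz => ?_⟩
  · rw [hchA] at hsA
    exact (separable_map _).1 hsA
  · have hz0 : z' ≠ 0 := (star_root hqp.pos hP hz').1
    have hpow := hexp P hP0 hdeg z z' hz hz' hz0 k hk hzz
    let ι : Ω →ₐ[ℚ] PadicAlgCl p := IsAlgClosed.lift
    have hroot : ∀ y : Ω, aeval y P = 0 → aeval (ι y) (mat (ρ p) φ).charpoly = 0 := by
      intro y hy
      rw [hchA, aeval_map_algebraMap, Polynomial.aeval_algHom_apply, hy, map_zero]
    have h1 : ι z = ι z' := by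
      refine r2_inj _ hM hsA hsM (hroot z hz) (hroot z' hz') ?_
      rw [← map_pow, ← map_pow, hpow]
    exact ι.toRingHom.injective h1

end Pool.Agent.Lib.H81D
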