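import Mathlib
import Pool.Agent.Lib.H81D.E1
import Pool.Agent.Lib.Helper4.GSD.HTD

/-!
# Chunk R3 (M): powers of elements of Hodge-Tate representations with distinct weights
-/

namespace Pool.Agent.Lib.H81D

open Polynomial Module Filter Topology NumberField Pool.Agent.GSem Pool.Agent.GSD Pool.Agent.Ord

section near

variable {p : ℕ} [hp : Fact p.Prime]

theorem r3_pos : 0 < ((p : ℝ) ^ 2)⁻¹ := by
  have h1 : (0 : ℝ) < p := by exact_mod_cast hp.out.pos
  positivity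

theorem r3_lt : ((p : ℝ) ^ 2)⁻¹ < (p : ℝ)⁻¹ := by
  have h1 : (1 : ℝ) < p := by exact_mod_cast hp.out.one_lt
  have h0 : (0 : ℝ) < p := by linarith
  refine inv_strictAnti₀ h0 ?_
  nlinarith

theorem r3_inv_lt_one : (p : ℝ)⁻¹ < 1 := inv_lt_one_of_one_lt₀ (by exact_mod_cast hp.out.one_lt)

theorem r3_norm_le {a : PadicAlgCl p} (ha : ‖a - 1‖ ≤ ((p : ℝ) ^ 2)⁻¹) : ‖a‖ ≤ 1 := by
  have h1 : a = (a - 1) + 1 := by ring
  rw [h1]
  refine (IsUltrametricDist.norm_add_le_max _ _).trans (max_le ?_ ?_)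
  · exact ha.trans (r3_lt.le.trans r3_inv_lt_one.le)
  · rw [norm_one]

theorem r3_mul {a b : PadicAlgCl p} (ha : ‖a - 1‖ ≤ ((p : ℝ) ^ 2)⁻¹) (hb : ‖b - 1‖ ≤ ((p : ℝ) ^ 2)⁻¹) :
    ‖a * b - 1‖ ≤ ((p : ℝ) ^ 2)⁻¹ := by
  have h1 : a * b - 1 = (a - 1) * b + (b - 1) := by ring
  rw [h1]
  refine (IsUltrametricDist.norm_add_le_max _ _).trans (max_le ?_ hb)
  rw [norm_mul]
  exact (mul_le_of_le_one_right (norm_nonneg _) (r3_norm_le hb)).trans ha

theorem r3_pow {a : PadicAlgCl p} (ha : ‖a - 1‖ ≤ ((p : ℝ) ^ 2)⁻¹) (k : ℕ) :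
    ‖a ^ k - 1‖ ≤ ((p : ℝ) ^ 2)⁻¹ := by
  induction k with
  | zero =>
    rw [pow_zero, sub_self, norm_zero]
    exact r3_pos.le
  | succ k ih =>
    rw [pow_succ]
    exact r3_mul ih ha

theorem r3_norm_prime {r : ℕ} (hr : r.Prime) : (p : ℝ)⁻¹ ≤ ‖((r : ℕ) : PadicAlgCl p)‖ := by
  have h1 : ((r : ℕ) : PadicAlgCl p) = algebraMap ℚ_[p] (PadicAlgCl p) ((r : ℕ) : ℚ_[p]) := by
    rw [map_natCast]
  rw [h1, PadicAlgCl.norm_extends]
  by_cases hrp : r = p
  · subst hrp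
    rw [Padic.norm_p]
  · have h2 : ‖((r : ℕ) : ℚ_[p])‖ = 1 :=
      Padic.norm_natCast_eq_one_iff.2 ((Nat.coprime_primes hp.out hr).2 (Ne.symm hrp))
    rw [h2]
    exact r3_inv_lt_one.le

theorem r3_prime {a a' : PadicAlgCl p}
    (ha : ‖a - 1‖ ≤ ((p : ℝ) ^ 2)⁻¹) (ha' : ‖a' - 1‖ ≤ ((p : ℝ) ^ 2)⁻¹) {r : ℕ} (hr : r.Prime)
    (h : a ^ r = a' ^ r) : a = a' := by
  have h1 := geom_sum₂_mul a a' r
  rw [h, sub_self] at h1
  rcases mul_eq_zero.1 h1 with h2 | h2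
  · exfalso
    have h3 : ‖(∑ i ∈ Finset.range r, a ^ i * a' ^ (r - 1 - i)) - ((r : ℕ) : PadicAlgCl p)‖ ≤ ((p : ℝ) ^ 2)⁻¹ := by
      have h4 : (∑ i ∈ Finset.range r, a ^ i * a' ^ (r - 1 - i)) - ((r : ℕ) : PadicAlgCl p) =
          ∑ i ∈ Finset.range r, (a ^ i * a' ^ (r - 1 - i) - 1) := by
        rw [Finset.sum_sub_distrib, Finset.sum_const, Finset.card_range, nsmul_eq_mul, mul_one]
      rw [h4]
      exact IsUltrametricDist.norm_sum_le_of_forall_le_of_nonneg r3_pos.le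
        fun i _ => r3_mul (r3_pow ha i) (r3_pow ha' _)
    rw [h2, zero_sub, norm_neg] at h3
    exact absurd (h3.trans_lt r3_lt) (not_lt.2 (r3_norm_prime hr))
  · exact sub_eq_zero.1 h2

end near

/-- Proof: induction on `k` (prime factors, `Nat.recOnMul` or `induction_on_primes`): `x ↦ x ^ k` preserves the
set `‖a - 1‖ ≤ p ^ (-2)` (a group under multiplication, ultrametric). For `k` a prime:
`a ^ k - a' ^ k = (a - a') * ∑_{i<k} a ^ i a' ^ (k - 1 - i)` (`Commute.geom_sum₂_mul`), and the sum differs from `k` by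
an element of norm at most `p ^ (-2)`, while `‖k‖ ≥ p ^ (-1)`; so the sum is not 0. -/
theorem eq_of_pow_eq_near {p : ℕ} [Fact p.Prime] {a a' : PadicAlgCl p}
    (ha : ‖a - 1‖ ≤ ((p : ℝ) ^ 2)⁻¹) (ha' : ‖a' - 1‖ ≤ ((p : ℝ) ^ 2)⁻¹) {k : ℕ} (hk : 0 < k)
    (h : a ^ k = a' ^ k) : a = a' := by
  induction k using Nat.strong_induction_on generalizing a a' with
  | _ k ih =>
    rcases Nat.eq_or_lt_of_le (Nat.succ_le_of_lt hk) with h1 | h1
    · have h2 : k = 1 := h1.symm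
      rw [h2, pow_one, pow_one] at h
      exact h
    · have hr := Nat.minFac_prime (show k ≠ 1 by omega)
      obtain ⟨m, hm⟩ := Nat.minFac_dvd k
      have hm0 : 0 < m := by
        rcases Nat.eq_zero_or_pos m with h3 | h3
        · rw [h3, mul_zero] at hm
          omega
        · exact h3
      have hmk : m < k := by
        have h3 := hr.two_le
        have h4 : 2 * m ≤ k.minFac * m := Nat.mul_le_mul_right m h3
        omega
      have h5 : (a ^ k.minFac) ^ m = (a' ^ k.minFac) ^ m := by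
        rw [← pow_mul, ← pow_mul, ← hm]
        exact h
      exact r3_prime ha ha' hr (ih m hmk (r3_pow ha _) (r3_pow ha' _) hm0 h5)

/-- Proof: `a - 1` is an eigenvalue of `A - 1` over `PadicAlgCl p`; compare the largest coordinate of
an eigenvector. -/
theorem eigen_near {p : ℕ} [Fact p.Prime] {n : ℕ} {A : Matrix (Fin n) (Fin n) ℚ_[p]} {N : ℕ}
    (hA : Cg N A 1) {a : PadicAlgCl p} (ha : aeval a A.charpoly = 0) :
    ‖a - 1‖ ≤ ((p : ℝ) ^ N)⁻¹ := by
  have hC : (0 : ℝ) ≤ ((p : ℝ) ^ N)⁻¹ := by positivity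
  set B : Matrix (Fin n) (Fin n) (PadicAlgCl p) := A.map (algebraMap ℚ_[p] (PadicAlgCl p)) with hB
  have h1 : (Matrix.scalar (Fin n) a - B).det = 0 := by
    rw [← Matrix.eval_charpoly, hB, Matrix.charpoly_map, eval_map_algebraMap]
    exact ha
  obtain ⟨v, hv0, hv⟩ := Matrix.exists_mulVec_eq_zero_iff.2 h1
  have hne : Nonempty (Fin n) := by
    by_contra hcon
    rw [not_nonempty_iff] at hcon
    exact hv0 (Subsingleton.elim _ _)
  obtain ⟨i, hi⟩ := Finite.exists_max fun i => ‖v i‖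
  have hvi : 0 < ‖v i‖ := by
    obtain ⟨j, hj⟩ := Function.ne_iff.1 hv0
    exact lt_of_lt_of_le (norm_pos_iff.2 hj) (hi j)
  have h2 : (a - 1) * v i = ∑ j, (B i j - (1 : Matrix (Fin n) (Fin n) (PadicAlgCl p)) i j) * v j := by
    have h3 := congrFun hv i
    rw [Matrix.sub_mulVec, Pi.sub_apply, Pi.zero_apply, Matrix.scalar_apply, Matrix.mulVec_diagonal] at h3
    have h4 : (B.mulVec v) i = ∑ j, B i j * v j := rfl
    rw [h4] at h3
    have h5 : ∑ j, (1 : Matrix (Fin n) (Fin n) (PadicAlgCl p)) i j * v j = v i := by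
      have h6 := congrFun (Matrix.one_mulVec v) i
      exact h6
    simp_rw [sub_mul]
    rw [Finset.sum_sub_distrib, h5, one_mul]
    linear_combination h3
  have h3 : ‖(a - 1) * v i‖ ≤ ((p : ℝ) ^ N)⁻¹ * ‖v i‖ := by
    rw [h2]
    refine IsUltrametricDist.norm_sum_le_of_forall_le_of_nonneg (by positivity) fun j _ => ?_
    rw [norm_mul]
    refine mul_le_mul ?_ (hi j) (norm_nonneg _) hC
    have h4 : B i j - (1 : Matrix (Fin n) (Fin n) (PadicAlgCl p)) i j =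
        algebraMap ℚ_[p] (PadicAlgCl p) (A i j - (1 : Matrix (Fin n) (Fin n) ℚ_[p]) i j) := by
      rw [map_sub, hB, Matrix.map_apply, Matrix.one_apply, Matrix.one_apply]
      split_ifs <;> simp
    rw [h4, PadicAlgCl.norm_extends]
    exact hA i j
  rw [norm_mul] at h3
  exact le_of_mul_le_mul_right h3 hvi

variable {Ω : Type} [Field Ω] [CharZero Ω] [IsAlgClosure ℚ Ω] {Γ : Subgroup Gal(Ω/ℚ)} {n : ℕ}

/-- Proof: `{g : Γ | Cg 2 (mat r g) 1 ∧ Cg 2 (mat r g⁻¹) 1}` is an open subgroup of `Γ`; its image `Γ'` in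
`Gal(Ω/ℚ)` is open. The restriction of `r` to `Γ'` is Hodge-Tate with the same weights, so
`exists_separable_of_HT` gives `g ∈ Γ'` with separable charpoly; `separable_pow` with
`eq_of_pow_eq_near`, `eigen_near` shows that the charpoly of `r (g ^ M)` is separable. -/
theorem exists_sep_pow_of_HT (hΓ : IsOpen (Γ : Set Gal(Ω/ℚ))) {p : ℕ} [Fact p.Prime]
    (r : Representation ℚ_[p] Γ (Fin n → ℚ_[p])) (hr : IsCont r) {h : Fin n → ℤ}
    (hinj : Function.Injective h) (hHT : IsHT r h) (M : ℕ) (hM : 0 < M) :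
    ∃ g : Γ, (LinearMap.charpoly (r (g ^ M))).Separable := by
  have hG : IsGalois ℚ Ω := isGaloisΩ
  have hppos : (0 : ℝ) < ((p : ℝ) ^ 2)⁻¹ := r3_pos
  -- an open neighbourhood of 1
  have hV : IsOpen {x : Γ | Cg 2 (mat r x) 1} := by
    have h1 : {x : Γ | Cg 2 (mat r x) 1} =
        ⋂ i : Fin n, ⋂ j : Fin n, {x : Γ | ‖mat r x i j - (1 : Matrix (Fin n) (Fin n) ℚ_[p]) i j‖ ≤ ((p : ℝ) ^ 2)⁻¹} := by
      ext x
      simp only [Set.mem_iInter]
      rfl
    rw [h1]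
    refine isOpen_iInter_of_finite fun i => isOpen_iInter_of_finite fun j => ?_
    have h2 : Continuous fun x : Γ => mat r x i j :=
      (continuous_apply j).comp ((continuous_apply i).comp (continuous_mat hr))
    have h3 : IsOpen (Metric.closedBall ((1 : Matrix (Fin n) (Fin n) ℚ_[p]) i j) ((p : ℝ) ^ 2)⁻¹) :=
      IsUltrametricDist.isOpen_closedBall _ hppos.ne'
    have h4 : {x : Γ | ‖mat r x i j - (1 : Matrix (Fin n) (Fin n) ℚ_[p]) i j‖ ≤ ((p : ℝ) ^ 2)⁻¹} =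
        (fun x : Γ => mat r x i j) ⁻¹' (Metric.closedBall ((1 : Matrix (Fin n) (Fin n) ℚ_[p]) i j) ((p : ℝ) ^ 2)⁻¹) := by
      ext x
      rw [Set.mem_preimage, mem_closedBall_iff_norm]
      rfl
    rw [h4]
    exact h3.preimage h2
  have h1V : (1 : Γ) ∈ {x : Γ | Cg 2 (mat r x) 1} := by
    intro i j
    rw [mat_one, sub_self, norm_zero]
    exact hppos.le
  have hV' : IsOpen (Subtype.val '' {x : Γ | Cg 2 (mat r x) 1} : Set Gal(Ω/ℚ)) := hΓ.isOpenMap_subtype_val _ hV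
  obtain ⟨N, hN⟩ := ProfiniteGrp.exist_openNormalSubgroup_sub_open_nhds_of_one hV' ⟨1, h1V, rfl⟩
  have hNo : IsOpen (N.toSubgroup : Set Gal(Ω/ℚ)) := N.isOpen
  have hNV : ∀ v ∈ N.toSubgroup, ∃ v' ∈ {x : Γ | Cg 2 (mat r x) 1}, (v' : Gal(Ω/ℚ)) = v := fun v hv => hN hv
  have hle : N.toSubgroup ≤ Γ := by
    intro v hv
    obtain ⟨v', -, hv'⟩ := hNV v hv
    rw [← hv']
    exact v'.2
  -- restriction of the representation
  let r' : Representation ℚ_[p] N.toSubgroup (Fin n → ℚ_[p]) := r.comp (Subgroup.inclusion hle)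
  have hHT' : IsHT r' h := by
    obtain ⟨ι, e, he⟩ := hHT
    exact ⟨ι, e, fun σ g hg i => he σ (Subgroup.inclusion hle g) hg i⟩
  obtain ⟨g, hg⟩ := exists_separable_of_HT hNo r' hinj hHT'
  obtain ⟨g', hg'V, hg'⟩ := hNV g g.2
  have hgg : Subgroup.inclusion hle g = g' := Subtype.ext hg'.symm
  have hsep : (mat r g').charpoly.Separable := by
    rw [mat_charpoly, ← hgg]
    exact hg
  have hcg : Cg 2 (mat r g') 1 := hg'V
  refine ⟨g', ?_⟩
  rw [← mat_charpoly, mat_pow]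
  exact separable_pow _ hM hsep fun a a' ha ha' haa =>
    eq_of_pow_eq_near (eigen_near hcg ha) (eigen_near hcg ha') hM haa

end Pool.Agent.Lib.H81D
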