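import Mathlib
import Pool.Agent.Lib.H81D.R2
import Pool.Agent.Lib.H81D.R3

/-!
# Density one semisimplicity: neat Frobenius polynomials exist
-/

namespace Pool.Agent.Lib.H81D

open Polynomial Module Filter Topology NumberField Pool.Agent.GSem Pool.Agent.GSD Pool.Agent.Ord

variable {Ω : Type} [Field Ω] [CharZero Ω] [IsAlgClosure ℚ Ω] {Γ : Subgroup Gal(Ω/ℚ)} {n : ℕ}
  {ρ : ∀ (p : ℕ) [Fact p.Prime], Representation ℚ_[p] Γ (Fin n → ℚ_[p])} {w : ℤ}

/-- If for one `p` some element of `Γ` has the property that all its powers have `n` distinct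
eigenvalues, or if `ρ p` is Hodge–Tate with distinct weights, there are neat Frobenius
polynomials. -/
theorem exists_neat (hΓ : IsOpen (Γ : Set Gal(Ω/ℚ)))
    (hcont : ∀ (p : ℕ) [Fact p.Prime], IsCont (ρ p)) (hsys : IsPureSys ρ w)
    (hreg : ∃ (p : ℕ) (_ : Fact p.Prime),
      (∃ g : Γ, ∀ k : ℕ, 0 < k → (LinearMap.charpoly (ρ p (g ^ k))).Separable) ∨
      ∃ h : Fin n → ℤ, Function.Injective h ∧ IsHT (ρ p) h) :
    ∃ (q : ℕ) (P : ℚ[X]), IsFrobPoly ρ w q P ∧ IsNeat Ω P := by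
  obtain ⟨p, hp, hreg⟩ := hreg
  refine exists_neat_of_pow hΓ hsys p (hcont p) fun M hM => ?_
  rcases hreg with ⟨g, hg⟩ | ⟨h, hinj, hHT⟩
  · exact ⟨g, hg M hM⟩
  · exact exists_sep_pow_of_HT hΓ (ρ p) (hcont p) hinj hHT M hM

end Pool.Agent.Lib.H81D
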