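import Mathlib
import Pool.Agent.Lib.H81D.Bas

/-!
# Chunk F1 (M, pure): proportions of cosets

`frac N A` is the number of the left cosets `g N` which meet `A`, divided by the index of `N`. No
normality is needed.
-/

namespace Pool.Agent.Lib.H81D

variable {G : Type} [Group G]

theorem f1_fin {N M : Subgroup G} [Finite (G ⧸ N)] (hNM : N ≤ M) : Finite (G ⧸ M) :=
  Finite.of_surjective (Subgroup.quotientMapOfLE hNM) (by
    intro x
    obtain ⟨g, rfl⟩ := QuotientGroup.mk_surjective x
    exact ⟨(g : G ⧸ N), rfl⟩)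

theorem f1_card {N M : Subgroup G} (hNM : N ≤ M) (S : Set (G ⧸ M)) :
    Nat.card ((Subgroup.quotientMapOfLE hNM) ⁻¹' S : Set (G ⧸ N)) =
      Nat.card S * Nat.card (M ⧸ N.subgroupOf M) := by
  rw [← Nat.card_prod]
  let e := Subgroup.quotientEquivProdOfLE hNM
  have he : ∀ x : G ⧸ N, (e x).1 = Subgroup.quotientMapOfLE hNM x := by
    intro x
    obtain ⟨g, rfl⟩ := QuotientGroup.mk_surjective x
    rfl
  refine Nat.card_congr
    { toFun := fun x => (⟨(e x.1).1, by rw [he]; exact x.2⟩, (e x.1).2)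
      invFun := fun y => ⟨e.symm (y.1.1, y.2), by
        show Subgroup.quotientMapOfLE hNM (e.symm (y.1.1, y.2)) ∈ S
        rw [← he, e.apply_symm_apply]
        exact y.1.2⟩
      left_inv := fun x => by
        apply Subtype.ext
        simp
      right_inv := fun y => by
        simp }

theorem f1_univ {N M : Subgroup G} (hNM : N ≤ M) :
    Nat.card (G ⧸ N) = Nat.card (G ⧸ M) * Nat.card (M ⧸ N.subgroupOf M) := by
  rw [← Nat.card_prod]
  exact Nat.card_congr (Subgroup.quotientEquivProdOfLE hNM)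

theorem f1_image {N M : Subgroup G} (hNM : N ≤ M) {A : Set G} (hA : IsUn M A) :
    ((fun g : G => (g : G ⧸ N)) '' A) =
      (Subgroup.quotientMapOfLE hNM) ⁻¹' ((fun g : G => (g : G ⧸ M)) '' A) := by
  ext x
  obtain ⟨g, rfl⟩ := QuotientGroup.mk_surjective x
  constructor
  · rintro ⟨a, ha, hag⟩
    refine ⟨a, ha, ?_⟩
    show (a : G ⧸ M) = Subgroup.quotientMapOfLE hNM (g : G ⧸ N)
    rw [← hag]
    rfl
  · rintro ⟨a, ha, hag⟩
    have h1 : (a : G ⧸ M) = (g : G ⧸ M) := hag
    rw [QuotientGroup.eq] at h1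
    refine ⟨g, ?_, rfl⟩
    have h2 := hA a ha _ h1
    rwa [mul_inv_cancel_left] at h2

theorem f1_r_pos {N M : Subgroup G} [Finite (G ⧸ N)] (hNM : N ≤ M) :
    0 < Nat.card (M ⧸ N.subgroupOf M) := by
  have h1 := f1_univ hNM
  have h2 : 0 < Nat.card (G ⧸ N) := Nat.card_pos
  by_contra h
  have h3 : Nat.card (M ⧸ N.subgroupOf M) = 0 := by omega
  rw [h3, mul_zero] at h1
  omega

/-- Proof: `G ⧸ N → G ⧸ M` is onto with fibres of size `[M : N]` (`Subgroup.quotientEquivProdOfLE`,
`Subgroup.relIndex_mul_index`, or count by hand), and the image of `A` in `G ⧸ N` is the preimage of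
the image of `A` in `G ⧸ M`, as `A` is a union of cosets of `M`. -/
theorem frac_eq {N M : Subgroup G} [Finite (G ⧸ N)] (hNM : N ≤ M) {A : Set G} (hA : IsUn M A) :
    frac N A = frac M A := by
  have := f1_fin hNM
  unfold frac
  rw [f1_image hNM hA, f1_card hNM, f1_univ hNM]
  push_cast
  have h1 : (0 : ℝ) < Nat.card (M ⧸ N.subgroupOf M) := by exact_mod_cast f1_r_pos hNM
  rw [mul_div_mul_right _ _ h1.ne']

theorem frac_mono {N : Subgroup G} [Finite (G ⧸ N)] {A A' : Set G} (h : A ⊆ A') :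
    frac N A ≤ frac N A' := by
  unfold frac
  apply div_le_div_of_nonneg_right _ (Nat.cast_nonneg _)
  exact_mod_cast Nat.card_mono (Set.toFinite _) (Set.image_mono h)

theorem frac_nonneg (N : Subgroup G) (A : Set G) : 0 ≤ frac N A := by
  unfold frac
  positivity

theorem frac_le_one (N : Subgroup G) [Finite (G ⧸ N)] (A : Set G) : frac N A ≤ 1 := by
  unfold frac
  have h1 : (0 : ℝ) < Nat.card (G ⧸ N) := by exact_mod_cast Nat.card_pos
  rw [div_le_one h1]
  exact_mod_cast Finite.card_subtype_le _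

/-- Disjoint unions of cosets have disjoint images. -/
theorem frac_union {N : Subgroup G} [Finite (G ⧸ N)] {A A' : Set G} (hA : IsUn N A)
    (hA' : IsUn N A') (hd : Disjoint A A') : frac N (A ∪ A') = frac N A + frac N A' := by
  unfold frac
  rw [Set.image_union, ← add_div]
  congr 1
  have hdis : Disjoint ((fun g : G => (g : G ⧸ N)) '' A) ((fun g : G => (g : G ⧸ N)) '' A') := by
    rw [Set.disjoint_left]
    rintro _ ⟨a, ha, rfl⟩ ⟨b, hb, hab⟩
    have h1 : (b : G ⧸ N) = (a : G ⧸ N) := hab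
    rw [QuotientGroup.eq] at h1
    have h2 := hA' b hb _ h1
    rw [mul_inv_cancel_left] at h2
    exact Set.disjoint_left.1 hd ha h2
  rw [Nat.card_coe_set_eq, Nat.card_coe_set_eq, Nat.card_coe_set_eq,
    Set.ncard_union_eq hdis (Set.toFinite _) (Set.toFinite _)]
  push_cast
  rfl

theorem f1_empty (N : Subgroup G) : frac N (∅ : Set G) = 0 := by
  unfold frac
  rw [Set.image_empty]
  simp

/-- The same for finite families (induction). -/
theorem frac_iUnion {N : Subgroup G} [Finite (G ⧸ N)] {ι : Type} (s : Finset ι) (A : ι → Set G)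
    (hA : ∀ i ∈ s, IsUn N (A i)) (hd : ∀ i ∈ s, ∀ j ∈ s, i ≠ j → Disjoint (A i) (A j)) :
    frac N (⋃ i ∈ s, A i) = ∑ i ∈ s, frac N (A i) := by
  classical
  induction s using Finset.induction_on with
  | empty => simp [f1_empty]
  | insert a s ha ih =>
    rw [Finset.set_biUnion_insert, Finset.sum_insert ha, frac_union, ih]
    · intro i hi
      exact hA i (Finset.mem_insert_of_mem hi)
    · intro i hi j hj hij
      exact hd i (Finset.mem_insert_of_mem hi) j (Finset.mem_insert_of_mem hj) hij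
    · exact hA a (Finset.mem_insert_self _ _)
    · intro x hx m hm
      simp only [Set.mem_iUnion] at hx ⊢
      obtain ⟨i, hi, hxi⟩ := hx
      exact ⟨i, hi, hA i (Finset.mem_insert_of_mem hi) x hxi m hm⟩
    · rw [Set.disjoint_left]
      intro x hx hx2
      simp only [Set.mem_iUnion] at hx2
      obtain ⟨i, hi, hxi⟩ := hx2
      exact Set.disjoint_left.1 (hd a (Finset.mem_insert_self _ _) i (Finset.mem_insert_of_mem hi)
        (fun e => ha (e ▸ hi))) hx hxi

/-- One coset. -/
theorem frac_coset (N : Subgroup G) [Finite (G ⧸ N)] (r : G ⧸ N) :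
    frac N {g : G | (g : G ⧸ N) = r} = 1 / (Nat.card (G ⧸ N) : ℝ) := by
  unfold frac
  have h1 : ((fun g : G => (g : G ⧸ N)) '' {g : G | (g : G ⧸ N) = r}) = {r} := by
    ext x
    constructor
    · rintro ⟨g, hg, rfl⟩
      exact hg
    · intro hx
      obtain ⟨g, hg⟩ := QuotientGroup.mk_surjective r
      rw [Set.mem_singleton_iff.1 hx]
      exact ⟨g, hg, hg⟩
  rw [h1]
  simp

end Pool.Agent.Lib.H81D
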