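import Mathlib
import Pool.Agent.Lib.H81D.F1

/-!
# Chunk F2 (M, pure): one step of the counting argument
-/

namespace Pool.Agent.Lib.H81D

variable {G : Type} [Group G]

/-- Proof: let `N'' = N' ⊓ K`, `r = [N' : N'']`; then `1 ≤ r ≤ [G : K] ≤ m` (`N' / (N' ⊓ K)` embeds in
`G / K`: `Subgroup.relIndex_le_index`-like, `Subgroup.relIndex_inf_le`...). Every coset `c` of `N'` splits in
`r` cosets of `N''`. If `c ⊆ D`, `c` contains an `s ∈ O`, and the coset `s N''` is contained in `O`, so at most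
`r - 1` of these `r` cosets meet `D \ O`; if `c` is not contained in `D`, none. So the number of cosets
of `N''` which meet `D \ O` is at most `(r - 1)` times the number of cosets of `N'` which meet `D`, and
`Nat.card (G ⧸ N'') = r * Nat.card (G ⧸ N')`; `(r - 1) / r ≤ 1 - 1 / m`. -/
theorem frac_step {N' K : Subgroup G} [Finite (G ⧸ N')] [Finite (G ⧸ K)] {m : ℕ}
    (hm : Nat.card (G ⧸ K) ≤ m) {D O : Set G} (hD : IsUn N' D) (hO : IsUn K O)
    (h : ∀ s0 ∈ D, ∃ s ∈ O, s0⁻¹ * s ∈ N') :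
    frac (N' ⊓ K) (D \ O) ≤ (1 - 1 / (m : ℝ)) * frac N' D := by
  classical
  have hle : N' ⊓ K ≤ N' := inf_le_left
  have hfi1 : N'.FiniteIndex := Subgroup.finiteIndex_of_finite_quotient
  have hfi2 : K.FiniteIndex := Subgroup.finiteIndex_of_finite_quotient
  have hfin : Finite (G ⧸ (N' ⊓ K)) := Subgroup.finite_quotient_of_finiteIndex
  set r : ℕ := Nat.card (N' ⧸ (N' ⊓ K).subgroupOf N') with hr
  have hr0 : 0 < r := f1_r_pos hle
  have hrm : r ≤ m := by
    have h1 : r = (N' ⊓ K).relIndex N' := rfl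
    have h2 : (N' ⊓ K).relIndex N' = K.relIndex N' := Subgroup.inf_relIndex_left N' K
    have h3 : K.relIndex N' ≤ K.relIndex ⊤ :=
      Subgroup.relIndex_le_of_le_right le_top (by
        rw [Subgroup.relIndex_top_right]
        exact hfi2.index_ne_zero)
    rw [Subgroup.relIndex_top_right] at h3
    rw [h1, h2]
    exact h3.trans hm
  set q := Subgroup.quotientMapOfLE hle with hq
  set J : Set (G ⧸ N') := (fun g : G => (g : G ⧸ N')) '' D with hJ
  set I : Set (G ⧸ (N' ⊓ K)) := (fun g : G => (g : G ⧸ (N' ⊓ K))) '' (D \ O) with hI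
  have hsec : ∀ c : G ⧸ N', c ∈ J → ∃ y : G ⧸ (N' ⊓ K), q y = c ∧ y ∉ I := by
    rintro c ⟨s0, hs0, rfl⟩
    obtain ⟨s, hs, hss⟩ := h s0 hs0
    refine ⟨(s : G ⧸ (N' ⊓ K)), ?_, ?_⟩
    · show (s : G ⧸ N') = (s0 : G ⧸ N')
      exact (QuotientGroup.eq.2 hss).symm
    · rintro ⟨t, ht, hts⟩
      have h1 : (t : G ⧸ (N' ⊓ K)) = (s : G ⧸ (N' ⊓ K)) := hts
      have h2 := QuotientGroup.eq.1 h1.symm
      have h3 := hO s hs _ h2.2
      rw [mul_inv_cancel_left] at h3
      exact ht.2 h3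
  choose! σ hσ1 hσ2 using hsec
  have hsub : I ⊆ (q ⁻¹' J) \ (σ '' J) := by
    rintro x hx
    refine ⟨?_, ?_⟩
    · obtain ⟨t, ht, rfl⟩ := hx
      exact ⟨t, ht.1, rfl⟩
    · rintro ⟨c, hc, rfl⟩
      exact hσ2 c hc hx
  have hσJ : σ '' J ⊆ q ⁻¹' J := by
    rintro _ ⟨c, hc, rfl⟩
    show q (σ c) ∈ J
    rw [hσ1 c hc]
    exact hc
  have hinj : Set.InjOn σ J := by
    intro a ha b hb hab
    rw [← hσ1 a ha, ← hσ1 b hb, hab]
  have hfJ : Finite (G ⧸ N') := inferInstance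
  have hc1 : (σ '' J).ncard = J.ncard := Set.ncard_image_of_injOn hinj
  have hc2 : (q ⁻¹' J).ncard = J.ncard * r := by
    rw [← Nat.card_coe_set_eq, ← Nat.card_coe_set_eq]
    exact f1_card hle J
  have hc3 : I.ncard + J.ncard ≤ J.ncard * r := by
    have h1 := Set.ncard_le_ncard hsub (Set.toFinite _)
    have h2 := Set.ncard_diff_add_ncard_of_subset hσJ (Set.toFinite _)
    rw [hc1, hc2] at h2
    omega
  have hm0 : 0 < m := lt_of_lt_of_le hr0 hrm
  unfold frac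
  rw [← hJ, ← hI, f1_univ hle, Nat.card_coe_set_eq, Nat.card_coe_set_eq, ← hr]
  push_cast
  have hQ : (0 : ℝ) < Nat.card (G ⧸ N') := by exact_mod_cast Nat.card_pos
  have hrR : (0 : ℝ) < r := by exact_mod_cast hr0
  have hmR : (0 : ℝ) < m := by exact_mod_cast hm0
  have hrmR : (r : ℝ) ≤ m := by exact_mod_cast hrm
  have hc4 : (I.ncard : ℝ) ≤ J.ncard * (r - 1) := by
    have : (I.ncard : ℝ) + J.ncard ≤ J.ncard * r := by exact_mod_cast hc3
    linarith
  have hJ0 : (0 : ℝ) ≤ J.ncard := Nat.cast_nonneg _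
  calc (I.ncard : ℝ) / (Nat.card (G ⧸ N') * r) ≤ J.ncard * (r - 1) / (Nat.card (G ⧸ N') * r) :=
        div_le_div_of_nonneg_right hc4 (by positivity)
    _ = (1 - 1 / (r : ℝ)) * (J.ncard / Nat.card (G ⧸ N')) := by
        field_simp
    _ ≤ (1 - 1 / (m : ℝ)) * (J.ncard / Nat.card (G ⧸ N')) := by
        apply mul_le_mul_of_nonneg_right _ (by positivity)
        have : 1 / (m : ℝ) ≤ 1 / r := one_div_le_one_div_of_le hrR hrmR
        linarith

end Pool.Agent.Lib.H81D
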