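import Mathlib
import Pool.Agent.Lib.H81D.F2

/-!
# Chunk F3 (M, pure): iteration
-/

namespace Pool.Agent.Lib.H81D

variable {G : Type} [Group G] [TopologicalSpace G] [IsTopologicalGroup G] [CompactSpace G]

omit [IsTopologicalGroup G] [CompactSpace G] in
theorem f3_open {ι : Type} (K : ι → Subgroup G) (hKo : ∀ x, IsOpen (K x : Set G))
    (N00 : Subgroup G) (ho : IsOpen (N00 : Set G)) (S : Finset ι) :
    IsOpen ((N00 ⊓ ⨅ x ∈ S, K x : Subgroup G) : Set G) := by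
  have e : ((N00 ⊓ ⨅ x ∈ S, K x : Subgroup G) : Set G) = (N00 : Set G) ∩ ⋂ x ∈ S, (K x : Set G) := by
    ext g
    simp [Subgroup.mem_iInf]
  rw [e]
  exact ho.inter (isOpen_biInter_finset fun x _ => hKo x)

omit [TopologicalSpace G] [IsTopologicalGroup G] [CompactSpace G] in
theorem f3_normal {ι : Type} (K : ι → Subgroup G) (hKn : ∀ x, (K x).Normal)
    (N00 : Subgroup G) (hn : N00.Normal) (S : Finset ι) :
    (N00 ⊓ ⨅ x ∈ S, K x : Subgroup G).Normal := by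
  refine ⟨fun n hnn g => ?_⟩
  rw [Subgroup.mem_inf] at hnn ⊢
  refine ⟨hn.conj_mem _ hnn.1 g, ?_⟩
  have h2 := hnn.2
  simp only [Subgroup.mem_iInf] at h2 ⊢
  exact fun i hi => (hKn i).conj_mem _ (h2 i hi) g

omit [TopologicalSpace G] [IsTopologicalGroup G] [CompactSpace G] in
theorem f3_un {ι : Type} (O : ι → Set G) (K : ι → Subgroup G) (hO : ∀ x, IsUn (K x) (O x))
    (N00 : Subgroup G) (T : Set G) (hTu : IsUn N00 T) (S : Finset ι) :
    IsUn (N00 ⊓ ⨅ x ∈ S, K x) (T \ ⋃ x ∈ S, O x) := by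
  intro a ha n hn
  rw [Subgroup.mem_inf] at hn
  have h2 := hn.2
  simp only [Subgroup.mem_iInf] at h2
  refine ⟨hTu a ha.1 n hn.1, fun h => ha.2 ?_⟩
  simp only [Set.mem_iUnion] at h ⊢
  obtain ⟨i, hi, h⟩ := h
  refine ⟨i, hi, ?_⟩
  have h3 := hO i _ h n⁻¹ ((K i).inv_mem (h2 i hi))
  rwa [mul_inv_cancel_right] at h3

/-- Proof: induction on `k`. `k = 0`: `S = ∅`, `frac_le_one`. Step: let `S` be given,
`N' = N00 ⊓ ⨅ x ∈ S, K x` (open, normal, so of finite index: `Subgroup.quotient_finite_of_isOpen`),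
`D = T \ ⋃ x ∈ S, O x`, a union of cosets of `N'`. Take `y` from `hT N'` and `S' = insert y S`:
`T \ ⋃ x ∈ S', O x = D \ O y`, `N00 ⊓ ⨅ x ∈ S', K x = N' ⊓ K y`; `frac_step`. -/
theorem frac_iter {ι : Type} (O : ι → Set G) (K : ι → Subgroup G) (hKn : ∀ x, (K x).Normal)
    (hKo : ∀ x, IsOpen (K x : Set G)) (hO : ∀ x, IsUn (K x) (O x)) {m : ℕ} (hm : 0 < m)
    (hKm : ∀ x, Nat.card (G ⧸ K x) ≤ m) (N00 : Subgroup G) (hn : N00.Normal)
    (ho : IsOpen (N00 : Set G)) (T : Set G) (hTu : IsUn N00 T)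
    (hT : ∀ N' : Subgroup G, N'.Normal → IsOpen (N' : Set G) →
      ∃ x, ∀ s0 ∈ T, ∃ s ∈ O x, s0⁻¹ * s ∈ N') (k : ℕ) :
    ∃ S : Finset ι, frac (N00 ⊓ ⨅ x ∈ S, K x) (T \ ⋃ x ∈ S, O x) ≤ (1 - 1 / (m : ℝ)) ^ k := by
  classical
  have hfin : ∀ S : Finset ι, Finite (G ⧸ (N00 ⊓ ⨅ x ∈ S, K x : Subgroup G)) := fun S =>
    Subgroup.quotient_finite_of_isOpen _ (f3_open K hKo N00 ho S)
  induction k with
  | zero =>
    refine ⟨∅, ?_⟩
    have := hfin ∅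
    rw [pow_zero]
    exact frac_le_one _ _
  | succ k ih =>
    obtain ⟨S, hS⟩ := ih
    obtain ⟨y, hy⟩ := hT (N00 ⊓ ⨅ x ∈ S, K x) (f3_normal K hKn N00 hn S) (f3_open K hKo N00 ho S)
    refine ⟨insert y S, ?_⟩
    have h1 := hfin S
    have h2 : Finite (G ⧸ K y) := Subgroup.quotient_finite_of_isOpen _ (hKo y)
    have h3 := frac_step (hKm y) (f3_un O K hO N00 T hTu S) (hO y) (fun s0 hs0 => hy s0 hs0.1)
    have e1 : (N00 ⊓ ⨅ x ∈ insert y S, K x : Subgroup G) = (N00 ⊓ ⨅ x ∈ S, K x) ⊓ K y := by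
      rw [Finset.iInf_insert, inf_comm (K y), inf_assoc]
    have e2 : T \ ⋃ x ∈ insert y S, O x = (T \ ⋃ x ∈ S, O x) \ O y := by
      rw [Finset.set_biUnion_insert, Set.union_comm, Set.diff_diff]
    rw [e1, e2, pow_succ']
    refine h3.trans (mul_le_mul_of_nonneg_left hS ?_)
    rw [sub_nonneg, div_le_one (by exact_mod_cast hm)]
    exact_mod_cast hm

end Pool.Agent.Lib.H81D
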