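import Mathlib
import Pool.Agent.Lib.H81D.F3

/-!
# Chunk F4 (M, pure): union over the classes
-/

namespace Pool.Agent.Lib.H81D

variable {G : Type} [Group G] [TopologicalSpace G] [IsTopologicalGroup G] [CompactSpace G]

theorem f4_un_diff {H : Type} [Group H] {N M : Subgroup H} {A B : Set H} (hA : IsUn N A)
    (hB : IsUn M B) : IsUn (N ⊓ M) (A \ B) := by
  intro a ha x hx
  refine ⟨hA a ha.1 x hx.1, fun hb => ha.2 ?_⟩
  have h := hB _ hb _ (M.inv_mem hx.2)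
  rwa [mul_assoc, mul_inv_cancel, mul_one] at h

theorem f4_un_inter {H : Type} [Group H] {N M : Subgroup H} {A B : Set H} (hA : IsUn N A)
    (hB : IsUn M B) : IsUn (N ⊓ M) (A ∩ B) := fun a ha x hx =>
  ⟨hA a ha.1 x hx.1, hB a ha.2 x hx.2⟩

theorem f4_un_bi {H : Type} [Group H] {ι : Type} (O : ι → Set H) (K : ι → Subgroup H)
    (hO : ∀ x, IsUn (K x) (O x)) (S : Finset ι) : IsUn (⨅ x ∈ S, K x) (⋃ x ∈ S, O x) := by
  intro a ha y hy
  simp only [Set.mem_iUnion] at ha ⊢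
  obtain ⟨x, hx, hax⟩ := ha
  refine ⟨x, hx, hO x a hax y ?_⟩
  have h1 : (⨅ x ∈ S, K x) ≤ K x := iInf₂_le x hx
  exact h1 hy

theorem f4_open {ι : Type} (K : ι → Subgroup G) (hKo : ∀ x, IsOpen (K x : Set G))
    (S : Finset ι) : IsOpen ((⨅ x ∈ S, K x : Subgroup G) : Set G) := by
  have h1 : ((⨅ x ∈ S, K x : Subgroup G) : Set G) = ⋂ x ∈ S, (K x : Set G) := by
    simp
  rw [h1]
  exact isOpen_biInter_finset fun x _ => hKo x

/-- Proof: `R` is finite. Let `ε' = ε / (Nat.card R + 1)` and `k` with `(1 - 1 / m) ^ k ≤ ε'`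
(`exists_pow_lt_of_lt_one`). For `r ∈ R` let `T r` be the coset `r`, `S r` from `frac_iter`, `S` the union of the `S r`,
`M = ⨅ x ∈ S, K x`, `N = N00 ⊓ M`. `O S = ⋃ x ∈ S, O x` is a union of cosets of `M`, so
`frac M (O S) = frac N (O S)` (`frac_eq`). `frac N (T r \ O S) ≤ frac N (T r \ O (S r)) =
frac (N00 ⊓ ⨅ x ∈ S r, K x) (T r \ O (S r)) ≤ ε'` (`frac_mono`, `frac_eq`). As `T r = (T r ∩ O S) ∪ (T r \ O S)`,
`frac N (T r ∩ O S) = frac N (T r) - frac N (T r \ O S) ≥ 1 / Nat.card (G ⧸ N00) - ε'` (`frac_union`, `frac_eq`,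
`frac_coset`). The sets `T r ∩ O S` are disjoint (`frac_iUnion`, `frac_mono`). -/
theorem frac_classes {ι : Type} (O : ι → Set G) (K : ι → Subgroup G) (hKn : ∀ x, (K x).Normal)
    (hKo : ∀ x, IsOpen (K x : Set G)) (hO : ∀ x, IsUn (K x) (O x)) {m : ℕ} (hm : 0 < m)
    (hKm : ∀ x, Nat.card (G ⧸ K x) ≤ m) (N00 : Subgroup G) (hn : N00.Normal)
    (ho : IsOpen (N00 : Set G)) (R : Set (G ⧸ N00))
    (hR : ∀ r ∈ R, ∀ N' : Subgroup G, N'.Normal → IsOpen (N' : Set G) →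
      ∃ x, ∀ s0 : G, (s0 : G ⧸ N00) = r → ∃ s ∈ O x, s0⁻¹ * s ∈ N') (ε : ℝ) (hε : 0 < ε) :
    ∃ S : Finset ι, (Nat.card R : ℝ) / Nat.card (G ⧸ N00) - ε ≤
      frac (⨅ x ∈ S, K x) (⋃ x ∈ S, O x) := by
  classical
  have hfin00 : Finite (G ⧸ N00) := Subgroup.quotient_finite_of_isOpen N00 ho
  set T : G ⧸ N00 → Set G := fun r => {g : G | (g : G ⧸ N00) = r} with hT
  have hTu : ∀ r, IsUn N00 (T r) := by
    intro r a ha x hx
    show ((a * x : G) : G ⧸ N00) = r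
    rw [QuotientGroup.mk_mul_of_mem a hx]
    exact ha
  set c : ℝ := (Nat.card R : ℝ) with hc
  have hc0 : 0 ≤ c := Nat.cast_nonneg _
  set ε' : ℝ := ε / (c + 1) with hε'
  have hε'0 : 0 < ε' := by positivity
  have hm1 : (1 : ℝ) ≤ m := by exact_mod_cast hm
  have hx0 : 0 ≤ 1 - 1 / (m : ℝ) := by
    have : 1 / (m : ℝ) ≤ 1 := by
      rw [div_le_one (by linarith)]; exact hm1
    linarith
  have hx1 : 1 - 1 / (m : ℝ) < 1 := by
    have : 0 < 1 / (m : ℝ) := by positivity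
    linarith
  obtain ⟨k, hk⟩ := exists_pow_lt_of_lt_one hε'0 hx1
  have hiter : ∀ r : G ⧸ N00, r ∈ R → ∃ S : Finset ι,
      frac (N00 ⊓ ⨅ x ∈ S, K x) (T r \ ⋃ x ∈ S, O x) ≤ (1 - 1 / (m : ℝ)) ^ k := by
    intro r hr
    exact frac_iter O K hKn hKo hO hm hKm N00 hn ho (T r) (hTu r) (hR r hr) k
  choose! Sf hSf using hiter
  have hRf : R.Finite := Set.toFinite R
  set S : Finset ι := hRf.toFinset.biUnion Sf with hS
  refine ⟨S, ?_⟩
  set M : Subgroup G := ⨅ x ∈ S, K x with hM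
  set U : Set G := ⋃ x ∈ S, O x with hU
  have hMo : IsOpen (M : Set G) := f4_open K hKo S
  have hNo : IsOpen ((N00 ⊓ M : Subgroup G) : Set G) := ho.inter hMo
  have hfinM : Finite (G ⧸ M) := Subgroup.quotient_finite_of_isOpen M hMo
  have hfinN : Finite (G ⧸ (N00 ⊓ M)) := Subgroup.quotient_finite_of_isOpen _ hNo
  have hUu : IsUn M U := f4_un_bi O K hO S
  have e1 : frac (N00 ⊓ M) U = frac M U := frac_eq inf_le_right hUu
  have key : ∀ r ∈ R, 1 / (Nat.card (G ⧸ N00) : ℝ) - ε' ≤ frac (N00 ⊓ M) (T r ∩ U) := by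
    intro r hr
    have hsub : Sf r ⊆ S := Finset.subset_biUnion_of_mem Sf (hRf.mem_toFinset.2 hr)
    have hMle : M ≤ ⨅ x ∈ Sf r, K x := by
      refine le_iInf₂ fun x hx => ?_
      exact iInf₂_le x (hsub hx)
    have hUsub : (⋃ x ∈ Sf r, O x) ⊆ U :=
      Set.biUnion_subset_biUnion_left fun x hx => hsub hx
    have h1 : frac (N00 ⊓ M) (T r \ U) ≤ frac (N00 ⊓ M) (T r \ ⋃ x ∈ Sf r, O x) :=
      frac_mono (Set.sdiff_subset_sdiff_right hUsub)
    have h2 : frac (N00 ⊓ M) (T r \ ⋃ x ∈ Sf r, O x) =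
        frac (N00 ⊓ ⨅ x ∈ Sf r, K x) (T r \ ⋃ x ∈ Sf r, O x) :=
      frac_eq (inf_le_inf_left _ hMle) (f4_un_diff (hTu r) (f4_un_bi O K hO (Sf r)))
    have h3 := hSf r hr
    have h4 : frac (N00 ⊓ M) (T r) = 1 / (Nat.card (G ⧸ N00) : ℝ) := by
      rw [frac_eq inf_le_left (hTu r)]
      exact frac_coset N00 r
    have hI1 : IsUn (N00 ⊓ M) (T r ∩ U) := f4_un_inter (hTu r) hUu
    have hI2 : IsUn (N00 ⊓ M) (T r \ U) := f4_un_diff (hTu r) hUu
    have h5 := frac_union hI1 hI2 (by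
      rw [Set.disjoint_left]
      rintro x hx hx2
      exact hx2.2 hx.2)
    rw [Set.inter_union_sdiff, h4] at h5
    linarith
  have hdis : frac (N00 ⊓ M) (⋃ r ∈ hRf.toFinset, (T r ∩ U)) =
      ∑ r ∈ hRf.toFinset, frac (N00 ⊓ M) (T r ∩ U) := by
    refine frac_iUnion _ _ (fun r _ => f4_un_inter (hTu r) hUu) ?_
    intro i _ j _ hij
    rw [Set.disjoint_left]
    rintro x hx hx2
    have h1 : (x : G ⧸ N00) = i := hx.1
    have h2 : (x : G ⧸ N00) = j := hx2.1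
    exact hij (h1.symm.trans h2)
  have hle : frac (N00 ⊓ M) (⋃ r ∈ hRf.toFinset, (T r ∩ U)) ≤ frac (N00 ⊓ M) U :=
    frac_mono (Set.iUnion₂_subset fun r _ => Set.inter_subset_right)
  have hsum : c * (1 / (Nat.card (G ⧸ N00) : ℝ) - ε') ≤
      ∑ r ∈ hRf.toFinset, frac (N00 ⊓ M) (T r ∩ U) := by
    have h1 := Finset.card_nsmul_le_sum hRf.toFinset (fun r => frac (N00 ⊓ M) (T r ∩ U))
      (1 / (Nat.card (G ⧸ N00) : ℝ) - ε') (fun r hr => key r (hRf.mem_toFinset.1 hr))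
    rw [nsmul_eq_mul] at h1
    have h2 : (hRf.toFinset.card : ℝ) = c := by
      rw [hc, Nat.card_coe_set_eq, Set.ncard_eq_toFinset_card R hRf]
    rwa [h2] at h1
  have hfin : c / Nat.card (G ⧸ N00) - ε ≤ c * (1 / (Nat.card (G ⧸ N00) : ℝ) - ε') := by
    have h1 : c * ε' ≤ ε := by
      rw [hε', mul_div_assoc', div_le_iff₀ (by linarith)]
      nlinarith
    have h2 : c / Nat.card (G ⧸ N00) = c * (1 / (Nat.card (G ⧸ N00) : ℝ)) := by ring
    rw [mul_sub, ← h2]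
    linarith
  rw [← e1]
  linarith

end Pool.Agent.Lib.H81D
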