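import Mathlib
import Pool.Agent.Lib.H81D.A1

/-!
# Chunk H1 (M): the common field and its Galois group
-/

namespace Pool.Agent.Lib.H81D

open Polynomial Module Filter Topology NumberField Pool.Agent.GSem Pool.Agent.GSD Pool.Agent.Ord

variable {Ω : Type} [Field Ω] [CharZero Ω] [IsAlgClosure ℚ Ω]

/-- The supremum of the kernels. -/
def N00 (Ω : Type) [Field Ω] [CharZero Ω] (X : Set (ℕ × ℚ[X])) : Subgroup Gal(Ω/ℚ) :=
  ⨆ x ∈ X, kerP Ω x.2

instance N00_normal (X : Set (ℕ × ℚ[X])) : (N00 Ω X).Normal :=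
  Subgroup.biSup_normal X (fun x => kerP Ω x.2) fun x _ => kerP_normal x.2

/-- It contains an open subgroup (`isOpen_kerP`, `Subgroup.isOpen_mono`). -/
theorem isOpen_N00 {X : Set (ℕ × ℚ[X])} (hX : X.Nonempty) (hP : ∀ x ∈ X, x.2 ≠ 0) :
    IsOpen (N00 Ω X : Set Gal(Ω/ℚ)) := by
  obtain ⟨x, hx⟩ := hX
  have h1 : kerP Ω x.2 ≤ N00 Ω X := le_iSup₂_of_le x hx le_rfl
  exact Subgroup.isOpen_mono h1 (isOpen_kerP (hP x hx))

theorem h1_kerP {P : ℚ[X]} (hP : P ≠ 0) :
    kerP Ω P = (IntermediateField.adjoin ℚ (P.rootSet Ω)).fixingSubgroup := by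
  apply le_antisymm
  · rw [← IntermediateField.le_iff_le, IntermediateField.adjoin_le_iff]
    intro z hz σ
    exact σ.2 z (mem_rootSet.1 hz).2
  · intro σ hσ z hz
    rw [IntermediateField.mem_fixingSubgroup_iff] at hσ
    exact hσ z (IntermediateField.subset_adjoin ℚ _ (mem_rootSet.2 ⟨hP, hz⟩))

omit [IsAlgClosure ℚ Ω] in
theorem h1_mem (H : Subgroup Gal(Ω/ℚ)) (y : Ω) :
    y ∈ IntermediateField.fixedField H ↔ H ≤ MulAction.stabilizer Gal(Ω/ℚ) y :=
  ⟨fun h σ hσ => h ⟨σ, hσ⟩, fun h σ => h σ.2⟩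

/-- Proof: `kerP Ω P` is the fixing subgroup of `adjoin ℚ (P.rootSet Ω)`, whose fixed field is again
this field (`InfiniteGalois.fixedField_fixingSubgroup`). An element `y` is in `commonField` iff it is in
all these fields iff it is fixed by all `kerP Ω x.2` iff it is fixed by their supremum. -/
theorem fixedField_N00 (X : Set (ℕ × ℚ[X])) (hP : ∀ x ∈ X, x.2 ≠ 0) :
    IntermediateField.fixedField (N00 Ω X) = commonField Ω X := by
  have hgal : IsGalois ℚ Ω := IsAlgClosure.isGalois ℚ Ω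
  ext y
  rw [h1_mem, N00, iSup₂_le_iff, commonField]
  simp only [← SetLike.mem_coe, IntermediateField.coe_iInf, Set.mem_iInter]
  refine forall₂_congr fun x hx => ?_
  rw [← h1_mem, h1_kerP (hP x hx), InfiniteGalois.fixedField_fixingSubgroup]
  exact Iff.rfl

/-- `N00` is closed (open), so `InfiniteGalois.fixingSubgroup_fixedField`. -/
theorem fixingSubgroup_commonField {X : Set (ℕ × ℚ[X])} (hX : X.Nonempty)
    (hP : ∀ x ∈ X, x.2 ≠ 0) : (commonField Ω X).fixingSubgroup = N00 Ω X := by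
  have hgal : IsGalois ℚ Ω := IsAlgClosure.isGalois ℚ Ω
  rw [← fixedField_N00 X hP]
  exact InfiniteGalois.fixingSubgroup_fixedField
    ⟨N00 Ω X, (N00 Ω X).isClosed_of_isOpen (isOpen_N00 hX hP)⟩

theorem h1_equiv {k K : Type} [Field k] [Field K] [Algebra k K] [IsGalois k K] (N : Subgroup Gal(K/k)) (hn : N.Normal)
    (hN : IsOpen (N : Set Gal(K/k))) (E : IntermediateField k K) (hE : IntermediateField.fixedField N = E) :
    FiniteDimensional k E ∧ IsGalois k E ∧ ∃ e : Gal(K/k) ⧸ N ≃ (E ≃ₐ[k] E),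
      ∀ (τ : Gal(K/k)) (y : E), ((e τ y : E) : K) = τ y := by
  subst hE
  obtain ⟨H, hH⟩ : ∃ H : ClosedSubgroup Gal(K/k), H.1 = N := ⟨⟨N, N.isClosed_of_isOpen hN⟩, rfl⟩
  subst hH
  have hfix : (IntermediateField.fixedField H.1).fixingSubgroup = H.1 := InfiniteGalois.fixingSubgroup_fixedField H
  have hfd : FiniteDimensional k (IntermediateField.fixedField H.1) := by
    rw [← InfiniteGalois.isOpen_iff_finite, hfix]
    exact hN
  have hg : IsGalois k (IntermediateField.fixedField H.1) := by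
    rw [← InfiniteGalois.normal_iff_isGalois, hfix]
    exact hn
  refine ⟨hfd, hg, (InfiniteGalois.normalAutEquivQuotient H).toEquiv, fun τ y => ?_⟩
  have h1 := InfiniteGalois.normalAutEquivQuotient_apply H τ
  show ((InfiniteGalois.normalAutEquivQuotient H (τ : Gal(K/k) ⧸ H.1) y : IntermediateField.fixedField H.1) : K) = τ y
  rw [h1]
  exact AlgEquiv.restrictNormalHom_apply _ τ y

theorem h1_equivQ (N : Subgroup Gal(Ω/ℚ)) (hn : N.Normal)
    (hN : IsOpen (N : Set Gal(Ω/ℚ))) (E : IntermediateField ℚ Ω) (hE : IntermediateField.fixedField N = E) :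
    FiniteDimensional ℚ E ∧ IsGalois ℚ E ∧ ∃ e : Gal(Ω/ℚ) ⧸ N ≃ (E ≃ₐ[ℚ] E),
      ∀ (τ : Gal(Ω/ℚ)) (y : E), ((e τ y : E) : Ω) = τ y := by
  have hgal : IsGalois ℚ Ω := IsAlgClosure.isGalois ℚ Ω
  exact h1_equiv N hn hN E hE

/-- `Gal(Ω/ℚ) ⧸ N00 ≃ Gal(commonField / ℚ)` (`InfiniteGalois.normalAutEquivQuotient` or the first
isomorphism theorem for the restriction to the normal subfield) and `IsGalois.card_aut_eq_finrank`. -/
theorem card_N00 {X : Set (ℕ × ℚ[X])} (hX : X.Nonempty) (hP : ∀ x ∈ X, x.2 ≠ 0) :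
    Nat.card (Gal(Ω/ℚ) ⧸ N00 Ω X) = finrank ℚ (commonField Ω X) := by
  obtain ⟨h1, h2, e, -⟩ := h1_equivQ (N00 Ω X) (N00_normal X) (isOpen_N00 hX hP) _ (fixedField_N00 X hP)
  rw [Nat.card_congr e]
  exact IsGalois.card_aut_eq_finrank ℚ (commonField Ω X)

/-- The isomorphism of `card_N00` takes the class of `τ` to the restriction of `τ` (all automorphisms
of `commonField` are restrictions, and `τ`, `τ'` have the same restriction iff `τ⁻¹ * τ' ∈ N00`). -/
theorem card_oddClasses {X : Set (ℕ × ℚ[X])} (hX : X.Nonempty) (hP : ∀ x ∈ X, x.2 ≠ 0) (w : ℤ) :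
    Nat.card {r : Gal(Ω/ℚ) ⧸ N00 Ω X | ∃ x ∈ X, ∃ τ : Gal(Ω/ℚ), IsOdd w x.1 x.2 τ ∧
      (τ : Gal(Ω/ℚ) ⧸ N00 Ω X) = r} = Nat.card (oddClasses Ω X w) := by
  obtain ⟨h1, h2, e, he⟩ := h1_equivQ (N00 Ω X) (N00_normal X) (isOpen_N00 hX hP) _ (fixedField_N00 X hP)
  refine Nat.card_congr (e.subtypeEquiv fun r => ?_)
  constructor
  · rintro ⟨x, hx, τ, hτ, rfl⟩
    exact ⟨x, hx, τ, hτ, fun y => he τ y⟩
  · rintro ⟨x, hx, τ, hτ, h⟩
    refine ⟨x, hx, τ, hτ, ?_⟩
    apply e.injective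
    apply AlgEquiv.ext
    intro y
    apply Subtype.ext
    rw [he, ← h y]

/-- If the common field is `ℚ` then `oddClasses` has exactly one element (the identity, the
restriction of the odd element of `exists_odd`) and the degree is 1. -/
theorem card_of_bot {X : Set (ℕ × ℚ[X])} (hX : X.Nonempty) (w : ℤ)
    (hp : ∀ x ∈ X, 0 < x.1 ∧ IsPure w x.1 x.2) (hb : commonField Ω X = ⊥) :
    Nat.card (oddClasses Ω X w) = 1 ∧ finrank ℚ (commonField Ω X) = 1 := by
  have hy : ∀ y : commonField Ω X, ∃ q : ℚ, (y : Ω) = algebraMap ℚ Ω q := by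
    intro y
    have h1 : (y : Ω) ∈ (⊥ : IntermediateField ℚ Ω) := hb ▸ y.2
    obtain ⟨q, hq⟩ := IntermediateField.mem_bot.1 h1
    exact ⟨q, hq.symm⟩
  have hfix : ∀ (σ : commonField Ω X ≃ₐ[ℚ] commonField Ω X) (y : commonField Ω X), σ y = y := by
    intro σ y
    obtain ⟨q, hq⟩ := hy y
    have h1 : y = algebraMap ℚ (commonField Ω X) q := Subtype.ext hq
    rw [h1, AlgEquiv.commutes]
  refine ⟨?_, ?_⟩
  · rw [Nat.card_eq_one_iff_unique]
    constructor
    · constructor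
      intro σ σ'
      apply Subtype.ext
      apply AlgEquiv.ext
      intro y
      rw [hfix σ.1, hfix σ'.1]
    · obtain ⟨x, hx⟩ := hX
      obtain ⟨c, hc⟩ := exists_odd Ω w
      refine ⟨⟨AlgEquiv.refl, x, hx, c, hc x.1 x.2 (hp x hx).1 (hp x hx).2, fun y => ?_⟩⟩
      obtain ⟨q, hq⟩ := hy y
      show (y : Ω) = c y
      rw [hq, AlgEquiv.commutes]
  · rw [hb]
    exact IntermediateField.finrank_bot

end Pool.Agent.Lib.H81D
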