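import Mathlib
import Pool.Agent.Lib.H81D.Defs

/-!
# Density one semisimplicity: the set of the neat Frobenius polynomials, regular systems
-/

namespace Pool.Agent.Lib.H81D

open Polynomial Module Filter Topology Pool.Agent.GSem Pool.Agent.GSD

variable {Ω : Type} [Field Ω] [CharZero Ω]

/-- The set of the neat Frobenius polynomials of the system. -/
def neatSet {Γ : Subgroup Gal(Ω/ℚ)} {n : ℕ}
    (ρ : ∀ (p : ℕ) [Fact p.Prime], Representation ℚ_[p] Γ (Fin n → ℚ_[p])) (w : ℤ) :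
    Set (ℕ × ℚ[X]) :=
  {x | IsFrobPoly ρ w x.1 x.2 ∧ IsNeat Ω x.2}

/-- The element `g` is strongly regular for `r`: all powers `g ^ k`, `k > 0`, act with `n` distinct
eigenvalues. -/
def IsStrReg {p : ℕ} [Fact p.Prime] {Γ : Subgroup Gal(Ω/ℚ)} {n : ℕ}
    (r : Representation ℚ_[p] Γ (Fin n → ℚ_[p])) (g : Γ) : Prop :=
  ∀ k : ℕ, 0 < k → (LinearMap.charpoly (r (g ^ k))).Separable

end Pool.Agent.Lib.H81D
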