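import Mathlib
import Pool.Agent.Lib.H81D.R2
import Pool.Agent.Lib.H81D.C1
import Pool.Agent.Lib.H81D.C3

/-!
# Neat Frobenius polynomials which split over `ℚ_l`
-/

namespace Pool.Agent.Lib.H81D

open Polynomial Module Filter Topology NumberField Pool.Agent.GSem Pool.Agent.GSD Pool.Agent.Ord

variable {Ω : Type} [Field Ω] [CharZero Ω] [IsAlgClosure ℚ Ω] {Γ : Subgroup Gal(Ω/ℚ)} {n : ℕ}
  {ρ : ∀ (p : ℕ) [Fact p.Prime], Representation ℚ_[p] Γ (Fin n → ℚ_[p])} {w : ℤ}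

/-- Neat Frobenius polynomials of Frobenius elements in an open set. -/
theorem exists_neat_mem (hΓ : IsOpen (Γ : Set Gal(Ω/ℚ))) (hsys : IsPureSys ρ w) (p : ℕ)
    [Fact p.Prime] (hcont : IsCont (ρ p)) (g : Γ)
    (hg : ∀ M : ℕ, 0 < M → (LinearMap.charpoly (ρ p (g ^ M))).Separable) (U' : Set Γ)
    (hU' : IsOpen U') (hgU' : g ∈ U') :
    ∃ (q : ℕ) (φ : Γ) (P : ℚ[X]), p ≠ q ∧ φ ∈ U' ∧ IsDatum ρ w q φ P ∧ IsNeat Ω P := by
  have halg : Algebra.IsAlgebraic ℚ Ω := IsAlgClosure.isAlgebraic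
  obtain ⟨M, hM, hexp⟩ := exists_exp Ω n
  have hgM := hg M hM
  obtain ⟨T, hT⟩ := hsys
  have hU : IsOpen ({x : Γ | dsc (mat (ρ p) x ^ M) ≠ 0} ∩ U') := by
    have h1 : Continuous fun x : Γ => dsc (mat (ρ p) x ^ M) :=
      continuous_dsc.comp ((continuous_mat hcont).pow M)
    exact (isOpen_ne_fun h1 continuous_const).inter hU'
  have hgU : g ∈ {x : Γ | dsc (mat (ρ p) x ^ M) ≠ 0} ∩ U' := by
    refine ⟨?_, hgU'⟩
    show dsc (mat (ρ p) g ^ M) ≠ 0
    rw [← mat_pow, dsc_ne_zero_iff, mat_charpoly]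
    exact hgM
  obtain ⟨q, hq, hqp, φ, hφ, hfr⟩ := exists_frob_mem hΓ _ hU g hgU (max p (T.sup id))
  have hpq : p ≠ q := (lt_of_le_of_lt (le_max_left _ _) hq).ne
  have hqT : q ∉ T := by
    intro h
    have h1 : q ≤ T.sup id := Finset.le_sup (f := id) h
    exact absurd (lt_of_le_of_lt (le_max_right p _) hq) (not_lt.2 h1)
  obtain ⟨P, hP, hchar⟩ := hT q hqp hqT φ hfr
  refine ⟨q, φ, P, hpq, hφ.2, ⟨hqp, hP, hfr, fun p' _ hp' => hchar p' hp'⟩, ?_⟩
  have hchA : (mat (ρ p) φ).charpoly = P.map (algebraMap ℚ ℚ_[p]) := by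
    rw [mat_charpoly]
    exact hchar p hpq
  have hφ' : dsc (mat (ρ p) φ ^ M) ≠ 0 := hφ.1
  have hsM : (mat (ρ p) φ ^ M).charpoly.Separable := (dsc_ne_zero_iff _).1 hφ'
  have hsA : (mat (ρ p) φ).charpoly.Separable := (dsc_ne_zero_iff _).1 (dsc_ne_zero_of_pow hφ')
  have hmon : (P.map (algebraMap ℚ ℚ_[p])).Monic := by
    rw [← hchA]
    exact Matrix.charpoly_monic _
  have hP0 : P ≠ 0 := by
    rintro rfl
    rw [Polynomial.map_zero] at hmon
    exact hmon.ne_zero rfl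
  have hdeg : P.natDegree ≤ n := by
    rw [← natDegree_map (algebraMap ℚ ℚ_[p]), ← hchA, Matrix.charpoly_natDegree_eq_dim,
      Fintype.card_fin]
  refine ⟨?_, fun z z' hz hz' k hk hzz => ?_⟩
  · rw [hchA] at hsA
    exact (separable_map _).1 hsA
  · have hz0 : z' ≠ 0 := (star_root hqp.pos hP hz').1
    have hpow := hexp P hP0 hdeg z z' hz hz' hz0 k hk hzz
    let ι : Ω →ₐ[ℚ] PadicAlgCl p := IsAlgClosed.lift
    have hroot : ∀ y : Ω, aeval y P = 0 → aeval (ι y) (mat (ρ p) φ).charpoly = 0 := by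
      intro y hy
      rw [hchA, aeval_map_algebraMap, Polynomial.aeval_algHom_apply, hy, map_zero]
    have h1 : ι z = ι z' := by
      refine r2_inj _ hM hsA hsM (hroot z hz) (hroot z' hz') ?_
      rw [← map_pow, ← map_pow, hpow]
    exact ι.toRingHom.injective h1

/-- If the eigenvalues of `g` are in `ℚ_l` there is such a polynomial with all roots in `ℚ_l`; so
it is fixed by all elements of `Gal(Ω/ℚ)` which are induced by local automorphisms. -/
theorem exists_neat_split (hΓ : IsOpen (Γ : Set Gal(Ω/ℚ))) (hsys : IsPureSys ρ w) (l : ℕ)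
    [Fact l.Prime] (hcont : IsCont (ρ l)) (g : Γ)
    (hg : ∀ M : ℕ, 0 < M → (LinearMap.charpoly (ρ l (g ^ M))).Separable)
    (hs : (LinearMap.charpoly (ρ l g)).Splits) :
    ∃ (q : ℕ) (P : ℚ[X]), IsFrobPoly ρ w q P ∧ IsNeat Ω P ∧
      ∀ (ι : Ω →+* PadicAlgCl l) (σ : Gal(PadicAlgCl l/ℚ_[l])) (h : Gal(Ω/ℚ)), Compat ι σ h →
        h ∈ kerP Ω P := by
  have hsep : (mat (ρ l) g).charpoly.Separable := by
    have h1 := hg 1 one_pos
    rwa [pow_one, ← mat_charpoly] at h1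
  obtain ⟨δ, hδ, hroot⟩ := exists_rootMap (mat (ρ l) g).charpoly (Matrix.charpoly_monic _) hsep 1
    one_pos
  obtain ⟨N, hN⟩ := exists_cg_charpoly (mat (ρ l) g) δ hδ
  let U' : Set Γ := {φ | Cg N (mat (ρ l) φ) (mat (ρ l) g)}
  have hU' : IsOpen U' := by
    have h0 : (0 : ℝ) < l := by exact_mod_cast (Fact.out : l.Prime).pos
    have h1 : U' = ⋂ i : Fin n, ⋂ j : Fin n,
        (fun φ : Γ => mat (ρ l) φ i j) ⁻¹' (Metric.closedBall (mat (ρ l) g i j)
          (((l : ℝ) ^ N)⁻¹)) := by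
      ext φ
      simp only [Set.mem_iInter, Set.mem_preimage, Metric.mem_closedBall, dist_eq_norm]
      rfl
    rw [h1]
    refine isOpen_iInter_of_finite fun i => isOpen_iInter_of_finite fun j => ?_
    refine (IsUltrametricDist.isOpen_closedBall _ (by positivity)).preimage ?_
    exact (continuous_mat hcont).matrix_elem i j
  obtain ⟨q, φ, P, hlq, hφ, hd, hn⟩ := exists_neat_mem hΓ hsys l hcont g hg U' hU'
    (fun i j => by
      rw [sub_self, norm_zero]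
      positivity)
  refine ⟨q, P, (isFrobPoly_iff ρ w q P).2 ⟨φ, hd⟩, hn, fun ι σ h hc y hy => ?_⟩
  have hA : (mat (ρ l) φ).charpoly = P.map (algebraMap ℚ ℚ_[l]) := by
    rw [mat_charpoly]
    exact hd.char l hlq
  have hdeg : (P.map (algebraMap ℚ ℚ_[l])).natDegree = (mat (ρ l) g).charpoly.natDegree := by
    rw [← hA, Matrix.charpoly_natDegree_eq_dim, Matrix.charpoly_natDegree_eq_dim]
  have hco := hN _ hφ
  rw [hA] at hco
  obtain ⟨-, β, -, -, hsurj, hequi⟩ := hroot _ (hd.monic.map _) hdeg hco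
  obtain ⟨z, hz, hzy⟩ := hsurj (ι y) (by
    have h1 : aeval (ι y) P = ι (aeval y P) := aeval_algHom_apply ι.toRatAlgHom y P
    rw [aeval_map_algebraMap, h1, hy, map_zero])
  -- `z` lies in `ℚ_l`
  have hzl : σ z = z := by
    rw [← mat_charpoly] at hs
    obtain ⟨x, hx⟩ : ∃ x : ℚ_[l], algebraMap ℚ_[l] (PadicAlgCl l) x = z := by
      have h2 := hs.eq_prod_roots_of_monic (Matrix.charpoly_monic _)
      rw [h2, map_multiset_prod, Multiset.map_map, Multiset.prod_eq_zero_iff] at hz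
      obtain ⟨x, -, hx⟩ := Multiset.mem_map.1 hz
      refine ⟨x, ?_⟩
      simp only [Function.comp, map_sub, aeval_X, aeval_C] at hx
      exact (sub_eq_zero.1 hx).symm
    rw [← hx, AlgEquiv.commutes]
  have h3 := hequi σ z hz
  rw [hzl, hzy, ← hc] at h3
  exact ι.injective h3

end Pool.Agent.Lib.H81D
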