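import Mathlib
import Pool.Agent.Lib.H81D.F1
import Pool.Agent.Lib.H81D.Z2

/-!
# A normal subgroup which contains Frobenius elements at more than half of the primes
-/

namespace Pool.Agent.Lib.H81D

open Polynomial Module Filter Topology NumberField Pool.Agent.GSem Pool.Agent.GSD Pool.Agent.Ord

variable {Ω : Type} [Field Ω] [CharZero Ω] [IsAlgClosure ℚ Ω]

theorem s2_frac_compl {G : Type} [Group G] (N : Subgroup G) [Finite (G ⧸ N)] (hN : N ≠ ⊤) :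
    (1 / 2 : ℝ) ≤ frac N ((N : Set G)ᶜ) := by
  have h1 : IsUn N (N : Set G) := fun a ha m hm => N.mul_mem ha hm
  have h2 : IsUn N ((N : Set G)ᶜ) := by
    intro a ha m hm h
    refine ha ?_
    have h3 := N.mul_mem h (N.inv_mem hm)
    rwa [mul_inv_cancel_right] at h3
  have h3 := frac_union h1 h2 disjoint_compl_right
  have h4 : frac N ((N : Set G) ∪ (N : Set G)ᶜ) = 1 := by
    rw [Set.union_compl_self]
    unfold frac
    have h5 : ((fun g : G => (g : G ⧸ N)) '' Set.univ) = Set.univ := by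
      rw [Set.image_univ]
      exact Set.range_eq_univ.2 QuotientGroup.mk_surjective
    rw [h5, Nat.card_univ, div_self]
    exact_mod_cast Nat.card_pos.ne'
  have h5 : frac N (N : Set G) = 1 / (Nat.card (G ⧸ N) : ℝ) := by
    rw [← frac_coset N (QuotientGroup.mk 1)]
    congr 1
    ext g
    rw [Set.mem_setOf_eq, eq_comm, QuotientGroup.eq, inv_one, one_mul]
    rfl
  have h6 : (2 : ℝ) ≤ (Nat.card (G ⧸ N) : ℝ) := by
    have h7 : 1 < Nat.card (G ⧸ N) := by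
      have h8 : Nat.card (G ⧸ N) = N.index := rfl
      have h9 : N.index ≠ 1 := fun h => hN (Subgroup.index_eq_one.1 h)
      have h10 : 0 < Nat.card (G ⧸ N) := Nat.card_pos
      omega
    exact_mod_cast h7
  have h7 : 1 / (Nat.card (G ⧸ N) : ℝ) ≤ 1 / 2 := one_div_le_one_div_of_le (by norm_num) h6
  linarith

/-- If for a set of primes `l` of upper density larger than `1 / 2` there is a Frobenius element at
`l` in the open normal subgroup `N`, then `N` is the whole group. -/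
theorem top_of_density (N : Subgroup Gal(Ω/ℚ)) [N.Normal] (hN : IsOpen (N : Set Gal(Ω/ℚ)))
    (S : Set ℕ) (hS : ∀ l ∈ S, l.Prime → ∃ h ∈ N, IsFrobAt l h)
    (hd : ∃ δ : ℝ, 1 / 2 < δ ∧ ∃ᶠ x : ℕ in atTop,
      δ * (Nat.primeCounting x : ℝ) ≤ ({l | l ≤ x ∧ l.Prime ∧ l ∈ S}.ncard : ℝ)) : N = ⊤ := by
  classical
  by_contra hne
  obtain ⟨δ, hδ, hfreq⟩ := hd
  have hGal : IsGalois ℚ Ω := isGaloisΩ
  have hfin := finite_quotient N hN
  have h1 := s2_frac_compl N hne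
  have hu : IsUn N ((N : Set Gal(Ω/ℚ))ᶜ) := by
    intro a ha m hm h
    refine ha ?_
    have h3 := N.mul_mem h (N.inv_mem hm)
    rwa [mul_inv_cancel_right] at h3
  have hc : ∀ a ∈ ((N : Set Gal(Ω/ℚ))ᶜ), ∀ g : Gal(Ω/ℚ), g * a * g⁻¹ ∈ ((N : Set Gal(Ω/ℚ))ᶜ) := by
    intro a ha g h
    refine ha ?_
    have h3 := (inferInstance : N.Normal).conj_mem _ h g⁻¹
    have h4 : g⁻¹ * (g * a * g⁻¹) * g⁻¹⁻¹ = a := by group
    rwa [h4] at h3
  have h2 := cheb_union N hN _ hu hc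
  obtain ⟨b, hb⟩ := exists_bound_frob_conj N hN
  set A : Set ℕ := {p | ∃ φ ∈ ((N : Set Gal(Ω/ℚ))ᶜ), IsFrobAt p φ} with hA
  have hdisj : ∀ l : ℕ, b < l → l.Prime → l ∈ S → l ∉ A := by
    rintro l hbl hl hlS ⟨φ', hφ'N, hφ'⟩
    obtain ⟨h, hhN, hh⟩ := hS l hlS hl
    obtain ⟨g, hg⟩ := hb l hbl hl h φ' hh hφ'
    refine hφ'N ?_
    have h3 : g * φ' * g⁻¹ ∈ N := by
      have h4 := N.mul_mem hhN hg
      rwa [mul_inv_cancel_left] at h4
    have h4 := (inferInstance : N.Normal).conj_mem _ h3 g⁻¹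
    have h5 : g⁻¹ * (g * φ' * g⁻¹) * g⁻¹⁻¹ = φ' := by group
    rwa [h5] at h4
  have h3 := h2 (1 / 2 - (δ - 1 / 2) / 2) (by linarith)
  have hpi : Tendsto (fun x : ℕ => (Nat.primeCounting x : ℝ)) atTop atTop :=
    tendsto_natCast_atTop_atTop.comp Nat.tendsto_primeCounting
  have h4 := hpi.eventually_gt_atTop (((b : ℝ) + 1) / ((δ - 1 / 2) / 2))
  obtain ⟨x, hx1, hx2, hx3⟩ := (hfreq.and_eventually (h3.and h4)).exists
  -- counting
  have h5 : {l | l ≤ x ∧ l.Prime ∧ l ∈ S}.ncard + {l | l ≤ x ∧ l.Prime ∧ l ∈ A}.ncard ≤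
      Nat.primeCounting x + (b + 1) := by
    have hf : ∀ Q : ℕ → Prop, {l | l ≤ x ∧ Q l}.Finite := fun Q =>
      (Set.finite_Iic x).subset fun l hl => hl.1
    have h6 : {l | l ≤ x ∧ l.Prime ∧ l ∈ S} ∪ {l | l ≤ x ∧ l.Prime ∧ l ∈ A} ⊆
        {l | l ≤ x ∧ l.Prime} := by
      rintro l (⟨h7, h8, -⟩ | ⟨h7, h8, -⟩)
      · exact ⟨h7, h8⟩
      · exact ⟨h7, h8⟩
    have h7 : {l | l ≤ x ∧ l.Prime ∧ l ∈ S} ∩ {l | l ≤ x ∧ l.Prime ∧ l ∈ A} ⊆ Set.Iic b := by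
      rintro l ⟨⟨h8, h9, h10⟩, ⟨-, -, h11⟩⟩
      by_contra hlt
      exact hdisj l (not_le.1 hlt) h9 h10 h11
    have h8 := Set.ncard_union_add_ncard_inter {l | l ≤ x ∧ l.Prime ∧ l ∈ S}
      {l | l ≤ x ∧ l.Prime ∧ l ∈ A} (hf _) (hf _)
    have h9 := Set.ncard_le_ncard h6 (hf _)
    have h10 := Set.ncard_le_ncard h7 (Set.finite_Iic b)
    have h11 : (Set.Iic b).ncard = b + 1 := by
      rw [Set.ncard_eq_toFinset_card', Set.toFinset_Iic, Nat.card_Iic]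
    have h12 : {l | l ≤ x ∧ l.Prime}.ncard = Nat.primeCounting x := by
      rw [Nat.primeCounting, Nat.primeCounting', Nat.count_eq_card_filter_range,
        ← Set.ncard_coe_finset]
      congr 1
      ext l
      simp [Nat.lt_succ_iff]
    omega
  have h6 : ({l | l ≤ x ∧ l.Prime ∧ l ∈ S}.ncard : ℝ) + ({l | l ≤ x ∧ l.Prime ∧ l ∈ A}.ncard : ℝ) ≤
      (Nat.primeCounting x : ℝ) + ((b : ℝ) + 1) := by exact_mod_cast h5
  have h7 : 0 < (δ - 1 / 2) / 2 := by linarith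
  rw [div_lt_iff₀ h7] at hx3
  nlinarith

end Pool.Agent.Lib.H81D
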