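import Mathlib
import Pool.Agent.Lib.H81D.S1
import Pool.Agent.Lib.H81D.S2
import Pool.Agent.Lib.H81D.Main
import Pool.Agent.Lib.H99.PD.LocalFrob

/-!
# Density one from split elements at more than half of the primes
-/

namespace Pool.Agent.Lib.H81D

open Polynomial Module Filter Topology NumberField Pool.Agent.GSem Pool.Agent.GSD Pool.Agent.Ord

variable {Ω : Type} [Field Ω] [CharZero Ω] [IsAlgClosure ℚ Ω] {Γ : Subgroup Gal(Ω/ℚ)} {n : ℕ}
  {ρ : ∀ (p : ℕ) [Fact p.Prime], Representation ℚ_[p] Γ (Fin n → ℚ_[p])} {w : ℤ}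

/-- If for a set of primes `l` of upper density larger than `1 / 2` the group `ρ l (Γ)` contains an
element with `n` different eigenvalues in `ℚ_l` such that no quotient of two of them is a root of
unity, then the intersection of the splitting fields of the neat Frobenius polynomials is `ℚ`. -/
theorem commonField_eq_bot (hΓ : IsOpen (Γ : Set Gal(Ω/ℚ)))
    (hcont : ∀ (p : ℕ) [Fact p.Prime], IsCont (ρ p)) (hsys : IsPureSys ρ w) (S : Set ℕ)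
    (hS : ∀ l ∈ S, ∀ [Fact l.Prime], ∃ g : Γ,
      (∀ k : ℕ, 0 < k → (LinearMap.charpoly (ρ l (g ^ k))).Separable) ∧
      (LinearMap.charpoly (ρ l g)).Splits)
    (hd : ∃ δ : ℝ, 1 / 2 < δ ∧ ∃ᶠ x : ℕ in atTop,
      δ * (Nat.primeCounting x : ℝ) ≤ ({l | l ≤ x ∧ l.Prime ∧ l ∈ S}.ncard : ℝ)) :
    {x : ℕ × ℚ[X] | IsFrobPoly ρ w x.1 x.2 ∧ IsNeat Ω x.2}.Nonempty ∧
      commonField Ω {x : ℕ × ℚ[X] | IsFrobPoly ρ w x.1 x.2 ∧ IsNeat Ω x.2} = ⊥ := by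
  classical
  have hGal : IsGalois ℚ Ω := isGaloisΩ
  have hcl : IsAlgClosed Ω := IsAlgClosure.isAlgClosed ℚ
  have halg : Algebra.IsAlgebraic ℚ Ω := IsAlgClosure.isAlgebraic
  set X : Set (ℕ × ℚ[X]) := {x : ℕ × ℚ[X] | IsFrobPoly ρ w x.1 x.2 ∧ IsNeat Ω x.2} with hX
  have hP : ∀ x ∈ X, x.2 ≠ 0 := fun x hx => hx.1.ne_zero
  have hne : X.Nonempty := by
    obtain ⟨δ, hδ, hfreq⟩ := hd
    have hpi : Tendsto (fun x : ℕ => (Nat.primeCounting x : ℝ)) atTop atTop :=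
      tendsto_natCast_atTop_atTop.comp Nat.tendsto_primeCounting
    obtain ⟨x, hx1, hx2⟩ := (hfreq.and_eventually (hpi.eventually_gt_atTop 0)).exists
    have h1 : (0 : ℝ) < ({l | l ≤ x ∧ l.Prime ∧ l ∈ S}.ncard : ℝ) := by
      have : 0 < δ * (Nat.primeCounting x : ℝ) := mul_pos (by linarith) hx2
      linarith
    have h2 : {l | l ≤ x ∧ l.Prime ∧ l ∈ S}.ncard ≠ 0 := by
      intro h
      rw [h] at h1
      norm_num at h1
    obtain ⟨l, -, hl, hlS⟩ := Set.nonempty_of_ncard_ne_zero h2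
    have hlp : Fact l.Prime := ⟨hl⟩
    obtain ⟨g, hg, hs⟩ := hS l hlS
    obtain ⟨q, P, hqP, hn, -⟩ := exists_neat_split hΓ hsys l (hcont l) g hg hs
    exact ⟨(q, P), hqP, hn⟩
  refine ⟨hne, ?_⟩
  have htop : N00 Ω X = ⊤ := by
    refine top_of_density (N00 Ω X) (isOpen_N00 hne hP) S (fun l hlS hl => ?_) hd
    have hlp : Fact l.Prime := ⟨hl⟩
    obtain ⟨g, hg, hs⟩ := hS l hlS
    obtain ⟨q, P, hqP, hn, hk⟩ := exists_neat_split hΓ hsys l (hcont l) g hg hs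
    let ι : Ω →+* PadicAlgCl l :=
      (IsAlgClosed.lift (M := PadicAlgCl l) (R := ℚ) (S := Ω) : Ω →ₐ[ℚ] PadicAlgCl l)
    obtain ⟨τ, h, hc, -, hfr⟩ := Pool.Agent.PD.exists_compat_frob ι
    refine ⟨h, ?_, hfr⟩
    have h1 : kerP Ω ((q, P) : ℕ × ℚ[X]).2 ≤ N00 Ω X :=
      le_iSup₂_of_le (f := fun (x : ℕ × ℚ[X]) (_ : x ∈ X) => kerP Ω x.2) (q, P) ⟨hqP, hn⟩ le_rfl
    exact h1 (hk ι τ h hc)
  rw [← fixedField_N00 X hP, htop, InfiniteGalois.fixedField_bot]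

end Pool.Agent.Lib.H81D
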