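import Mathlib
import Pool.Agent.Lib.H81D.S3
import Pool.Agent.Lib.H81D.Exist
import Pool.Agent.Lib.H81D.NeatDef

/-!
# Density one semisimplicity: final form
-/

namespace Pool.Agent.Lib.H81D

open Polynomial Module Filter Topology NumberField Pool.Agent.GSem Pool.Agent.GSD Pool.Agent.Ord

variable {Ω : Type} [Field Ω] [CharZero Ω] [IsAlgClosure ℚ Ω] {Γ : Subgroup Gal(Ω/ℚ)} {n : ℕ}
  {ρ : ∀ (p : ℕ) [Fact p.Prime], Representation ℚ_[p] Γ (Fin n → ℚ_[p])} {w : ℤ}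

/-- Complex conjugation gives an element of `oddClasses`. -/
theorem odd_pos {X : Set (ℕ × ℚ[X])} (hX : X.Nonempty)
    (hp : ∀ x ∈ X, 0 < x.1 ∧ IsPure w x.1 x.2 ∧ x.2 ≠ 0) :
    0 < (Nat.card (oddClasses Ω X w) : ℝ) / finrank ℚ (commonField Ω X) := by
  classical
  have hGal : IsGalois ℚ Ω := isGaloisΩ
  have hP : ∀ x ∈ X, x.2 ≠ 0 := fun x hx => (hp x hx).2.2
  have hfin := finite_quotient (N00 Ω X) (isOpen_N00 hX hP)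
  rw [← card_oddClasses hX hP w, ← card_N00 hX hP]
  obtain ⟨c, hc⟩ := exists_odd Ω w
  obtain ⟨x, hx⟩ := hX
  have h1 : Nonempty {r : Gal(Ω/ℚ) ⧸ N00 Ω X | ∃ x ∈ X, ∃ τ : Gal(Ω/ℚ), IsOdd w x.1 x.2 τ ∧
      (τ : Gal(Ω/ℚ) ⧸ N00 Ω X) = r} :=
    ⟨⟨(c : Gal(Ω/ℚ) ⧸ N00 Ω X), x, hx, c, hc x.1 x.2 (hp x hx).1 (hp x hx).2.1, rfl⟩⟩
  have h2 : 0 < Nat.card {r : Gal(Ω/ℚ) ⧸ N00 Ω X | ∃ x ∈ X, ∃ τ : Gal(Ω/ℚ),
      IsOdd w x.1 x.2 τ ∧ (τ : Gal(Ω/ℚ) ⧸ N00 Ω X) = r} := Nat.card_pos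
  have h3 : 0 < Nat.card (Gal(Ω/ℚ) ⧸ N00 Ω X) := Nat.card_pos
  have h4 : (0 : ℝ) < (Nat.card {r : Gal(Ω/ℚ) ⧸ N00 Ω X | ∃ x ∈ X, ∃ τ : Gal(Ω/ℚ),
      IsOdd w x.1 x.2 τ ∧ (τ : Gal(Ω/ℚ) ⧸ N00 Ω X) = r} : ℝ) := by exact_mod_cast h2
  have h5 : (0 : ℝ) < (Nat.card (Gal(Ω/ℚ) ⧸ N00 Ω X) : ℝ) := by exact_mod_cast h3
  exact div_pos h4 h5

/-- **Semisimplicity for primes of density one**, final form. -/
theorem density_final (hΓ : IsOpen (Γ : Set Gal(Ω/ℚ)))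
    (hcont : ∀ (p : ℕ) [Fact p.Prime], IsCont (ρ p))
    (hpol : ∀ (p : ℕ) [Fact p.Prime], ∃ B, IsPolar (ρ p) w B)
    (hsys : IsPureSys ρ w)
    (hreg : ∃ (p : ℕ) (_ : Fact p.Prime), (∃ g : Γ, IsStrReg (ρ p) g) ∨
      ∃ h : Fin n → ℤ, Function.Injective h ∧ IsHT (ρ p) h) :
    0 < (Nat.card (oddClasses Ω (neatSet ρ w) w) : ℝ) / finrank ℚ (commonField Ω (neatSet ρ w)) ∧
    HasNatLower {p | ∃ _ : Fact p.Prime, IsSemisimple (ρ p)}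
      ((Nat.card (oddClasses Ω (neatSet ρ w) w) : ℝ) /
        finrank ℚ (commonField Ω (neatSet ρ w))) ∧
    ((commonField Ω (neatSet ρ w) = ⊥ ∨
        ∃ S : Set ℕ, (∀ l ∈ S, ∀ [Fact l.Prime], ∃ g : Γ, IsStrReg (ρ l) g ∧
            (LinearMap.charpoly (ρ l g)).Splits) ∧
          ∃ δ : ℝ, 1 / 2 < δ ∧ ∃ᶠ x : ℕ in atTop,
            δ * (Nat.primeCounting x : ℝ) ≤ ({l | l ≤ x ∧ l.Prime ∧ l ∈ S}.ncard : ℝ)) →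
      Tendsto (fun x : ℕ =>
        ({p | p ≤ x ∧ p.Prime ∧ ∃ _ : Fact p.Prime, IsSemisimple (ρ p)}.ncard : ℝ) /
          (Nat.primeCounting x : ℝ)) atTop (𝓝 1)) := by
  obtain ⟨q, P, hqP, hn⟩ := exists_neat hΓ hcont hsys hreg
  have hne : (neatSet ρ w).Nonempty := ⟨(q, P), hqP, hn⟩
  have h1 := density_one hΓ hcont hsys hpol (neatSet ρ w) hne fun x hx => hx
  refine ⟨odd_pos hne fun x hx => ⟨hx.1.1.pos, hx.1.2.1, hx.1.ne_zero⟩, h1.1, ?_⟩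
  rintro (hb | ⟨S, hS, hd⟩)
  · exact h1.2 hb
  · exact h1.2 (commonField_eq_bot hΓ hcont hsys S hS hd).2

end Pool.Agent.Lib.H81D
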